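import Pool.Agent.H73.AY.Bas
import Pool.Agent.H73.AZ.Fam
import Pool.Agent.H27.AW.Ann
import Pool.Agent.H86.AD.ChainA

/-! Solutions of the equations in a box form good families: the fixed operator is the Hamiltonian
of the whole formula. -/

namespace Pool.Agent.H73.AY

open Finset Matrix Pool.Agent.H73.QA Pool.Agent.H73.AD Pool.Agent.H73.AZ

set_option linter.unusedSectionVars false
set_option linter.deprecated false

variable {n k m : ℕ} {Y : Type} [Fintype Y] [DecidableEq Y] {p q r : ℕ}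
variable {G : Fin m → Clause n k} {α κ Λ ε δ ν t ρ σ β R cu θ : ℝ} {J : ℕ}

/-- constants of the argument -/
structure CB (κ Λ δ ν ρ σ β R : ℝ) (n k J r : ℕ) : Prop where
  κ0 : 0 < κ
  κ1 : κ ≤ 1
  Λ0 : 0 ≤ Λ
  ρ0 : 0 ≤ ρ
  σ0 : 0 ≤ σ
  β0 : 0 < β
  R0 : 0 ≤ R
  tot : 4 * 2 ^ r * ρ + Λ * (r * 2 ^ (r + 1)) * (ν + 2 / Real.sqrt (2 ^ k)) ≤ σ
  tot2 : 4 * ρ ≤ σ
  iter : ((κ / 4)⁻¹ * (3 * σ)) ^ J * Real.sqrt (2 ^ n) ≤ β
  ball : ∀ x : Cube n, ((univ.filter fun z => x ∈ hball δ z).card : ℝ) ≤ β ^ 2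

theorem av_bas_le (hS : Std ε δ ν t r G) {l : Letter n m Y} (hl : l.Ok t r G) (u : Sp n Y) :
    ‖lin l.av u - lin (bas G l) u‖ ≤ ε * ‖u‖ := by
  have hm' : (0 : ℝ) < m := by exact_mod_cast hS.hm
  have h0 := hS.ε0
  have hz : ∀ X : Op n Y, ‖lin X u - lin X u‖ ≤ ε * ‖u‖ := fun X => by
    rw [sub_self, norm_zero]
    positivity
  cases l with
  | fix D => exact hz D
  | cost =>
    have h1 : lin (Letter.av (Letter.cost : Letter n m Y)) u -
        lin (bas G (Letter.cost : Letter n m Y)) u =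
        dg (fun x => ((1 - 2 ^ k / m * viol G x : ℝ) : ℂ)) u := by
      show lin (1 : Op n Y) u -
        lin (diagonal fun x : Cube n × Y => ((2 ^ k / m * viol G x.1 : ℝ) : ℂ)) u = _
      have h2 : lin (diagonal fun x : Cube n × Y => ((2 ^ k / m * viol G x.1 : ℝ) : ℂ)) =
          dg (fun x => ((2 ^ k / m * viol G x : ℝ) : ℂ)) :=
        AW.lin_diag (fun x => ((2 ^ k / m * viol G x : ℝ) : ℂ))
      rw [h2, lin_one]
      ext x
      simp only [PiLp.sub_apply, dg_apply, LinearMap.id_apply]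
      push_cast
      ring
    rw [h1]
    refine norm_dg_le h0 (fun x => ?_) u
    rw [Complex.norm_real, Real.norm_eq_abs]
    have h2 := hS.hG.t1 x
    have h3 : (1 : ℝ) - 2 ^ k / m * viol G x = 2 ^ k / m * -((viol G x : ℝ) - m / 2 ^ k) := by
      field_simp
      ring
    rw [h3, abs_mul, abs_neg, abs_of_pos (by positivity : (0 : ℝ) < 2 ^ k / m)]
    calc (2 : ℝ) ^ k / m * |(viol G x : ℝ) - m / 2 ^ k| ≤ 2 ^ k / m * (ε * (m / 2 ^ k)) :=
          mul_le_mul_of_nonneg_left h2 (by positivity)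
      _ = ε := by field_simp
  | cls h => exact hz (∑ j, h j)
  | pen h => exact hz (∑ j, h j)
  | orc D X => exact hz D

theorem wd_av_bas (hS : Std ε δ ν t r G) (w : List (Letter n m Y))
    (hw : ∀ l ∈ w, l.Ok t r G) (u : Sp n Y) :
    ‖lin (wd Letter.av w) u - lin (wd (bas G) w) u‖ ≤ w.length * 2 ^ w.length * ε * ‖u‖ := by
  have hε0 := hS.ε0
  induction w with
  | nil => rw [lin_wd_nil, lin_wd_nil]; simp
  | cons l w ih =>
    have hl : l.Ok t r G := hw l (by simp)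
    have hw' : ∀ l ∈ w, l.Ok t r G := fun l hl => hw l (by simp [hl])
    rw [lin_wd_cons, lin_wd_cons]
    have h1 : lin l.av (lin (wd Letter.av w) u) - lin (bas G l) (lin (wd (bas G) w) u) =
        lin l.av (lin (wd Letter.av w) u - lin (wd (bas G) w) u) +
        (lin l.av (lin (wd (bas G) w) u) - lin (bas G l) (lin (wd (bas G) w) u)) := by
      rw [map_sub]; abel
    rw [h1]
    refine (norm_add_le _ _).trans ?_
    have h2 := (norm_av_le hl (lin (wd Letter.av w) u - lin (wd (bas G) w) u)).trans (ih hw')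
    have h3 := av_bas_le hS hl (lin (wd (bas G) w) u)
    have h4 := norm_wd_bas hS w hw' u
    have h5 : ε * ‖lin (wd (bas G) w) u‖ ≤ ε * (2 ^ w.length * ‖u‖) :=
      mul_le_mul_of_nonneg_left h4 hε0
    have h6 : (0 : ℝ) ≤ 2 ^ w.length * ε * ‖u‖ := by positivity
    rw [List.length_cons, pow_succ]
    push_cast
    have h7 : (0 : ℝ) ≤ w.length * (2 ^ w.length * ε * ‖u‖) := by positivity
    nlinarith

theorem norm_sw_adiff (hS : Std ε δ ν t r G) {w : List (Letter n m Y)}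
    (hw : ∀ l ∈ w, l.Ok t r G) (hr : w.length ≤ r) (u : Sp n Y) :
    ‖(sw Letter.av w - sw (bas G) w) u‖ ≤ (r * 2 ^ (r + 1)) * ε * ‖u‖ := by
  have hε0 := hS.ε0
  have h1 := wd_av_bas hS w hw u
  have h2 := wd_av_bas hS (adjW w) (adjW_ok hw) u
  rw [adjW_length] at h2
  have h3 : (sw Letter.av w - sw (bas G) w) u =
      (lin (wd Letter.av w) u - lin (wd (bas G) w) u) +
      (lin (wd Letter.av (adjW w)) u - lin (wd (bas G) (adjW w)) u) := by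
    show (lin (wd Letter.av w) u + lin (wd Letter.av (adjW w)) u) -
      (lin (wd (bas G) w) u + lin (wd (bas G) (adjW w)) u) = _
    abel
  rw [h3]
  refine (norm_add_le _ _).trans ?_
  have h4 : (w.length : ℝ) * 2 ^ w.length ≤ r * 2 ^ r := by
    have h5 : (w.length : ℝ) ≤ r := by exact_mod_cast hr
    exact mul_le_mul h5 (pow_len_le hr one_le_two) (by positivity) (by positivity)
  have h6 : (w.length : ℝ) * 2 ^ w.length * ε * ‖u‖ ≤ r * 2 ^ r * ε * ‖u‖ :=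
    mul_le_mul_of_nonneg_right (mul_le_mul_of_nonneg_right h4 hε0) (norm_nonneg _)
  rw [pow_succ]
  linarith

theorem ham_av_bas (hS : Std ε δ ν t r G) (w : Fin p → List (Letter n m Y))
    (hw : ∀ i, ∀ l ∈ w i, l.Ok t r G) (hr : ∀ i, (w i).length ≤ r) (a : Fin p → ℝ)
    (ha : ∑ i, |a i| ≤ Λ) (u : Sp n Y) :
    ‖lin (Ham Letter.av w a) u - lin (Ham (bas G) w a) u‖ ≤
      Λ * (r * 2 ^ (r + 1)) * ε * ‖u‖ := by
  have hε0 := hS.ε0
  rw [lin_ham adj_av, lin_ham (adj_bas G), LinearMap.sum_apply, LinearMap.sum_apply,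
    ← sum_sub_distrib]
  have h1 : ∀ i, ((a i : ℂ) • sw Letter.av (w i)) u - ((a i : ℂ) • sw (bas G) (w i)) u =
      (a i : ℂ) • (sw Letter.av (w i) - sw (bas G) (w i)) u := by
    intro i
    rw [LinearMap.smul_apply, LinearMap.smul_apply, LinearMap.sub_apply, smul_sub]
  simp only [h1]
  rw [mul_assoc, mul_assoc, ← mul_assoc ((r : ℝ) * 2 ^ (r + 1))]
  exact norm_comb_le ha (by positivity) _ fun i => norm_sw_adiff hS (hw i) (hr i) u

/-- few low eigenvalues of the averaged Hamiltonian imply few low eigenvalues for the whole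
formula -/
theorem few_bas (hS : Std ε δ ν t r G) (w : Fin p → List (Letter n m Y))
    (hw : ∀ i, ∀ l ∈ w i, l.Ok t r G) (hr : ∀ i, (w i).length ≤ r) (a : Fin p → ℝ)
    (ha : ∑ i, |a i| ≤ Λ) (hs : Λ * (r * 2 ^ (r + 1)) * ε ≤ κ / 8) {e : ℝ}
    (h : Few α (κ / 2) e (Ham Letter.av w a)) :
    Few α (3 * κ / 8) e (Ham (bas G) w a) := by
  obtain ⟨hA, hc⟩ := h
  have hB : (Ham (bas G) w a).IsHermitian := ham_herm _ w a
  refine ⟨hB, le_trans ?_ hc⟩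
  have h1 := AW.count_transfer hA hB (κ := e + κ / 2) (ρ := e + 3 * κ / 8) (fun v hv => ?_)
  · exact_mod_cast h1
  obtain ⟨x, hx⟩ : ∃ x : Sp n Y, x = WithLp.toLp 2 v := ⟨_, rfl⟩
  have h2 := ham_av_bas hS w hw hr a ha x
  rw [quad_toLp, nsq_eq] at hv ⊢
  rw [← hx] at hv ⊢
  change (e + κ / 2) * ‖x‖ ^ 2 ≤ (inner ℂ x (lin (Ham Letter.av w a) x)).re at hv
  change (e + 3 * κ / 8) * ‖x‖ ^ 2 ≤ (inner ℂ x (lin (Ham (bas G) w a) x)).re
  have h3 : (inner ℂ x (lin (Ham Letter.av w a) x)).re =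
      (inner ℂ x (lin (Ham (bas G) w a) x)).re +
      (inner ℂ x (lin (Ham Letter.av w a) x - lin (Ham (bas G) w a) x)).re := by
    rw [inner_sub_right, Complex.sub_re]
    ring
  have h4 : (inner ℂ x (lin (Ham Letter.av w a) x - lin (Ham (bas G) w a) x)).re ≤
      κ / 8 * ‖x‖ ^ 2 := by
    refine (Complex.re_le_norm _).trans ((norm_inner_le_norm _ _).trans ?_)
    have h5 : Λ * (r * 2 ^ (r + 1)) * ε * ‖x‖ ≤ κ / 8 * ‖x‖ :=
      mul_le_mul_of_nonneg_right hs (norm_nonneg _)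
    calc ‖x‖ * ‖lin (Ham Letter.av w a) x - lin (Ham (bas G) w a) x‖ ≤
          ‖x‖ * (κ / 8 * ‖x‖) := mul_le_mul_of_nonneg_left (h2.trans h5) (norm_nonneg _)
      _ = κ / 8 * ‖x‖ ^ 2 := by ring
  nlinarith

/-- the perturbation of a family of Hamiltonians in a box -/
theorem goodOp_hamB (hS : Std ε δ ν t r G) {Z : Type} [Fintype Z] (hβ : 0 ≤ β)
    (ζ : Z → Cube n)
    (hB : ∀ x, ((univ.filter fun z => x ∈ hball δ (ζ z)).card : ℝ) ≤ β ^ 2)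
    (w : Fin p → List (Letter n m Y)) (hw : ∀ i, ∀ l ∈ w i, l.Ok t r G)
    (hr : ∀ i, (w i).length ≤ r) (a0 : Fin p → ℝ) (a : Z → Fin p → ℝ) (b : Fin p → ℝ)
    (hb0 : ∀ i, 0 ≤ b i) (hb : ∑ i, b i ≤ 2 * ρ)
    (ha0 : ∑ i, |a0 i| ≤ Λ) (hc : ∀ z i, |a z i - a0 i| ≤ b i) :
    GoodOp β (16 ^ r * (4 * Λ + 12 * ρ))
      (fun z => lin (Ham (bas G) w a0) - lin (Ham (Letter.flt G δ (ζ z)) w (a z))) := by
  have h8 : (2 : ℝ) ^ (r + 1) ≤ 2 * 16 ^ r := by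
    rw [pow_succ, mul_comm]
    exact mul_le_mul_of_nonneg_left (pow_le_pow_left₀ (by norm_num) (by norm_num) r) (by norm_num)
  have hρ : 0 ≤ ρ := by
    have := (sum_nonneg fun i _ => hb0 i).trans hb
    linarith
  have hdec : (fun z => lin (Ham (bas G) w a0) - lin (Ham (Letter.flt G δ (ζ z)) w (a z))) =
      fun z => ∑ i, (((a0 i - a z i : ℝ) : ℂ) • sw (bas G) (w i) +
        (a z i : ℂ) • (sw (bas G) (w i) + (-1 : ℂ) • sw (Letter.flt G δ (ζ z)) (w i))) := by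
    funext z
    rw [lin_ham (adj_bas G), lin_ham (adj_flt G δ (ζ z)), ← sum_sub_distrib]
    refine sum_congr rfl fun i _ => ?_
    rw [Complex.ofReal_sub, neg_one_smul, smul_add, smul_neg, sub_smul]
    abel
  rw [hdec]
  have hi : ∀ i, GoodOp β (b i * 2 ^ (r + 1) + (|a0 i| + b i) *
      (2 ^ (r + 1) + 1 * (16 ^ r + 16 ^ r)))
      (fun z => ((a0 i - a z i : ℝ) : ℂ) • sw (bas G) (w i) +
        (a z i : ℂ) • (sw (bas G) (w i) + (-1 : ℂ) • sw (Letter.flt G δ (ζ z)) (w i))) := by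
    intro i
    have g1 := goodOp_fixed (β := β) (Z := Z) (by positivity : (0 : ℝ) ≤ 2 ^ (r + 1))
      (sw (bas G) (w i)) (norm_sw_bas hS (hw i) (hr i))
    have g2 := goodOp_sw hS hβ ζ hB (hw i) (hr i)
    refine (g1.smul (hb0 i) (fun z => ((a0 i - a z i : ℝ) : ℂ)) fun z => ?_).add
      ((g1.add (g2.smul zero_le_one (fun _ => (-1 : ℂ)) fun _ => by simp)).smul
        (add_nonneg (abs_nonneg _) (hb0 i)) (fun z => (a z i : ℂ)) fun z => ?_)
    · rw [Complex.norm_real, Real.norm_eq_abs, abs_sub_comm]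
      exact hc z i
    · rw [Complex.norm_real, Real.norm_eq_abs]
      have h1 := hc z i
      have h2 : |a z i| ≤ |a z i - a0 i| + |a0 i| := by
        have := abs_add_le (a z i - a0 i) (a0 i)
        rwa [sub_add_cancel] at this
      linarith
  refine (GoodOp.sum hβ univ fun i _ => hi i).mono hβ ?_
  have h2 : ∑ i : Fin p, (b i * 2 ^ (r + 1) +
      (|a0 i| + b i) * (2 ^ (r + 1) + 1 * ((16 : ℝ) ^ r + 16 ^ r))) =
      (∑ i, b i) * 2 ^ (r + 1) +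
        (∑ i, |a0 i| + ∑ i, b i) * (2 ^ (r + 1) + 1 * ((16 : ℝ) ^ r + 16 ^ r)) := by
    rw [sum_add_distrib, ← sum_mul, ← sum_mul, sum_add_distrib]
  rw [h2]
  have h3 : (2 : ℝ) ^ (r + 1) + 1 * (16 ^ r + 16 ^ r) ≤ 4 * 16 ^ r := by linarith
  have h4 : ∑ i, |a0 i| + ∑ i, b i ≤ Λ + 2 * ρ := add_le_add ha0 hb
  have h5 : 0 ≤ Λ + 2 * ρ := by
    have : 0 ≤ Λ := (sum_nonneg fun i _ => abs_nonneg (a0 i)).trans ha0
    linarith
  have h6 : (∑ i, |a0 i| + ∑ i, b i) * (2 ^ (r + 1) + 1 * ((16 : ℝ) ^ r + 16 ^ r)) ≤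
      (Λ + 2 * ρ) * (4 * 16 ^ r) :=
    mul_le_mul h4 h3 (by positivity) h5
  have h7 : (∑ i, b i) * 2 ^ (r + 1) ≤ 4 * ρ * 16 ^ r := by
    calc (∑ i, b i) * 2 ^ (r + 1) ≤ (2 * ρ) * (2 * 16 ^ r) :=
          mul_le_mul hb h8 (by positivity) (by positivity)
      _ = 4 * ρ * 16 ^ r := by ring
  calc _ ≤ 4 * ρ * 16 ^ r + (Λ + 2 * ρ) * (4 * 16 ^ r) := add_le_add h7 h6
    _ = 16 ^ r * (4 * Λ + 12 * ρ) := by ring

/-- norm of the perturbation -/
theorem norm_pertB (hS : Std ε δ ν t r G) (z : Cube n)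
    (w : Fin p → List (Letter n m Y)) (hw : ∀ i, ∀ l ∈ w i, l.Ok t r G)
    (hr : ∀ i, (w i).length ≤ r) (a0 a : Fin p → ℝ) (b : Fin p → ℝ) (hb : ∑ i, b i ≤ 2 * ρ)
    (ha : ∑ i, |a i| ≤ Λ) (hc : ∀ i, |a i - a0 i| ≤ b i) (u : Sp n Y) :
    ‖(lin (Ham (bas G) w a0) - lin (Ham (Letter.flt G δ z) w a)) u‖ ≤
      (4 * 2 ^ r * ρ + Λ * (r * 2 ^ (r + 1)) * (ν + 2 / Real.sqrt (2 ^ k))) * ‖u‖ := by
  have h1 := ham_bas_flt hS z w hw hr a ha u
  have h2 : lin (Ham (bas G) w a0) u - lin (Ham (bas G) w a) u =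
      ∑ i, (((a0 i - a i : ℝ)) : ℂ) • sw (bas G) (w i) u := by
    rw [lin_ham (adj_bas G), lin_ham (adj_bas G), LinearMap.sum_apply, LinearMap.sum_apply,
      ← sum_sub_distrib]
    refine sum_congr rfl fun i _ => ?_
    rw [LinearMap.smul_apply, LinearMap.smul_apply, Complex.ofReal_sub, sub_smul]
  have h3 : ‖∑ i, (((a0 i - a i : ℝ)) : ℂ) • sw (bas G) (w i) u‖ ≤
      2 * ρ * (2 ^ (r + 1) * ‖u‖) := by
    refine norm_comb_le (a := fun i => a0 i - a i) ?_ (by positivity) _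
      fun i => norm_sw_bas hS (hw i) (hr i) u
    exact (sum_le_sum fun i _ => by rw [abs_sub_comm]; exact hc i).trans hb
  rw [LinearMap.sub_apply]
  have h4 : lin (Ham (bas G) w a0) u - lin (Ham (Letter.flt G δ z) w a) u =
      (lin (Ham (bas G) w a0) u - lin (Ham (bas G) w a) u) +
      (lin (Ham (bas G) w a) u - lin (Ham (Letter.flt G δ z) w a) u) := by abel
  rw [h4]
  refine (norm_add_le _ _).trans ?_
  rw [h2]
  have h5 : 2 * ρ * (2 ^ (r + 1) * ‖u‖) = 4 * 2 ^ r * ρ * ‖u‖ := by rw [pow_succ]; ring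
  rw [h5] at h3
  linarith

/-- families of solutions of `B z v z - f z v z = u z`, where `B z` is close to a fixed operator
`M` -/
theorem famM (hC : CB κ Λ δ ν ρ σ β R n k J r) {M : Op n Y} {ΛM : ℝ} (hΛM : 0 ≤ ΛM)
    (hM : ∀ u, ‖lin M u‖ ≤ ΛM * ‖u‖) (hR : (2 : ℝ) ^ (α * n) ≤ R ^ 2)
    (hfew : ∃ hA : M.IsHermitian,
      ((univ.filter fun i => hA.eigenvalues i < θ).card : ℝ) ≤ 2 ^ (α * n))
    {Z : Type} [Fintype Z] (ζ : Z → Cube n) (hζ : Function.Injective ζ)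
    (B : Z → Sp n Y →ₗ[ℂ] Sp n Y)
    (hB : GoodOp β (16 ^ r * (4 * Λ + 12 * ρ)) fun z => lin M - B z)
    (hBs : ∀ z x, ‖(lin M - B z) x‖ ≤ σ * ‖x‖)
    (f : Z → ℝ) (f0 : ℝ) (hf : ∀ z, |f z - f0| ≤ σ) (hθ : κ / 4 ≤ θ - f0)
    (v u : Z → Sp n Y) (hv : ∀ z, ‖v z‖ ≤ 1) (hu : Good β cu u)
    (heq : ∀ z, B z (v z) - (f z : ℂ) • v z = u z) :
    Good β ((R + (κ / 4)⁻¹ * cu) * geo κ Λ ρ σ r J + 1) v := by
  have hκ4 : 0 < κ / 4 := by linarith [hC.κ0]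
  obtain ⟨hA, hfew⟩ := hfew
  obtain ⟨S, hS, hdec⟩ := spec (κ := θ) (b := 1) (s := -f0) hA hκ4 (fun i hi => by linarith)
  have hcard : Real.sqrt (Fintype.card Z) ≤ Real.sqrt (2 ^ n) := by
    refine Real.sqrt_le_sqrt ?_
    have h1 := Fintype.card_le_of_injective ζ hζ
    have h2 : Fintype.card (Cube n) = 2 ^ n := by simp
    rw [h2] at h1
    exact_mod_cast h1
  refine master (β := β) (σ := σ) (K0 := 16 ^ r * (4 * Λ + 12 * ρ)) (cu := cu) (b0 := 1)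
    (s0 := -f0) (Λ' := ΛM + 1) (r := R) hC.β0.le hκ4 hC.σ0 (by linarith)
    (lin M) S hS (univ.filter fun i => hA.eigenvalues i < θ)
    (fun i => hA.eigenvectorBasis i) (fun i => (hA.eigenvectorBasis.orthonormal.1 i).le)
    (fun x hx => bessel hA _ x hx) hC.R0 (hfew.trans hR) hdec (fun x => ?_) (fun _ => 1)
    (fun z => -f z) (fun z => ?_) (fun z => ?_) (fun z => lin M - B z) hB hBs
    v u hv hu (fun z => ?_) J ?_
  · have h1 := hM x
    have h2 := norm_nonneg x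
    linarith
  · rw [sub_self, abs_zero, zero_mul]
    exact hC.σ0
  · have h1 := hf z
    rw [abs_sub_comm] at h1
    have h2 : -f z - -f0 = f0 - f z := by ring
    rw [h2]
    exact h1
  · have h1 := heq z
    rw [← h1, LinearMap.sub_apply]
    push_cast
    module
  · refine le_trans ?_ hC.iter
    refine mul_le_mul_of_nonneg_left hcard ?_
    have := hC.σ0
    positivity

/-- flattened Hamiltonians in a box -/
theorem famF (hC : CB κ Λ δ ν ρ σ β R n k J r) (hS : Std ε δ ν t r G)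
    (w : Fin p → List (Letter n m Y)) (hw : ∀ i, ∀ l ∈ w i, l.Ok t r G)
    (hr : ∀ i, (w i).length ≤ r) (a0 : Fin p → ℝ)
    (ha0 : ∑ i, |a0 i| ≤ Λ) (hR : (2 : ℝ) ^ (α * n) ≤ R ^ 2)
    (hfew : ∃ hA : (Ham (bas G) w a0).IsHermitian,
      ((univ.filter fun i => hA.eigenvalues i < θ).card : ℝ) ≤ 2 ^ (α * n))
    {Z : Type} [Fintype Z] (ζ : Z → Cube n) (hζ : Function.Injective ζ)
    (a : Z → Fin p → ℝ) (ha : ∀ z, ∑ i, |a z i| ≤ Λ) (b : Fin p → ℝ) (hb0 : ∀ i, 0 ≤ b i)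
    (hb : ∑ i, b i ≤ 2 * ρ) (hc : ∀ z i, |a z i - a0 i| ≤ b i)
    (f : Z → ℝ) (f0 : ℝ) (hf : ∀ z, |f z - f0| ≤ σ) (hθ : κ / 4 ≤ θ - f0)
    (v u : Z → Sp n Y) (hv : ∀ z, ‖v z‖ ≤ 1) (hu : Good β cu u)
    (heq : ∀ z, lin (Ham (Letter.flt G δ (ζ z)) w (a z)) (v z) - (f z : ℂ) • v z = u z) :
    Good β ((R + (κ / 4)⁻¹ * cu) * geo κ Λ ρ σ r J + 1) v :=
  famM hC (ΛM := Λ * 2 ^ (r + 1)) (mul_nonneg hC.Λ0 (by positivity))
    (fun u => (norm_ham_bas hS w hw hr a0 ha0 u).trans (le_of_eq (by ring))) hR hfew ζ hζ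
    (fun z => lin (Ham (Letter.flt G δ (ζ z)) w (a z)))
    (goodOp_hamB hS hC.β0.le ζ (ball_sub hC.ball ζ hζ) w hw hr a0 a b hb0 hb ha0 hc)
    (fun z x => (norm_pertB hS (ζ z) w hw hr a0 (a z) b hb (ha z) (hc z)
      x).trans (mul_le_mul_of_nonneg_right hC.tot (norm_nonneg _))) f f0 hf hθ v u hv hu heq

/-- averaged Hamiltonians in a box -/
theorem famA (hC : CB κ Λ δ ν ρ σ β R n k J r)
    (w : Fin p → List (Letter n m Y)) (hw : ∀ i, ∀ l ∈ w i, l.Ok t r G) (a0 : Fin p → ℝ)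
    (ha0 : ∑ i, |a0 i| ≤ Λ) (hR : (2 : ℝ) ^ (α * n) ≤ R ^ 2)
    (hfew : ∃ hA : (Ham Letter.av w a0).IsHermitian,
      ((univ.filter fun i => hA.eigenvalues i < θ).card : ℝ) ≤ 2 ^ (α * n))
    {Z : Type} [Fintype Z] (ζ : Z → Cube n) (hζ : Function.Injective ζ)
    (a : Z → Fin p → ℝ) (b : Fin p → ℝ) (hb0 : ∀ i, 0 ≤ b i)
    (hb : ∑ i, b i ≤ 2 * ρ) (hc : ∀ z i, |a z i - a0 i| ≤ b i)
    (f : Z → ℝ) (f0 : ℝ) (hf : ∀ z, |f z - f0| ≤ σ) (hθ : κ / 4 ≤ θ - f0)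
    (v u : Z → Sp n Y) (hv : ∀ z, ‖v z‖ ≤ 1) (hu : Good β cu u)
    (heq : ∀ z, lin (Ham Letter.av w (a z)) (v z) - (f z : ℂ) • v z = u z) :
    Good β ((R + (κ / 4)⁻¹ * cu) * geo κ Λ ρ σ r J + 1) v := by
  have h1 := goodOp_hamA (Z := Z) hC.β0.le w hw a0 a b hb0 hb hc
  have h8 : (1 : ℝ) ≤ 16 ^ r := one_le_pow₀ (by norm_num)
  have hΛ := hC.Λ0
  have hρ := hC.ρ0
  refine famM hC (ΛM := Λ * 2) (by positivity)
    (fun u => (norm_ham_av w hw a0 ha0 u).trans (le_of_eq (by ring))) hR hfew ζ hζ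
    (fun z => lin (Ham Letter.av w (a z))) (h1.1.mono hC.β0.le ?_)
    (fun z x => (h1.2 z x).trans (mul_le_mul_of_nonneg_right hC.tot2 (norm_nonneg _)))
    f f0 hf hθ v u hv hu heq
  have h3 : 4 * ρ * 1 ≤ 4 * ρ * 16 ^ r := mul_le_mul_of_nonneg_left h8 (by linarith)
  have h4 : 0 ≤ (16 : ℝ) ^ r * (4 * Λ + 8 * ρ) := by positivity
  nlinarith

end Pool.Agent.H73.AY
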