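import Pool.Agent.H73.AY.Fun
import Pool.Agent.H73.AY.FamB
import Pool.Agent.H73.AZ.Bad

/-! Counting assignments which are not good. -/

namespace Pool.Agent.H73.AY

open Finset Matrix Pool.Agent.H73.QA Pool.Agent.H73.AD Pool.Agent.H73.AZ
open Pool.Agent.H73.AX (GoodP GoodOpP near_goodP l2_integral_le)

set_option linter.unusedSectionVars false

variable {n k m : ℕ} {Y : Type} [Fintype Y] [DecidableEq Y] {p q r : ℕ}

variable {G : Fin m → Clause n k} {α κ Λ ε δ ν t ρ σ β R : ℝ} {J : ℕ} {A : Set (Fin p → ℝ)}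
variable {K : Type} [DecidableEq K] {Ic : Finset K} {Is : Finset ℤ} {cell : (Fin p → ℝ) → K}
  {bx : K → Fin p → ℝ} {ns : ℝ → ℤ}

theorem Tw_cok {L d N : ℝ} {T : Fin q → List (Gate n p Y)} (hL : 0 ≤ L) (hd : 0 ≤ d)
    (hN : 0 ≤ N) (hT : ∀ j, COk t G L d N (T j)) (o : Option (Fin q)) :
    COk t G L d N (Tw T o) := by
  cases o with
  | none => exact ⟨fun c hc => absurd hc List.not_mem_nil, hL, hd, hN⟩
  | some j => exact hT j

theorem card_fin_le (F : Finset (Cube n)) : (Fintype.card F : ℝ) ≤ 2 ^ n := by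
  have h1 := Fintype.card_le_of_injective (fun z : F => (z : Cube n)) Subtype.val_injective
  have h2 : Fintype.card (Cube n) = 2 ^ n := by simp
  rw [h2] at h1
  exact_mod_cast h1

theorem geo_nonnegB (hC : CB κ Λ δ ν ρ σ β R n k J r) : 0 ≤ geo κ Λ ρ σ r J := by
  unfold AZ.geo
  have h1 := hC.κ0
  have h2 := hC.Λ0
  have h3 := hC.ρ0
  have h4 := hC.σ0
  positivity

/-- eigenvectors of averaged Hamiltonians -/
theorem count0 (hC : CB κ Λ δ ν ρ σ β R n k J r) (hD : Std ε δ ν t r G)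
    (w : Fin p → List (Letter n m Y))
    (hw : ∀ i, ∀ l ∈ w i, l.Ok t r G) (hr : ∀ i, (w i).length ≤ r)
    (hR : (2 : ℝ) ^ (α * n) ≤ R ^ 2)
    (hN : Nets A Λ ρ σ r Ic Is cell bx ns) {η : ℝ} (hη : 0 < η) (S : Finset (Cube n))
    (hS : ∀ z ∈ S, ∃ (a : Fin p → ℝ) (e : ℝ) (v : Sp n Y), a ∈ A ∧ ∑ i, |a i| ≤ Λ ∧ ‖v‖ = 1 ∧
      lin (Ham Letter.av w a) v = (e : ℂ) • v ∧ Few α κ e (Ham Letter.av w a) ∧
      η < NR G δ w z v) :
    (S.card : ℝ) ≤ (Ic.card * Is.card : ℝ) *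
      (4 * (β * (MR p r * (R * geo κ Λ ρ σ r J + 1))) ^ 2 / η ^ 2) := by
  classical
  choose! a e v hS using hS
  have hg := geo_nonnegB hC
  have hMR : 0 ≤ MR p r := zero_le_one.trans (MR_one_le p r)
  have hR0 := hC.R0
  have h := count_fib S (Ic ×ˢ Is) (fun z => (cell (a z), ns (e z))) (fun z hz => ?_)
    (fun z => NR G δ w z (v z)) hη (B := β * (MR p r * (R * geo κ Λ ρ σ r J + 1)))
    (fun z hz => (hS z hz).2.2.2.2.2) (fun F hFS z0 hz0 hkey => ?_)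
  · rw [card_product] at h
    push_cast at h
    exact h
  · obtain ⟨h0, h1, h2, h3, h4, h5⟩ := hS z hz
    rw [mem_product]
    refine ⟨hN.c1 _ h0 h1, hN.s1 _ ?_⟩
    have h6 := abs_le_of_eig (B := Λ * 2) (fun u => by
      rw [mul_assoc]; exact norm_ham_av w hw (a z) h1 u) h2 h3
    refine h6.trans (mul_le_mul_of_nonneg_left ?_ hC.Λ0)
    calc (2 : ℝ) = 2 ^ 1 := by norm_num
      _ ≤ 2 ^ (r + 1) := pow_le_pow_right₀ one_le_two (by omega)
  · have hk : ∀ z : F, cell (a z) = cell (a z0) ∧ ns (e z) = ns (e z0) := by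
      intro z
      have h1 := hkey z z.2
      simpa [Prod.ext_iff] using h1
    have h0 := hS z0 (hFS hz0)
    obtain ⟨hA, hfew⟩ := h0.2.2.2.2.1
    have h1 := famA (α := α) (cu := 0) (θ := e z0 + κ) hC w hw (a z0) h0.2.1 hR
      ⟨hA, hfew⟩ (Z := F) (fun z => (z : Cube n)) Subtype.val_injective (fun z => a z)
      (bx (cell (a z0))) (hN.b0 _) (hN.b1 _)
      (fun z => hN.c2 _ (hS z (hFS z.2)).1 _ h0.1 (hS z (hFS z.2)).2.1 h0.2.1 (hk z).1)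
      (fun z => e z) (e z0) (fun z => hN.s2 _ _ (hk z).2)
      (by have := hC.κ0; linarith) (fun z => v z) (fun _ => 0)
      (fun z => (hS z (hFS z.2)).2.2.1.le) (Good.zero hC.β0.le le_rfl) (fun z => by
        rw [(hS z (hFS z.2)).2.2.2.1, sub_self])
    rw [mul_zero, add_zero] at h1
    exact l2_NR hD hC.β0.le (fun z : F => (z : Cube n))
      (ball_sub hC.ball (fun z : F => (z : Cube n)) Subtype.val_injective) w hw hr
      (by positivity) (AX.Good.plus hC.β0.le h1)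

/-- eigenvectors of flattened Hamiltonians are good -/
theorem fam1 (hC : CB κ Λ δ ν ρ σ β R n k J r) (hD : Std ε δ ν t r G)
    (hs : Λ * (r * 2 ^ (r + 1)) * ε ≤ κ / 8)
    (w : Fin p → List (Letter n m Y))
    (hw : ∀ i, ∀ l ∈ w i, l.Ok t r G) (hr : ∀ i, (w i).length ≤ r)
    (hR : (2 : ℝ) ^ (α * n) ≤ R ^ 2) (hN : Nets A Λ ρ σ r Ic Is cell bx ns)
    {S : Finset (Cube n)}
    {a : Cube n → Fin p → ℝ} {e f : Cube n → ℝ} {φ : Cube n → Sp n Y}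
    (h0 : ∀ z ∈ S, a z ∈ A ∧ ∑ i, |a z i| ≤ Λ ∧ ‖φ z‖ = 1 ∧
      lin (Ham (Letter.flt G δ z) w (a z)) (φ z) = (f z : ℂ) • φ z ∧
      Few α (κ / 2) (e z) (Ham Letter.av w (a z)) ∧ |f z - e z| ≤ κ / 8)
    {F : Finset (Cube n)} (hFS : F ⊆ S) {z0 : Cube n} (hz0 : z0 ∈ F)
    (hk : ∀ z : F, cell (a z) = cell (a z0) ∧ ns (f z) = ns (f z0)) :
    Good β (R * geo κ Λ ρ σ r J + 1) (fun z : F => φ z) := by
  have h0z := h0 z0 (hFS hz0)
  obtain ⟨hA, hfew⟩ := few_bas hD w hw hr (a z0) h0z.2.1 hs h0z.2.2.2.2.1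
  have h1 := famF (α := α) (cu := 0) (θ := e z0 + 3 * κ / 8) hC hD w hw hr (a z0) h0z.2.1 hR
    ⟨hA, hfew⟩ (Z := F) (fun z => (z : Cube n)) Subtype.val_injective (fun z => a z)
    (fun z => (h0 z (hFS z.2)).2.1) (bx (cell (a z0))) (hN.b0 _) (hN.b1 _)
    (fun z => hN.c2 _ (h0 z (hFS z.2)).1 _ h0z.1 (h0 z (hFS z.2)).2.1 h0z.2.1 (hk z).1)
    (fun z => f z) (f z0) (fun z => hN.s2 _ _ (hk z).2)
    (by have h2 := (abs_le.1 h0z.2.2.2.2.2).2; have := hC.κ0; linarith) (fun z => φ z)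
    (fun _ => 0) (fun z => (h0 z (hFS z.2)).2.2.1.le) (Good.zero hC.β0.le le_rfl) (fun z => by
      rw [(h0 z (hFS z.2)).2.2.2.1, sub_self])
  rw [mul_zero, add_zero] at h1
  exact h1

/-- eigenvectors of flattened Hamiltonians -/
theorem count1 (hC : CB κ Λ δ ν ρ σ β R n k J r) (hD : Std ε δ ν t r G)
    (hs : Λ * (r * 2 ^ (r + 1)) * ε ≤ κ / 8)
    (w : Fin p → List (Letter n m Y))
    (T : Fin q → List (Gate n p Y)) (hw : ∀ i, ∀ l ∈ w i, l.Ok t r G)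
    (hr : ∀ i, (w i).length ≤ r) {L d N Γ : ℝ} (hN0 : 0 ≤ N) (hT : ∀ j, COk t G L d N (T j))
    (hgr : Grd ((r * 2 ^ (r + 1)) * (ν + 2 / Real.sqrt (2 ^ k))) β L d Γ n r)
    (hR : (2 : ℝ) ^ (α * n) ≤ R ^ 2)
    (hN : Nets A Λ ρ σ r Ic Is cell bx ns) {η : ℝ} (hη : 0 < η) (S : Finset (Cube n))
    (hS : ∀ z ∈ S, ∃ (a : Fin p → ℝ) (e f : ℝ) (φ : Sp n Y) (o : Option (Fin q)),
      (a ∈ A ∧ ∑ i, |a i| ≤ Λ ∧ ‖φ‖ = 1 ∧
      lin (Ham (Letter.flt G δ z) w a) φ = (f : ℂ) • φ ∧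
      Few α (κ / 2) e (Ham Letter.av w a) ∧ |f - e| ≤ κ / 8) ∧ η < NX G δ r w z (Tw T o) φ) :
    (S.card : ℝ) ≤ ((q + 1) * (Ic.card * Is.card) : ℝ) *
      (4 * (β * (AXc p r Γ (L + d) N * (R * geo κ Λ ρ σ r J + 1))) ^ 2 / η ^ 2) := by
  classical
  choose! a e f φ o hS using hS
  have hg := geo_nonnegB hC
  have hR0 := hC.R0
  have h := count_fib S ((univ : Finset (Option (Fin q))) ×ˢ (Ic ×ˢ Is))
    (fun z => (o z, (cell (a z), ns (f z)))) (fun z hz => ?_)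
    (fun z => NX G δ r w z (Tw T (o z)) (φ z)) hη
    (B := β * (AXc p r Γ (L + d) N * (R * geo κ Λ ρ σ r J + 1)))
    (fun z hz => (hS z hz).2) (fun F hFS z0 hz0 hkey => ?_)
  · simp only [card_product, card_univ (α := Option (Fin q)), Fintype.card_option,
      Fintype.card_fin] at h
    push_cast at h
    exact h
  · obtain ⟨⟨h0, h1, h2, h3, h4, h5⟩, h6⟩ := hS z hz
    simp only [mem_product, mem_univ, true_and]
    exact ⟨hN.c1 _ h0 h1, hN.s1 _ (abs_le_of_eig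
      (norm_ham_flt hD z w hw hr (a z) h1) h2 h3)⟩
  · have hk : ∀ z : F, o z = o z0 ∧ cell (a z) = cell (a z0) ∧ ns (f z) = ns (f z0) := by
      intro z
      have h1 := hkey z z.2
      simpa [Prod.ext_iff] using h1
    have h1 := fam1 hC hD hs w hw hr hR hN (fun z hz => (hS z hz).1) hFS hz0
      (fun z => (hk z).2)
    have hTo := Tw_cok hgr.L0 hgr.d0 hN0 hT (o z0)
    have h2 := l2_NX hgr hD hC.β0 (fun z : F => (z : Cube n))
      (ball_sub hC.ball (fun z : F => (z : Cube n)) Subtype.val_injective) (card_fin_le F) w hw hr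
      (Tw T (o z0)) hTo.1 hTo.2.1 hTo.2.2.1 hTo.2.2.2 (by
        have : 0 ≤ R * geo κ Λ ρ σ r J := by positivity
        linarith) (AX.Good.plus hC.β0.le h1) (fun z => (hS z (hFS z.2)).1.2.2.1.le)
    have h3 : (fun z : F => NX G δ r w z (Tw T (o z)) (φ z)) =
        fun z : F => NX G δ r w (z : Cube n) (Tw T (o z0)) (φ z) := by
      funext z
      rw [(hk z).1]
    rw [h3]
    exact h2

/-- resolvents -/
theorem count2 (hC : CB κ Λ δ ν ρ σ β R n k J r) (hD : Std ε δ ν t r G)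
    (hs : Λ * (r * 2 ^ (r + 1)) * ε ≤ κ / 8)
    (w : Fin p → List (Letter n m Y))
    (T : Fin q → List (Gate n p Y)) (hw : ∀ i, ∀ l ∈ w i, l.Ok t r G)
    (hr : ∀ i, (w i).length ≤ r) {L d N Γ : ℝ} (hN0 : 0 ≤ N) (hT : ∀ j, COk t G L d N (T j))
    (hgr : Grd ((r * 2 ^ (r + 1)) * (ν + 2 / Real.sqrt (2 ^ k))) β L d Γ n r)
    (hR : (2 : ℝ) ^ (α * n) ≤ R ^ 2)
    (hN : Nets A Λ ρ σ r Ic Is cell bx ns) {η : ℝ} (hη : 0 < η) (S : Finset (Cube n))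
    (hS : ∀ z ∈ S, ∃ (a : Fin p → ℝ) (e f : ℝ) (φ : Sp n Y) (o : Option (Fin q))
      (a' : Fin p → ℝ) (e' τ : ℝ) (v : Sp n Y), (a ∈ A ∧ ∑ i, |a i| ≤ Λ ∧ ‖φ‖ = 1 ∧
      lin (Ham (Letter.flt G δ z) w a) φ = (f : ℂ) • φ ∧
      Few α (κ / 2) e (Ham Letter.av w a) ∧ |f - e| ≤ κ / 8) ∧ (a' ∈ A ∧ ∑ i, |a' i| ≤ Λ ∧
      Few α (κ / 2) e' (Ham Letter.av w a') ∧ |e'| ≤ Λ * 2 ^ (r + 1) ∧ 0 < τ ∧ τ ≤ 1 ∧ ‖v‖ ≤ 1 ∧
      lin (Ham (Letter.flt G δ z) w a') v - (e' : ℂ) • v =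
      (τ : ℂ) • lin (circF G δ w z (Tw T o)) φ) ∧ η < NR G δ w z v) :
    (S.card : ℝ) ≤ (((Ic.card * Is.card) * ((q + 1) * (Ic.card * Is.card)) : ℝ)) *
      (4 * (β * (MR p r * ((R + (κ / 4)⁻¹ * (Γ *
        (R * geo κ Λ ρ σ r J + 1))) * geo κ Λ ρ σ r J + 1))) ^ 2 / η ^ 2) := by
  classical
  choose! a e f φ o a' e' τ v hS using hS
  have hg := geo_nonnegB hC
  have hR0 := hC.R0
  have hκ0 := hC.κ0
  have h := count_fib S ((Ic ×ˢ Is) ×ˢ (univ : Finset (Option (Fin q))) ×ˢ (Ic ×ˢ Is))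
    (fun z => ((cell (a z), ns (f z)), o z, (cell (a' z), ns (e' z)))) (fun z hz => ?_)
    (fun z => NR G δ w z (v z)) hη
    (B := β * (MR p r * ((R + (κ / 4)⁻¹ * (Γ *
        (R * geo κ Λ ρ σ r J + 1))) * geo κ Λ ρ σ r J + 1)))
    (fun z hz => (hS z hz).2.2) (fun F hFS z0 hz0 hkey => ?_)
  · simp only [card_product, card_univ (α := Option (Fin q)), Fintype.card_option,
      Fintype.card_fin] at h
    push_cast at h
    exact h
  · obtain ⟨⟨h0, h1, h2, h3, h4, h5⟩, ⟨h0', h6, h7, h8, h9⟩, h10⟩ := hS z hz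
    simp only [mem_product, mem_univ, true_and]
    exact ⟨⟨hN.c1 _ h0 h1, hN.s1 _ (abs_le_of_eig
      (norm_ham_flt hD z w hw hr (a z) h1) h2 h3)⟩, hN.c1 _ h0' h6, hN.s1 _ h8⟩
  · have hk : ∀ z : F, (cell (a z) = cell (a z0) ∧ ns (f z) = ns (f z0)) ∧ o z = o z0 ∧
        cell (a' z) = cell (a' z0) ∧ ns (e' z) = ns (e' z0) := by
      intro z
      have h1 := hkey z z.2
      simpa [Prod.ext_iff] using h1
    have h1 := fam1 hC hD hs w hw hr hR hN (fun z hz => (hS z hz).1) hFS hz0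
      (fun z => (hk z).1)
    -- the source of the second equation
    have hinj : Function.Injective (fun z : F => (z : Cube n)) := Subtype.val_injective
    have hBl := ball_sub hC.ball (fun z : F => (z : Cube n)) hinj
    have hΓ0 : 0 ≤ Γ := zero_le_one.trans hgr.one_le
    have hc1 : 1 ≤ R * geo κ Λ ρ σ r J + 1 := by
      have : 0 ≤ R * geo κ Λ ρ σ r J := by positivity
      linarith
    have hTo := Tw_cok hgr.L0 hgr.d0 hN0 hT (o z0)
    have h2 := goodP_circF hgr hD hC.β0 (fun z : F => (z : Cube n)) hBl (card_fin_le F) w hw hr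
      (Tw T (o z0)) hTo.1 hTo.2.1 hTo.2.2.1 hc1 (AX.Good.plus hC.β0.le h1)
      (fun z => (hS z (hFS z.2)).1.2.2.1.le)
    have h3 := (AX.GoodOp.plus hC.β0.le (goodOp_scalar (β := β) (Z := F) (E := Sp n Y)
      zero_le_one
      (fun z => ((τ z : ℝ) : ℂ)) (fun z => by
        have h3 := (hS z (hFS z.2)).2.1
        rw [Complex.norm_real, Real.norm_eq_abs, abs_of_pos h3.2.2.2.2.1]
        exact h3.2.2.2.2.2.1))).2 _ _ (by positivity) h2
    have hsrc : GoodP β (Γ * (R * geo κ Λ ρ σ r J + 1))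
        (fun z : F => ((τ z : ℝ) : ℂ) •
          lin (circF G δ w (z : Cube n) (Tw T (o z0))) (φ z)) := by
      have h4 := h3
      rw [one_mul] at h4
      simpa using h4
    have h0' := (hS z0 (hFS hz0)).2.1
    obtain ⟨hA', hfew'⟩ := few_bas hD w hw hr (a' z0) h0'.2.1 hs h0'.2.2.1
    have hv : GoodP β ((R + (κ / 4)⁻¹ * (Γ *
        (R * geo κ Λ ρ σ r J + 1))) * geo κ Λ ρ σ r J + 1) (fun z : F => v z) := by
      refine goodP_source hC.β0.le hg (by positivity) fun cu' hcu' => ?_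
      exact famF (α := α) (θ := e' z0 + 3 * κ / 8) hC hD w hw hr (a' z0) h0'.2.1 hR
        ⟨hA', hfew'⟩ (Z := F) (fun z => (z : Cube n)) Subtype.val_injective (fun z => a' z)
        (fun z => (hS z (hFS z.2)).2.1.2.1) (bx (cell (a' z0))) (hN.b0 _) (hN.b1 _)
        (fun z => hN.c2 _ (hS z (hFS z.2)).2.1.1 _ h0'.1 (hS z (hFS z.2)).2.1.2.1 h0'.2.1
          (hk z).2.2.1)
        (fun z => e' z)
        (e' z0) (fun z => hN.s2 _ _ (hk z).2.2.2) (by linarith) (fun z => v z) _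
        (fun z => (hS z (hFS z.2)).2.1.2.2.2.2.2.2.1) (hsrc cu' hcu') (fun z => by
          rw [(hS z (hFS z.2)).2.1.2.2.2.2.2.2.2, (hk z).2.1])
    exact l2_NR hD hC.β0.le (fun z : F => (z : Cube n)) hBl w hw hr (by positivity) hv

/-- assignments which are not good -/
theorem count_bad (hC : CB κ Λ δ ν ρ σ β R n k J r) (hD : Std ε δ ν t r G)
    (hs : Λ * (r * 2 ^ (r + 1)) * ε ≤ κ / 8)
    (w : Fin p → List (Letter n m Y))
    (T : Fin q → List (Gate n p Y)) (hw : ∀ i, ∀ l ∈ w i, l.Ok t r G)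
    (hr : ∀ i, (w i).length ≤ r) {L d N Γ : ℝ} (hN0 : 0 ≤ N) (hT : ∀ j, COk t G L d N (T j))
    (hgr : Grd ((r * 2 ^ (r + 1)) * (ν + 2 / Real.sqrt (2 ^ k))) β L d Γ n r)
    (hR : (2 : ℝ) ^ (α * n) ≤ R ^ 2)
    (hN : Nets A Λ ρ σ r Ic Is cell bx ns) {η : ℝ} (hη : 0 < η) (S : Finset (Cube n))
    (hS : ∀ z ∈ S, ¬ GoodX α κ Λ δ η r A G w T z) :
    (S.card : ℝ) ≤ (Ic.card * Is.card : ℝ) *
      (4 * (β * (MR p r * (R * geo κ Λ ρ σ r J + 1))) ^ 2 / η ^ 2) +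
      ((q + 1) * (Ic.card * Is.card) : ℝ) *
      (4 * (β * (AXc p r Γ (L + d) N * (R * geo κ Λ ρ σ r J + 1))) ^ 2 / η ^ 2) +
      (((Ic.card * Is.card) * ((q + 1) * (Ic.card * Is.card)) : ℝ)) *
      (4 * (β * (MR p r * ((R + (κ / 4)⁻¹ * (Γ *
        (R * geo κ Λ ρ σ r J + 1))) * geo κ Λ ρ σ r J + 1))) ^ 2 / η ^ 2) := by
  classical
  obtain ⟨P0, hP0⟩ : ∃ P0 : Cube n → Prop, ∀ z, P0 z ↔
      ∃ (a : Fin p → ℝ) (e : ℝ) (v : Sp n Y), a ∈ A ∧ ∑ i, |a i| ≤ Λ ∧ ‖v‖ = 1 ∧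
      lin (Ham Letter.av w a) v = (e : ℂ) • v ∧ Few α κ e (Ham Letter.av w a) ∧
      η < NR G δ w z v := ⟨_, fun _ => Iff.rfl⟩
  obtain ⟨P1, hP1⟩ : ∃ P1 : Cube n → Prop, ∀ z, P1 z ↔
      ∃ (a : Fin p → ℝ) (e f : ℝ) (φ : Sp n Y) (o : Option (Fin q)),
      (a ∈ A ∧ ∑ i, |a i| ≤ Λ ∧ ‖φ‖ = 1 ∧
      lin (Ham (Letter.flt G δ z) w a) φ = (f : ℂ) • φ ∧
      Few α (κ / 2) e (Ham Letter.av w a) ∧ |f - e| ≤ κ / 8) ∧
      η < NX G δ r w z (Tw T o) φ := ⟨_, fun _ => Iff.rfl⟩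
  have h0 := count0 hC hD w hw hr hR hN hη (S.filter P0) (fun z hz => by
    rw [mem_filter] at hz
    exact (hP0 z).1 hz.2)
  have h1 := count1 hC hD hs w T hw hr hN0 hT hgr hR hN hη
    ((S.filter fun z => ¬ P0 z).filter P1) (fun z hz => by
      rw [mem_filter] at hz
      exact (hP1 z).1 hz.2)
  have h2 := count2 hC hD hs w T hw hr hN0 hT hgr hR hN hη
    ((S.filter fun z => ¬ P0 z).filter fun z => ¬ P1 z) (fun z hz => by
      rw [mem_filter, mem_filter] at hz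
      by_contra hno
      refine hS z hz.1.1 ⟨fun a e v hm ha hv he hf => ?_,
        fun a e f φ hm ha hφ hf hfew hef o => ?_,
        fun a e f φ hm ha hφ hf hfew hef o a' e' d v hm' ha' hfew' he' hd0 hd1 hv heq => ?_⟩
      · by_contra hlt
        exact hz.1.2 ((hP0 z).2 ⟨a, e, v, hm, ha, hv, he, hf, not_le.1 hlt⟩)
      · by_contra hlt
        exact hz.2 ((hP1 z).2 ⟨a, e, f, φ, o, ⟨hm, ha, hφ, hf, hfew, hef⟩, not_le.1 hlt⟩)
      · by_contra hlt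
        exact hno ⟨a, e, f, φ, o, a', e', d, v, ⟨hm, ha, hφ, hf, hfew, hef⟩,
          ⟨hm', ha', hfew', he', hd0, hd1, hv, heq⟩, not_le.1 hlt⟩)
  have h3 := card_filter_add_card_filter_not (s := S) P0
  have h3' := card_filter_add_card_filter_not (s := S.filter fun z => ¬ P0 z) P1
  have h4 : (S.card : ℝ) = ((S.filter P0).card : ℝ) +
      (((S.filter fun z => ¬ P0 z).filter P1).card : ℝ) +
      (((S.filter fun z => ¬ P0 z).filter fun z => ¬ P1 z).card : ℝ) := by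
    rw [add_assoc]
    have h5 : (((S.filter fun z => ¬ P0 z).filter P1).card : ℝ) +
      (((S.filter fun z => ¬ P0 z).filter fun z => ¬ P1 z).card : ℝ) =
      ((S.filter fun z => ¬ P0 z).card : ℝ) := by exact_mod_cast h3'
    rw [h5]
    exact_mod_cast h3.symm
  rw [h4]
  exact add_le_add (add_le_add h0 h1) h2

end Pool.Agent.H73.AY
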