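import Pool.Agent.H73.AZ.HamX

/-! The Hamiltonians of the whole formula: the cost is the cost of `G`. -/

namespace Pool.Agent.H73.AY

open Finset Matrix Pool.Agent.H73.QA Pool.Agent.H73.AD Pool.Agent.H73.AZ

set_option linter.unusedSectionVars false

variable {n k m p q : ℕ} {Y : Type} [Fintype Y] [DecidableEq Y] {r : ℕ}
variable {G : Fin m → Clause n k} {ε δ ν t β : ℝ}

/-- letters for the whole formula `G` -/
noncomputable def bas (G : Fin m → Clause n k) : Letter n m Y → Op n Y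
  | .fix D => D
  | .cost => diagonal fun x => ((2 ^ k / m * viol G x.1 : ℝ) : ℂ)
  | .cls h => ∑ j, h j
  | .pen h => ∑ j, h j
  | .orc D _ => D

theorem adj_bas (G : Fin m → Clause n k) (l : Letter n m Y) : bas G l.adj = (bas G l)ᴴ := by
  cases l with
  | fix D => rfl
  | cost =>
    show (diagonal fun x : Cube n × Y => ((2 ^ k / m * viol G x.1 : ℝ) : ℂ)) =
      (diagonal fun x : Cube n × Y => ((2 ^ k / m * viol G x.1 : ℝ) : ℂ))ᴴ
    rw [diagonal_conjTranspose]
    congr 1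
    funext x
    simp only [Pi.star_apply]
    exact (Complex.conj_ofReal _).symm
  | cls h => show ∑ j, (h j)ᴴ = (∑ j, h j)ᴴ; rw [conjTranspose_sum]
  | pen h => show ∑ j, (h j)ᴴ = (∑ j, h j)ᴴ; rw [conjTranspose_sum]
  | orc D X => rfl

theorem norm_bas_le (hS : Std ε δ ν t r G) {l : Letter n m Y} (hl : l.Ok t r G)
    (u : Sp n Y) : ‖lin (bas G l) u‖ ≤ 2 * ‖u‖ := by
  have hm' : (0 : ℝ) < m := by exact_mod_cast hS.hm
  cases l with
  | fix D =>
    have h1 := norm_lin_of_bdd zero_le_one hl u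
    have h2 := norm_nonneg u
    show ‖lin D u‖ ≤ 2 * ‖u‖
    linarith
  | cost =>
    show ‖lin (diagonal fun x : Cube n × Y => ((2 ^ k / m * viol G x.1 : ℝ) : ℂ)) u‖ ≤ _
    have h0 : lin (diagonal fun x : Cube n × Y => ((2 ^ k / m * viol G x.1 : ℝ) : ℂ)) =
        dg (fun x => ((2 ^ k / m * viol G x : ℝ) : ℂ)) :=
      AW.lin_diag (fun x => ((2 ^ k / m * viol G x : ℝ) : ℂ))
    rw [h0]
    refine norm_dg_le zero_le_two (fun x => ?_) u
    rw [Complex.norm_real, Real.norm_eq_abs, abs_of_nonneg (by positivity)]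
    calc (2 : ℝ) ^ k / m * viol G x ≤ 2 ^ k / m * (2 * (m / 2 ^ k)) :=
          mul_le_mul_of_nonneg_left (AW.Typ.viol_le hS.ε1 hS.hG x) (by positivity)
      _ = 2 := by field_simp
  | cls h =>
    have h1 := norm_lin_of_bdd zero_le_one hl.1 u
    have h2 := norm_nonneg u
    show ‖lin (∑ j, h j) u‖ ≤ 2 * ‖u‖
    linarith
  | pen h =>
    have h1 := norm_lin_of_bdd zero_le_one hl.1 u
    have h2 := norm_nonneg u
    show ‖lin (∑ j, h j) u‖ ≤ 2 * ‖u‖
    linarith
  | orc D X =>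
    have h1 := norm_lin_of_bdd zero_le_one hl.1 u
    have h2 := norm_nonneg u
    show ‖lin D u‖ ≤ 2 * ‖u‖
    linarith

theorem bas_flt_le (hS : Std ε δ ν t r G) (z : Cube n) {l : Letter n m Y} (hl : l.Ok t r G)
    (u : Sp n Y) :
    ‖lin (bas G l) u - lin (l.flt G δ z) u‖ ≤ (ν + 2 / Real.sqrt (2 ^ k)) * ‖u‖ := by
  have hm' : (0 : ℝ) < m := by exact_mod_cast hS.hm
  have hs : 0 ≤ 2 / Real.sqrt (2 ^ k) := by positivity
  have h0' := hS.ν0
  cases l with
  | fix D =>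
    show ‖lin D u - lin D u‖ ≤ _
    rw [sub_self, norm_zero]
    positivity
  | cost =>
    have h0 : lin (bas G (Letter.cost : Letter n m Y)) u -
        lin (Letter.flt G δ z (Letter.cost : Letter n m Y)) u =
        dg (fun x => if x ∈ hball δ z then 0 else ((2 ^ k / m * Wn G z x : ℝ) : ℂ)) u := by
      show lin (diagonal fun x : Cube n × Y => ((2 ^ k / m * viol G x.1 : ℝ) : ℂ)) u -
        lin (diagonal fun x : Cube n × Y => ((2 ^ k / m *
          (viol G x.1 - if x.1 ∈ hball δ z then 0 else (Wn G z x.1 : ℝ)) : ℝ) : ℂ)) u = _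
      have h1 : lin (diagonal fun x : Cube n × Y => ((2 ^ k / m * viol G x.1 : ℝ) : ℂ)) =
          dg (fun x => ((2 ^ k / m * viol G x : ℝ) : ℂ)) :=
        AW.lin_diag (fun x => ((2 ^ k / m * viol G x : ℝ) : ℂ))
      have h2 : lin (diagonal fun x : Cube n × Y => ((2 ^ k / m *
          (viol G x.1 - if x.1 ∈ hball δ z then 0 else (Wn G z x.1 : ℝ)) : ℝ) : ℂ)) =
          dg (fun x => ((2 ^ k / m *
            (viol G x - if x ∈ hball δ z then 0 else (Wn G z x : ℝ)) : ℝ) : ℂ)) :=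
        AW.lin_diag (fun x => ((2 ^ k / m *
          (viol G x - if x ∈ hball δ z then 0 else (Wn G z x : ℝ)) : ℝ) : ℂ))
      rw [h1, h2]
      ext x
      simp only [PiLp.sub_apply, dg_apply]
      by_cases hx : x.1 ∈ hball δ z
      · simp only [hx, if_true]
        push_cast
        ring
      · simp only [hx, if_false]
        push_cast
        ring
    rw [h0]
    have h3 : ‖dg (Y := Y) (fun x => if x ∈ hball δ z then 0 else
        ((2 ^ k / m * Wn G z x : ℝ) : ℂ)) u‖ ≤ ν * ‖u‖ := by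
      refine norm_dg_le hS.ν0 (fun x => ?_) u
      by_cases hx : x ∈ hball δ z
      · simp only [hx, if_true, norm_zero]
        exact hS.ν0
      · simp only [hx, if_false]
        rw [Complex.norm_real, Real.norm_eq_abs, abs_of_nonneg (by positivity)]
        calc (2 : ℝ) ^ k / m * Wn G z x ≤ 2 ^ k / m * (ν * (m / 2 ^ k)) :=
              mul_le_mul_of_nonneg_left (hS.hG.t2 z x hx) (by positivity)
          _ = ν := by field_simp
    exact h3.trans (mul_le_mul_of_nonneg_right (by linarith) (norm_nonneg _))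
  | cls h =>
    have h0 : lin (Letter.flt G δ z (.cls h)) = AW.lin (AW.Letter.op G z (.cls h)) := rfl
    rw [h0, AW.cls_eq]
    show ‖lin (∑ j, h j) u - _‖ ≤ _
    rw [LinearMap.sub_apply]
    have h1 : lin (∑ j, h j) u - (AW.lin (∑ j, h j) u -
        vterm G (fun _ : Fin 1 => h) z 0 u) = vterm G (fun _ : Fin 1 => h) z 0 u := by
      show lin (∑ j, h j) u - (lin (∑ j, h j) u - _) = _
      rw [sub_sub_cancel]
    rw [h1]
    have h3 := norm_vterm hS.hm G (fun _ : Fin 1 => h) (fun _ j => hl.2 j)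
      (fun x => AW.Typ.viol_le hS.ε1 hS.hG x) z 0 u
    refine h3.trans (mul_le_mul_of_nonneg_right (by linarith) (norm_nonneg _))
  | pen h =>
    rw [flt_pen_apply]
    show ‖lin (∑ j, h j) u - _‖ ≤ _
    rw [sub_sub_cancel]
    refine (norm_far_vio hS.hm hS.hR hS.ν0 (penOk_of hl) z u).trans
      (mul_le_mul_of_nonneg_right (by linarith) (norm_nonneg _))
  | orc D X =>
    show ‖lin D u - lin D u‖ ≤ _
    rw [sub_self, norm_zero]
    positivity

theorem norm_wd_bas (hS : Std ε δ ν t r G) (w : List (Letter n m Y))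
    (hw : ∀ l ∈ w, l.Ok t r G) (u : Sp n Y) :
    ‖lin (wd (bas G) w) u‖ ≤ 2 ^ w.length * ‖u‖ :=
  norm_wd zero_le_two w (fun l hl u => norm_bas_le hS (hw l hl) u) u

theorem wd_bas_flt (hS : Std ε δ ν t r G) (z : Cube n) (w : List (Letter n m Y))
    (hw : ∀ l ∈ w, l.Ok t r G) (u : Sp n Y) :
    ‖lin (wd (bas G) w) u - lin (wd (Letter.flt G δ z) w) u‖ ≤
      w.length * 2 ^ w.length * (ν + 2 / Real.sqrt (2 ^ k)) * ‖u‖ := by
  obtain ⟨σ, hσ⟩ : ∃ σ, σ = ν + 2 / Real.sqrt (2 ^ k) := ⟨_, rfl⟩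
  have hν := hS.ν0
  have hσ0 : 0 ≤ σ := by rw [hσ]; positivity
  rw [← hσ]
  induction w with
  | nil => rw [lin_wd_nil, lin_wd_nil]; simp
  | cons l w ih =>
    have hl : l.Ok t r G := hw l (by simp)
    have hw' : ∀ l ∈ w, l.Ok t r G := fun l hl => hw l (by simp [hl])
    rw [lin_wd_cons, lin_wd_cons]
    have h1 : lin (bas G l) (lin (wd (bas G) w) u) -
        lin (l.flt G δ z) (lin (wd (Letter.flt G δ z) w) u) =
        lin (bas G l) (lin (wd (bas G) w) u - lin (wd (Letter.flt G δ z) w) u) +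
        (lin (bas G l) (lin (wd (Letter.flt G δ z) w) u) -
          lin (l.flt G δ z) (lin (wd (Letter.flt G δ z) w) u)) := by
      rw [map_sub]; abel
    rw [h1]
    refine (norm_add_le _ _).trans ?_
    have h2 := norm_bas_le hS hl (lin (wd (bas G) w) u - lin (wd (Letter.flt G δ z) w) u)
    have h2' := ih hw'
    have h3 := bas_flt_le hS z hl (lin (wd (Letter.flt G δ z) w) u)
    rw [← hσ] at h3
    have h4 := norm_wd_flt hS z w hw' u
    have h5 : σ * ‖lin (wd (Letter.flt G δ z) w) u‖ ≤ σ * (2 ^ w.length * ‖u‖) :=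
      mul_le_mul_of_nonneg_left h4 hσ0
    have h6 : (0 : ℝ) ≤ 2 ^ w.length * σ * ‖u‖ := by positivity
    rw [List.length_cons, pow_succ]
    push_cast
    have h7 : (0 : ℝ) ≤ w.length * (2 ^ w.length * σ * ‖u‖) := by positivity
    nlinarith

theorem norm_sw_bas (hS : Std ε δ ν t r G) {w : List (Letter n m Y)}
    (hw : ∀ l ∈ w, l.Ok t r G) (hr : w.length ≤ r) (u : Sp n Y) :
    ‖sw (bas G) w u‖ ≤ 2 ^ (r + 1) * ‖u‖ := by
  have h1 := norm_wd_bas hS w hw u
  have h2 := norm_wd_bas hS (adjW w) (adjW_ok hw) u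
  rw [adjW_length] at h2
  have h3 := norm_add_le (lin (wd (bas G) w) u) (lin (wd (bas G) (adjW w)) u)
  have h4 := mul_le_mul_of_nonneg_right (pow_len_le hr (one_le_two (α := ℝ))) (norm_nonneg u)
  show ‖lin (wd (bas G) w) u + lin (wd (bas G) (adjW w)) u‖ ≤ _
  rw [pow_succ]
  linarith

theorem norm_ham_bas {Λ : ℝ} (hS : Std ε δ ν t r G) (w : Fin p → List (Letter n m Y))
    (hw : ∀ i, ∀ l ∈ w i, l.Ok t r G) (hr : ∀ i, (w i).length ≤ r) (a : Fin p → ℝ)
    (ha : ∑ i, |a i| ≤ Λ) (u : Sp n Y) :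
    ‖lin (Ham (bas G) w a) u‖ ≤ Λ * (2 ^ (r + 1) * ‖u‖) := by
  rw [lin_ham (adj_bas G), LinearMap.sum_apply]
  exact norm_comb_le ha (by positivity) _ fun i => norm_sw_bas hS (hw i) (hr i) u

theorem norm_sw_bdiff (hS : Std ε δ ν t r G) (z : Cube n) {w : List (Letter n m Y)}
    (hw : ∀ l ∈ w, l.Ok t r G) (hr : w.length ≤ r) (u : Sp n Y) :
    ‖(sw (bas G) w - sw (Letter.flt G δ z) w) u‖ ≤
      (r * 2 ^ (r + 1)) * (ν + 2 / Real.sqrt (2 ^ k)) * ‖u‖ := by
  have hν := hS.ν0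
  have h1 := wd_bas_flt hS z w hw u
  have h2 := wd_bas_flt hS z (adjW w) (adjW_ok hw) u
  rw [adjW_length] at h2
  have h3 : (sw (bas G) w - sw (Letter.flt G δ z) w) u =
      (lin (wd (bas G) w) u - lin (wd (Letter.flt G δ z) w) u) +
      (lin (wd (bas G) (adjW w)) u - lin (wd (Letter.flt G δ z) (adjW w)) u) := by
    show (lin (wd (bas G) w) u + lin (wd (bas G) (adjW w)) u) -
      (lin (wd (Letter.flt G δ z) w) u + lin (wd (Letter.flt G δ z) (adjW w)) u) = _
    abel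
  rw [h3]
  refine (norm_add_le _ _).trans ?_
  have h4 : (w.length : ℝ) * 2 ^ w.length ≤ r * 2 ^ r := by
    have h5 : (w.length : ℝ) ≤ r := by exact_mod_cast hr
    exact mul_le_mul h5 (pow_len_le hr one_le_two) (by positivity) (by positivity)
  have h6 : (w.length : ℝ) * 2 ^ w.length * (ν + 2 / Real.sqrt (2 ^ k)) * ‖u‖ ≤
      r * 2 ^ r * (ν + 2 / Real.sqrt (2 ^ k)) * ‖u‖ :=
    mul_le_mul_of_nonneg_right (mul_le_mul_of_nonneg_right h4 (by positivity)) (norm_nonneg _)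
  rw [pow_succ]
  linarith

/-- whole formula versus flattened Hamiltonian -/
theorem ham_bas_flt {Λ : ℝ} (hS : Std ε δ ν t r G) (z : Cube n)
    (w : Fin p → List (Letter n m Y))
    (hw : ∀ i, ∀ l ∈ w i, l.Ok t r G) (hr : ∀ i, (w i).length ≤ r) (a : Fin p → ℝ)
    (ha : ∑ i, |a i| ≤ Λ) (u : Sp n Y) :
    ‖lin (Ham (bas G) w a) u - lin (Ham (Letter.flt G δ z) w a) u‖ ≤
      Λ * (r * 2 ^ (r + 1)) * (ν + 2 / Real.sqrt (2 ^ k)) * ‖u‖ := by
  have hν := hS.ν0
  rw [lin_ham (adj_bas G), lin_ham (adj_flt G δ z), LinearMap.sum_apply, LinearMap.sum_apply,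
    ← sum_sub_distrib]
  have h1 : ∀ i, ((a i : ℂ) • sw (bas G) (w i)) u - ((a i : ℂ) • sw (Letter.flt G δ z) (w i)) u =
      (a i : ℂ) • (sw (bas G) (w i) - sw (Letter.flt G δ z) (w i)) u := by
    intro i
    rw [LinearMap.smul_apply, LinearMap.smul_apply, LinearMap.sub_apply, smul_sub]
  simp only [h1]
  rw [mul_assoc, mul_assoc, ← mul_assoc ((r : ℝ) * 2 ^ (r + 1))]
  exact norm_comb_le ha (by positivity) _ fun i =>
    norm_sw_bdiff hS z (hw i) (hr i) u

end Pool.Agent.H73.AY
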