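import Pool.Agent.H73.AY.Flat
import Pool.Agent.H73.AZ.Circ

/-! Circuits. -/

namespace Pool.Agent.H73.AY

open Finset Matrix Pool.Agent.H73.QA Pool.Agent.H73.AD Pool.Agent.H73.AZ

set_option linter.unusedSectionVars false

variable {n k m p q : ℕ} {Y : Type} [Fintype Y] [DecidableEq Y] {r : ℕ}
variable {G : Fin m → Clause n k} {ε δ ν t β : ℝ}

theorem ER_nonneg (G : Fin m → Clause n k) (δ : ℝ) (r : ℕ) (w : Fin p → List (Letter n m Y))
    (z : Cube n) (C : List (Gate n p Y)) (u : Sp n Y) : 0 ≤ ER G δ r w z C u := by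
  induction C with
  | nil => exact le_refl (0 : ℝ)
  | cons c C ih =>
    cases c with
    | fix D => exact ih
    | orc D X =>
      show 0 ≤ ER G δ r w z C u + 2 * NR G δ w z (lin (circF G δ w z C) u)
      have := NR_nonneg G δ w z (lin (circF G δ w z C) u)
      linarith
    | ev a b =>
      show 0 ≤ ER G δ r w z C u + _
      refine add_nonneg ih (mul_nonneg ?_ ?_)
      · have : 0 ≤ ∑ i, |a i + b i z| := sum_nonneg fun _ _ => abs_nonneg _
        positivity
      · exact intervalIntegral.integral_nonneg zero_le_one fun s _ => NR_nonneg _ _ _ _ _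

theorem lin_circ_nil (f : Letter n m Y → Op n Y) (w : Fin p → List (Letter n m Y)) (z : Cube n)
    (u : Sp n Y) : lin (circ f w z ([] : List (Gate n p Y))) u = u := by
  unfold circ
  rw [List.map_nil, List.prod_nil, lin_one]
  rfl

theorem lin_circ_cons (f : Letter n m Y → Op n Y) (w : Fin p → List (Letter n m Y)) (z : Cube n)
    (c : Gate n p Y) (C : List (Gate n p Y)) (u : Sp n Y) :
    lin (circ f w z (c :: C)) u = lin (c.op f w z) (lin (circ f w z C) u) := by
  unfold circ
  rw [List.map_cons, List.prod_cons, lin_mul]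
  rfl

theorem lin_circF_nil (G : Fin m → Clause n k) (δ : ℝ) (w : Fin p → List (Letter n m Y))
    (z : Cube n) (u : Sp n Y) : lin (circF G δ w z ([] : List (Gate n p Y))) u = u := by
  unfold circF
  rw [List.map_nil, List.prod_nil, lin_one]
  rfl

theorem lin_circF_cons (G : Fin m → Clause n k) (δ : ℝ) (w : Fin p → List (Letter n m Y))
    (z : Cube n) (c : Gate n p Y) (C : List (Gate n p Y)) (u : Sp n Y) :
    lin (circF G δ w z (c :: C)) u = lin (c.opF G δ w z) (lin (circF G δ w z C) u) := by
  unfold circF
  rw [List.map_cons, List.prod_cons, lin_mul]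
  rfl

theorem norm_gate (f : Letter n m Y → Op n Y) (w : Fin p → List (Letter n m Y)) (z : Cube n)
    {c : Gate n p Y} (hc : c.Ok t G) (u : Sp n Y) : ‖lin (c.op f w z) u‖ ≤ ‖u‖ := by
  cases c with
  | fix D =>
    have h := norm_lin_of_bdd zero_le_one hc u
    rwa [one_mul] at h
  | orc D X =>
    have h := norm_lin_of_bdd zero_le_one (hc.2 z).1 u
    rwa [one_mul] at h
  | ev a b => exact (norm_exp_one (ham_herm f w fun i => a i + b i z) u).le

theorem norm_gateF (δ : ℝ) (w : Fin p → List (Letter n m Y)) (z : Cube n)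
    {c : Gate n p Y} (hc : c.Ok t G) (u : Sp n Y) : ‖lin (c.opF G δ w z) u‖ ≤ ‖u‖ := by
  cases c with
  | fix D =>
    have h := norm_lin_of_bdd zero_le_one hc u
    rwa [one_mul] at h
  | orc D X =>
    have h := norm_lin_of_bdd zero_le_one hc.1 u
    rwa [one_mul] at h
  | ev a b =>
    exact (norm_exp_one (ham_herm (Letter.flt G δ z) w fun i => a i + b i z) u).le

theorem norm_circ (f : Letter n m Y → Op n Y) (w : Fin p → List (Letter n m Y)) (z : Cube n)
    (C : List (Gate n p Y)) (hC : ∀ c ∈ C, c.Ok t G) (u : Sp n Y) :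
    ‖lin (circ f w z C) u‖ ≤ ‖u‖ := by
  induction C with
  | nil => rw [lin_circ_nil]
  | cons c C ih =>
    rw [lin_circ_cons]
    exact (norm_gate f w z (hC c (by simp)) _).trans (ih fun c' hc' => hC c' (by simp [hc']))

theorem norm_circF (δ : ℝ) (w : Fin p → List (Letter n m Y)) (z : Cube n)
    (C : List (Gate n p Y)) (hC : ∀ c ∈ C, c.Ok t G) (u : Sp n Y) :
    ‖lin (circF G δ w z C) u‖ ≤ ‖u‖ := by
  induction C with
  | nil => rw [lin_circF_nil]
  | cons c C ih =>
    rw [lin_circF_cons]
    exact (norm_gateF δ w z (hC c (by simp)) _).trans (ih fun c' hc' => hC c' (by simp [hc']))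

theorem circ_diff (hS : Std ε δ ν t r G) (z : Cube n) (w : Fin p → List (Letter n m Y))
    (hw : ∀ i, ∀ l ∈ w i, l.Ok t r G) (hr : ∀ i, (w i).length ≤ r) (C : List (Gate n p Y))
    (hC : ∀ c ∈ C, c.Ok t G) (u : Sp n Y) :
    ‖lin (circF G δ w z C) u - lin (circ (Letter.op G z) w z C) u‖ ≤
      ER G δ r w z C u := by
  induction C with
  | nil =>
    rw [lin_circ_nil, lin_circF_nil, sub_self, norm_zero]
    exact le_refl (0 : ℝ)
  | cons c C ih =>
    have ih' := ih fun c' hc' => hC c' (by simp [hc'])
    have hc := hC c (by simp)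
    rw [lin_circ_cons, lin_circF_cons]
    obtain ⟨v, hv⟩ : ∃ v, v = lin (circF G δ w z C) u := ⟨_, rfl⟩
    obtain ⟨v', hv'⟩ : ∃ v', v' = lin (circ (Letter.op G z) w z C) u := ⟨_, rfl⟩
    have h1 : lin (c.opF G δ w z) v - lin (c.op (Letter.op G z) w z) v' =
        (lin (c.opF G δ w z) v - lin (c.op (Letter.op G z) w z) v) +
          lin (c.op (Letter.op G z) w z) (v - v') := by
      rw [map_sub]
      abel
    have h2 : ‖lin (c.op (Letter.op G z) w z) (v - v')‖ ≤ ER G δ r w z C u := by
      rw [hv, hv']
      exact (norm_gate _ w z hc _).trans ih'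
    rw [← hv, ← hv', h1]
    refine (norm_add_le _ _).trans ?_
    cases c with
    | fix D =>
      have h3 : lin ((Gate.fix D : Gate n p Y).opF G δ w z) v -
          lin ((Gate.fix D : Gate n p Y).op (Letter.op G z) w z) v = 0 := sub_self _
      rw [h3, norm_zero, zero_add]
      exact h2
    | orc D X =>
      have h3 : ‖lin ((Gate.orc D X : Gate n p Y).opF G δ w z) v -
          lin ((Gate.orc D X : Gate n p Y).op (Letter.op G z) w z) v‖ ≤
          2 * NR G δ w z v := by
        refine (orc_diff hS.hm hS.hG hS.ht (r := r) hc z v).trans ?_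
        have := near_le_NR G δ w z v
        linarith
      show _ ≤ ER G δ r w z C u + 2 * NR G δ w z (lin (circF G δ w z C) u)
      rw [← hv, add_comm]
      exact add_le_add h2 h3
    | ev a b =>
      have h3 : ‖lin ((Gate.ev a b : Gate n p Y).opF G δ w z) v -
          lin ((Gate.ev a b : Gate n p Y).op (Letter.op G z) w z) v‖ ≤
          (∑ i, |a i + b i z|) * 4 ^ (r + 1) * ∫ s in (0 : ℝ)..1, NR G δ w z
            (lin (NormedSpace.exp ((-Complex.I * s) •
              Ham (Letter.flt G δ z) w fun i => a i + b i z)) v) := by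
        refine (exp_diff (ham_herm (Letter.op G z) w fun i => a i + b i z)
          (ham_herm (Letter.flt G δ z) w fun i => a i + b i z) v).trans ?_
        rw [← intervalIntegral.integral_const_mul]
        have hcont := continuous_exp (Ham (Letter.flt G δ z) w fun i => a i + b i z) v
        refine intervalIntegral.integral_mono_on zero_le_one ?_ ?_ fun s _ => ?_
        · exact (continuous_norm.comp ((lin (Ham (Letter.flt G δ z) w (fun i => a i + b i z) -
            Ham (Letter.op G z) w fun i => a i + b i z)).continuous_of_finiteDimensional.comp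
              hcont)).intervalIntegrable _ _
        · exact (continuous_const.mul ((continuous_NR G δ w z).comp
            hcont)).intervalIntegrable _ _
        · have h4 := ham_diffX hS z w hw hr (fun i => a i + b i z)
            (lin (NormedSpace.exp ((-Complex.I * s) •
              Ham (Letter.flt G δ z) w fun i => a i + b i z)) v)
          rw [lin_sub]
          exact h4
      show _ ≤ ER G δ r w z C u + (∑ i, |a i + b i z|) * 4 ^ (r + 1) *
        ∫ s in (0 : ℝ)..1, NR G δ w z (lin (NormedSpace.exp ((-Complex.I * s) •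
          Ham (Letter.flt G δ z) w fun i => a i + b i z)) (lin (circF G δ w z C) u))
      rw [← hv, add_comm]
      exact add_le_add h2 h3

end Pool.Agent.H73.AY
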