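import Pool.Agent.H27.AX.Plus
import Pool.Agent.H73.AZ.Let

/-! Differences of exponentials of good operators. -/

namespace Pool.Agent.H73.AY

open Finset Matrix Pool.Agent.H73.QA Pool.Agent.H73.AD Pool.Agent.H73.AZ
open Pool.Agent.H73.AX (GoodP GoodOpP)

variable {n : ℕ} {Y : Type} [Fintype Y] [DecidableEq Y] {Z : Type} [Fintype Z] {β : ℝ}

theorem good_pow_sub {K K0 : ℝ} (A B : Z → Op n Y) (hA : GoodOp β K fun z => lin (A z))
    (hB : GoodOp β K fun z => lin (B z)) (hAB : GoodOp β K0 fun z => lin (A z) - lin (B z))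
    {c : ℝ} {v : Z → Sp n Y} (hv : Good β c v) (j : ℕ) :
    Good β ((j + 1) * K0 * K ^ j * c) fun z =>
      lin (A z ^ (j + 1)) (v z) - lin (B z ^ (j + 1)) (v z) := by
  induction j with
  | zero =>
    have h1 := hAB.2 c v hv
    have h2 : (fun z => lin (A z ^ (0 + 1)) (v z) - lin (B z ^ (0 + 1)) (v z)) =
        fun z => (lin (A z) - lin (B z)) (v z) := by
      funext z
      rw [zero_add, pow_one, pow_one]
      rfl
    rw [h2]
    simpa using h1
  | succ j ih =>
    have h1 := hA.2 _ _ ih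
    have h2 := hAB.2 _ _ (AX.good_pow B hB hv (j + 1))
    have h3 : Good β (K * ((j + 1) * K0 * K ^ j * c) + K0 * (K ^ (j + 1) * c)) (fun z =>
        lin (A z) (lin (A z ^ (j + 1)) (v z) - lin (B z ^ (j + 1)) (v z)) +
        (lin (A z) - lin (B z)) (lin (B z ^ (j + 1)) (v z))) := h1.add h2
    have h4 : (fun z => lin (A z) (lin (A z ^ (j + 1)) (v z) - lin (B z ^ (j + 1)) (v z)) +
        (lin (A z) - lin (B z)) (lin (B z ^ (j + 1)) (v z))) =
        fun z => lin (A z ^ (j + 1 + 1)) (v z) - lin (B z ^ (j + 1 + 1)) (v z) := by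
      funext z
      rw [pow_succ' (A z) (j + 1), pow_succ' (B z) (j + 1), lin_mul, lin_mul, map_sub]
      show lin (A z) _ - lin (A z) _ + (lin (A z) _ - lin (B z) _) =
        lin (A z) _ - lin (B z) _
      abel
    rw [h4] at h3
    have h5 : (((j + 1 : ℕ) : ℝ) + 1) * K0 * K ^ (j + 1) * c =
        K * ((j + 1) * K0 * K ^ j * c) + K0 * (K ^ (j + 1) * c) := by
      push_cast
      ring
    rw [h5]
    exact h3

theorem good_partial_sub {K K0 : ℝ} (hβ : 0 ≤ β) (A B : Z → Op n Y)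
    (hA : GoodOp β K fun z => lin (A z)) (hB : GoodOp β K fun z => lin (B z))
    (hAB : GoodOp β K0 fun z => lin (A z) - lin (B z)) {c : ℝ} {v : Z → Sp n Y}
    (hv : Good β c v) (J : ℕ) :
    Good β (K0 * Real.exp K * c) fun z => ∑ j ∈ range (J + 1),
      ((Nat.factorial j : ℂ)⁻¹ * (-Complex.I) ^ j) •
        (lin (A z ^ j) (v z) - lin (B z ^ j) (v z)) := by
  have h0 : (fun z => ∑ j ∈ range (J + 1), ((Nat.factorial j : ℂ)⁻¹ * (-Complex.I) ^ j) •
        (lin (A z ^ j) (v z) - lin (B z ^ j) (v z))) = fun z => ∑ j ∈ range J,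
      ((Nat.factorial (j + 1) : ℂ)⁻¹ * (-Complex.I) ^ (j + 1)) •
        (lin (A z ^ (j + 1)) (v z) - lin (B z ^ (j + 1)) (v z)) := by
    funext z
    rw [sum_range_succ', pow_zero (A z), pow_zero (B z), sub_self, smul_zero, add_zero]
  rw [h0]
  have h1 : Good β (∑ j ∈ range J, (Nat.factorial (j + 1) : ℝ)⁻¹ *
      ((j + 1) * K0 * K ^ j * c)) fun z => ∑ j ∈ range J,
      ((Nat.factorial (j + 1) : ℂ)⁻¹ * (-Complex.I) ^ (j + 1)) •
        (lin (A z ^ (j + 1)) (v z) - lin (B z ^ (j + 1)) (v z)) := by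
    refine Good.sum hβ _ fun j _ => ?_
    have h2 := goodOp_scalar (β := β) (E := Sp n Y) (Z := Z)
      (a := (Nat.factorial (j + 1) : ℝ)⁻¹) (by positivity)
      (fun _ => (Nat.factorial (j + 1) : ℂ)⁻¹ * (-Complex.I) ^ (j + 1)) (fun _ => by
        rw [norm_mul, norm_inv, norm_pow, norm_neg, Complex.norm_I, one_pow, mul_one,
          Complex.norm_natCast])
    have h3 := h2.2 _ _ (good_pow_sub A B hA hB hAB hv j)
    simpa using h3
  refine h1.mono hβ ?_
  have h2 : ∑ j ∈ range J, (Nat.factorial (j + 1) : ℝ)⁻¹ * ((j + 1) * K0 * K ^ j * c) =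
      K0 * (∑ j ∈ range J, K ^ j / (Nat.factorial j : ℝ)) * c := by
    rw [mul_sum, sum_mul]
    refine sum_congr rfl fun j _ => ?_
    rw [Nat.factorial_succ]
    push_cast
    have h4 : ((j : ℝ) + 1) ≠ 0 := by positivity
    have h5 : (Nat.factorial j : ℝ) ≠ 0 := by positivity
    field_simp
  rw [h2]
  exact mul_le_mul_of_nonneg_right (mul_le_mul_of_nonneg_left
    (Real.sum_le_exp_of_nonneg hA.1 J) hAB.1) hv.nonneg

theorem goodOpP_exp_sub {K K0 : ℝ} (hβ : 0 < β) (A B : Z → Op n Y)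
    (hA : GoodOp β K fun z => lin (A z)) (hB : GoodOp β K fun z => lin (B z))
    (hAB : GoodOp β K0 fun z => lin (A z) - lin (B z)) :
    GoodOpP β (K0 * Real.exp K) fun z => lin (NormedSpace.exp ((-Complex.I) • A z)) -
      lin (NormedSpace.exp ((-Complex.I) • B z)) := by
  have hK := Real.exp_pos K
  obtain ⟨D, hD⟩ : ∃ D, D = K0 * Real.exp K := ⟨_, rfl⟩
  have hD0 : 0 ≤ D := by rw [hD]; exact mul_nonneg hAB.1 hK.le
  rw [← hD]
  refine ⟨hD0, fun c v hc hv c' hc' => ?_⟩
  obtain ⟨c'', hc''⟩ : ∃ c'' : ℝ, c'' = c + (c' - D * c) / (2 * (D + 1)) := ⟨_, rfl⟩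
  have h1 : 0 < (c' - D * c) / (2 * (D + 1)) := div_pos (sub_pos.2 hc') (by positivity)
  have h2 : c < c'' := by linarith
  have h3 : D * c'' < c' := by
    have h4 : (D + 1) * ((c' - D * c) / (2 * (D + 1))) = (c' - D * c) / 2 := by
      field_simp
    have h5 : D * ((c' - D * c) / (2 * (D + 1))) ≤ (c' - D * c) / 2 := by
      rw [← h4]
      exact mul_le_mul_of_nonneg_right (by linarith) h1.le
    rw [hc'', mul_add]
    linarith
  have h5 := hv c'' h2
  obtain ⟨R, hR⟩ : ∃ R : ℕ → Z → Sp n Y, R = fun J z =>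
      (lin (NormedSpace.exp ((-Complex.I) • A z)) - lin (NormedSpace.exp ((-Complex.I) • B z)))
        (v z) - ∑ j ∈ range (J + 1),
        ((Nat.factorial j : ℂ)⁻¹ * (-Complex.I) ^ j) •
          (lin (A z ^ j) (v z) - lin (B z ^ j) (v z)) := ⟨_, rfl⟩
  have h6 : Filter.Tendsto (fun J => l2 (R J)) Filter.atTop (nhds 0) := by
    refine AX.l2_tendsto fun z => ?_
    have h7 := (AX.exp_tendsto (A z) (v z)).sub (AX.exp_tendsto (B z) (v z))
    have h8 := (h7.comp (Filter.tendsto_add_atTop_nat 1)).const_sub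
      (lin (NormedSpace.exp ((-Complex.I) • A z)) (v z) -
        lin (NormedSpace.exp ((-Complex.I) • B z)) (v z))
    have h9 : lin (NormedSpace.exp ((-Complex.I) • A z)) (v z) -
        lin (NormedSpace.exp ((-Complex.I) • B z)) (v z) -
        (AW.lin (NormedSpace.exp ((-Complex.I) • A z)) (v z) -
        AW.lin (NormedSpace.exp ((-Complex.I) • B z)) (v z)) = 0 := sub_self _
    rw [h9] at h8
    rw [hR]
    refine h8.congr fun J => ?_
    show _ - (∑ j ∈ range (J + 1), _ - ∑ j ∈ range (J + 1), _) = _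
    rw [← sum_sub_distrib]
    congr 1
    refine sum_congr rfl fun j _ => ?_
    rw [smul_sub]
    rfl
  have h8 : 0 < β * (c' - D * c'') := mul_pos hβ (sub_pos.2 h3)
  obtain ⟨J, hJ⟩ := (h6.eventually_lt_const h8).exists
  have h9 := (good_partial_sub hβ.le A B hA hB hAB h5 J).add
    (good_of_l2 (β := β) (c := c' - D * c'') (sub_pos.2 h3).le hJ.le)
  rw [← hD] at h9
  have h10 : D * c'' + (c' - D * c'') = c' := by ring
  rw [h10] at h9
  have h11 : (fun z => (∑ j ∈ range (J + 1),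
      ((Nat.factorial j : ℂ)⁻¹ * (-Complex.I) ^ j) •
        (lin (A z ^ j) (v z) - lin (B z ^ j) (v z))) + R J z) = fun z =>
      (lin (NormedSpace.exp ((-Complex.I) • A z)) - lin (NormedSpace.exp ((-Complex.I) • B z)))
        (v z) := by
    funext z
    rw [hR]
    show _ + (_ - _) = _
    abel
  rw [h11] at h9
  exact h9

open scoped Matrix.Norms.Operator in
theorem exp_split (A : Op n Y) (M : ℕ) (hM : 0 < M) :
    NormedSpace.exp ((-Complex.I) • A) =
      NormedSpace.exp ((-Complex.I) • ((1 / M : ℝ) : ℂ) • A) ^ M := by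
  rw [← Matrix.exp_nsmul]
  congr 1
  rw [← Nat.cast_smul_eq_nsmul ℂ, smul_smul, smul_smul]
  congr 1
  have h1 : (M : ℂ) ≠ 0 := by exact_mod_cast hM.ne'
  push_cast
  field_simp

end Pool.Agent.H73.AY
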