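import Pool.Agent.H73.AY.Stmt
import Pool.Agent.H73.AZ.Flat

/-! Flattened circuits and good assignments. -/

namespace Pool.Agent.H73.AY

open Finset Matrix Pool.Agent.H73.QA Pool.Agent.H73.AD Pool.Agent.H73.AZ

variable {n k m p q : ℕ} {Y : Type} [Fintype Y] [DecidableEq Y]

/-- flattened gates -/
noncomputable def Gate.opF (G : Fin m → Clause n k) (δ : ℝ) (w : Fin p → List (Letter n m Y))
    (z : Cube n) : Gate n p Y → Op n Y
  | .fix D => D
  | .orc D _ => D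
  | .ev a b => NormedSpace.exp ((-Complex.I) • Ham (Letter.flt G δ z) w fun i => a i + b i z)

/-- flattened circuits -/
noncomputable def circF (G : Fin m → Clause n k) (δ : ℝ) (w : Fin p → List (Letter n m Y))
    (z : Cube n) (C : List (Gate n p Y)) : Op n Y :=
  (C.map (Gate.opF G δ w z)).prod

/-- bound for the difference of the flattened and the actual circuit -/
noncomputable def ER (G : Fin m → Clause n k) (δ : ℝ) (r : ℕ) (w : Fin p → List (Letter n m Y))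
    (z : Cube n) : List (Gate n p Y) → Sp n Y → ℝ
  | [], _ => 0
  | .fix _ :: C, v => ER G δ r w z C v
  | .orc _ _ :: C, v => ER G δ r w z C v + 2 * NR G δ w z (lin (circF G δ w z C) v)
  | .ev a b :: C, v => ER G δ r w z C v + (∑ i, |a i + b i z|) * 4 ^ (r + 1) *
      ∫ s in (0 : ℝ)..1, NR G δ w z (lin (NormedSpace.exp ((-Complex.I * s) •
        Ham (Letter.flt G δ z) w fun i => a i + b i z)) (lin (circF G δ w z C) v))

/-- identity or one of the circuits -/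
def Tw (T : Fin q → List (Gate n p Y)) : Option (Fin q) → List (Gate n p Y)
  | none => []
  | some j => T j

/-- the functional of a circuit -/
noncomputable def NX (G : Fin m → Clause n k) (δ : ℝ) (r : ℕ) (w : Fin p → List (Letter n m Y))
    (z : Cube n) (C : List (Gate n p Y)) (v : Sp n Y) : ℝ :=
  NR G δ w z v + (ER G δ r w z C v + NR G δ w z (lin (circF G δ w z C) v))

/-- good assignments -/
structure GoodX (α κ Λ δ η : ℝ) (r : ℕ) (A : Set (Fin p → ℝ)) (G : Fin m → Clause n k)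
    (w : Fin p → List (Letter n m Y)) (T : Fin q → List (Gate n p Y)) (z : Cube n) : Prop where
  g0 : ∀ (a : Fin p → ℝ) (e : ℝ) (v : Sp n Y), a ∈ A → ∑ i, |a i| ≤ Λ → ‖v‖ = 1 →
    lin (Ham Letter.av w a) v = (e : ℂ) • v → Few α κ e (Ham Letter.av w a) →
    NR G δ w z v ≤ η
  g1 : ∀ (a : Fin p → ℝ) (e f : ℝ) (φ : Sp n Y), a ∈ A → ∑ i, |a i| ≤ Λ → ‖φ‖ = 1 →
    lin (Ham (Letter.flt G δ z) w a) φ = (f : ℂ) • φ → Few α (κ / 2) e (Ham Letter.av w a) →
    |f - e| ≤ κ / 8 → ∀ o : Option (Fin q), NX G δ r w z (Tw T o) φ ≤ η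
  g2 : ∀ (a : Fin p → ℝ) (e f : ℝ) (φ : Sp n Y), a ∈ A → ∑ i, |a i| ≤ Λ → ‖φ‖ = 1 →
    lin (Ham (Letter.flt G δ z) w a) φ = (f : ℂ) • φ → Few α (κ / 2) e (Ham Letter.av w a) →
    |f - e| ≤ κ / 8 →
    ∀ (o : Option (Fin q)) (a' : Fin p → ℝ) (e' d : ℝ) (v : Sp n Y), a' ∈ A → ∑ i, |a' i| ≤ Λ →
    Few α (κ / 2) e' (Ham Letter.av w a') → |e'| ≤ Λ * 2 ^ (r + 1) → 0 < d → d ≤ 1 → ‖v‖ ≤ 1 →
    lin (Ham (Letter.flt G δ z) w a') v - (e' : ℂ) • v =
      (d : ℂ) • lin (circF G δ w z (Tw T o)) φ → NR G δ w z v ≤ η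

end Pool.Agent.H73.AY
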