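import Pool.Agent.H73.AY.Steps

/-! The functionals of good families. -/

namespace Pool.Agent.H73.AY

open Finset Matrix Pool.Agent.H73.QA Pool.Agent.H73.AD Pool.Agent.H73.AZ
open Pool.Agent.H73.AX (GoodP GoodOpP near_goodP l2_integral_le)

set_option linter.unusedSectionVars false

variable {n k m p q : ℕ} {Y : Type} [Fintype Y] [DecidableEq Y] {r : ℕ}
variable {G : Fin m → Clause n k} {ε δ ν t β : ℝ}

/-- the costs of a circuit -/
noncomputable def cact (C : List (Gate n p Y)) : ℝ := (C.map Gate.act).sum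
noncomputable def cdev (C : List (Gate n p Y)) : ℝ := (C.map Gate.dev).sum
noncomputable def cqry (C : List (Gate n p Y)) : ℝ := (C.map Gate.qry).sum

theorem cact_cons (c : Gate n p Y) (C : List (Gate n p Y)) : cact (c :: C) = c.act + cact C := by
  unfold cact
  rw [List.map_cons, List.sum_cons]

theorem cdev_cons (c : Gate n p Y) (C : List (Gate n p Y)) : cdev (c :: C) = c.dev + cdev C := by
  unfold cdev
  rw [List.map_cons, List.sum_cons]

theorem cqry_cons (c : Gate n p Y) (C : List (Gate n p Y)) : cqry (c :: C) = c.qry + cqry C := by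
  unfold cqry
  rw [List.map_cons, List.sum_cons]

theorem act_nonneg (c : Gate n p Y) : 0 ≤ c.act := by
  cases c with
  | fix D => exact le_refl (0 : ℝ)
  | orc D X => exact le_refl (0 : ℝ)
  | ev a b => exact sum_nonneg fun i _ => abs_nonneg _

theorem dev_nonneg (c : Gate n p Y) : 0 ≤ c.dev := by
  cases c with
  | fix D => exact le_refl (0 : ℝ)
  | orc D X => exact le_refl (0 : ℝ)
  | ev a b => exact sum_nonneg fun i _ => iSup_abs_nonneg (b i)

theorem qry_nonneg (c : Gate n p Y) : 0 ≤ c.qry := by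
  cases c with
  | fix D => exact le_refl (0 : ℝ)
  | orc D X => exact zero_le_one
  | ev a b => exact le_refl (0 : ℝ)

theorem cact_nonneg (C : List (Gate n p Y)) : 0 ≤ cact C := by
  induction C with
  | nil => exact le_refl (0 : ℝ)
  | cons c C ih =>
    rw [cact_cons]
    exact add_nonneg (act_nonneg c) ih

theorem cdev_nonneg (C : List (Gate n p Y)) : 0 ≤ cdev C := by
  induction C with
  | nil => exact le_refl (0 : ℝ)
  | cons c C ih =>
    rw [cdev_cons]
    exact add_nonneg (dev_nonneg c) ih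

theorem cqry_nonneg (C : List (Gate n p Y)) : 0 ≤ cqry C := by
  induction C with
  | nil => exact le_refl (0 : ℝ)
  | cons c C ih =>
    rw [cqry_cons]
    exact add_nonneg (qry_nonneg c) ih

/-- the gate with all coefficients multiplied by `s` -/
def sev (a : Fin p → ℝ) (b : Fin p → Cube n → ℝ) (s : ℝ) : Gate n p Y :=
  .ev (fun i => a i * s) (fun i z => b i z * s)

theorem sev_act (a : Fin p → ℝ) (b : Fin p → Cube n → ℝ) {s : ℝ} (hs0 : 0 ≤ s) (hs1 : s ≤ 1) :
    (sev a b s : Gate n p Y).act ≤ (Gate.ev a b : Gate n p Y).act := by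
  show ∑ i, |a i * s| ≤ ∑ i, |a i|
  refine sum_le_sum fun i _ => ?_
  rw [abs_mul, abs_of_nonneg hs0]
  exact mul_le_of_le_one_right (abs_nonneg _) hs1

theorem sev_dev (a : Fin p → ℝ) (b : Fin p → Cube n → ℝ) {s : ℝ} (hs0 : 0 ≤ s) (hs1 : s ≤ 1) :
    (sev a b s : Gate n p Y).dev ≤ (Gate.ev a b : Gate n p Y).dev := by
  show ∑ i, (⨆ z, |b i z * s|) ≤ ∑ i, ⨆ z, |b i z|
  refine sum_le_sum fun i _ => ciSup_le fun z => ?_
  rw [abs_mul, abs_of_nonneg hs0]
  exact (mul_le_of_le_one_right (abs_nonneg _) hs1).trans (abs_le_iSup (b i) z)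

theorem lin_sev (δ : ℝ) (w : Fin p → List (Letter n m Y)) (z : Cube n)
    (a : Fin p → ℝ) (b : Fin p → Cube n → ℝ) (s : ℝ) (C : List (Gate n p Y)) (u : Sp n Y) :
    lin (circF G δ w z (sev a b s :: C)) u =
      lin (NormedSpace.exp ((-Complex.I * s) • Ham (Letter.flt G δ z) w fun i => a i + b i z))
        (lin (circF G δ w z C) u) := by
  rw [lin_circF_cons]
  have h1 : (sev a b s : Gate n p Y).opF G δ w z = NormedSpace.exp ((-Complex.I * s) •
      Ham (Letter.flt G δ z) w fun i => a i + b i z) := by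
    show NormedSpace.exp ((-Complex.I) • Ham (Letter.flt G δ z) w fun i =>
      a i * s + b i z * s) = _
    have h2 : (fun i => a i * s + b i z * s) = fun i => (a i + b i z) * s := by
      funext i
      ring
    rw [h2, ← ham_smul, smul_smul]
  rw [h1]

section good

variable {Z : Type} [Fintype Z]

theorem l2_ER {L d Γ c : ℝ} (hg : Grd ((r * 2 ^ (r + 1)) * (ν + 2 / Real.sqrt (2 ^ k)))
    β L d Γ n r) (hS : Std ε δ ν t r G) (hβ : 0 < β) (ζ : Z → Cube n)
    (hB : ∀ x, ((univ.filter fun z => x ∈ hball δ (ζ z)).card : ℝ) ≤ β ^ 2)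
    (hZ : (Fintype.card Z : ℝ) ≤ 2 ^ n)
    (w : Fin p → List (Letter n m Y)) (hw : ∀ i, ∀ l ∈ w i, l.Ok t r G)
    (hr : ∀ i, (w i).length ≤ r) (C : List (Gate n p Y)) (hC : ∀ c ∈ C, c.Ok t G)
    (hL : cact C ≤ L) (hd : cdev C ≤ d) (hc : 1 ≤ c)
    {v : Z → Sp n Y} (hv : GoodP β c v) (hn : ∀ z, ‖v z‖ ≤ 1) :
    l2 (fun z => ER G δ r w (ζ z) C (v z)) ≤
      ((cact C + cdev C) * 4 ^ (r + 1) + 2 * cqry C) * (2 * (β * (MR p r * (Γ * c)))) := by
  have hMR : 0 ≤ MR p r := zero_le_one.trans (MR_one_le p r)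
  have hΓ : 0 ≤ Γ := zero_le_one.trans hg.one_le
  have hc0 : 0 ≤ c := by linarith
  obtain ⟨B, hBB⟩ : ∃ B, B = 2 * (β * (MR p r * (Γ * c))) := ⟨_, rfl⟩
  have hB0 : 0 ≤ B := by rw [hBB]; positivity
  rw [← hBB]
  induction C with
  | nil =>
    have h1 : (fun z => ER G δ r w (ζ z) ([] : List (Gate n p Y)) (v z)) = fun _ : Z => (0 : ℝ) :=
      rfl
    rw [h1, l2r_zero]
    have h2 := cact_nonneg ([] : List (Gate n p Y))
    have h3 := cdev_nonneg ([] : List (Gate n p Y))
    have h4 := cqry_nonneg ([] : List (Gate n p Y))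
    positivity
  | cons g C ih =>
    have hC' : ∀ c ∈ C, c.Ok t G := fun c' hc' => hC c' (by simp [hc'])
    have hga := act_nonneg g
    have hgd := dev_nonneg g
    have hgq := qry_nonneg g
    rw [cact_cons] at hL
    rw [cdev_cons] at hd
    have ih' := ih hC' (by linarith) (by linarith)
    rw [cact_cons, cdev_cons, cqry_cons]
    cases g with
    | fix D =>
      refine le_trans ih' (le_of_eq ?_)
      show _ = ((0 + cact C + (0 + cdev C)) * 4 ^ (r + 1) + 2 * (0 + cqry C)) * B
      rw [zero_add, zero_add, zero_add]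
    | orc D X =>
      have h1 : (fun z => ER G δ r w (ζ z) (Gate.orc D X :: C) (v z)) = fun z =>
          ER G δ r w (ζ z) C (v z) + 2 * NR G δ w (ζ z) (lin (circF G δ w (ζ z) C) (v z)) := rfl
      rw [h1]
      have h3 := goodP_circF hg hS hβ ζ hB hZ w hw hr C hC' (show cact C ≤ L by linarith)
        (show cdev C ≤ d by linarith) hc hv hn
      have h4 := l2_NR hS hβ.le ζ hB w hw hr (mul_nonneg hΓ hc0) h3
      rw [← hBB] at h4
      have h5 := l2r_mul (s := fun _ : Z => (2 : ℝ)) zero_le_two (fun z => by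
        rw [abs_of_pos two_pos]) h4
      refine (l2r_add _ _).trans ((add_le_add ih' h5).trans (le_of_eq ?_))
      show _ = ((0 + cact C + (0 + cdev C)) * 4 ^ (r + 1) + 2 * (1 + cqry C)) * B
      ring
    | ev a b =>
      have h1 : (fun z => ER G δ r w (ζ z) (Gate.ev a b :: C) (v z)) = fun z =>
          ER G δ r w (ζ z) C (v z) + ((∑ i, |a i + b i (ζ z)|) * 4 ^ (r + 1)) *
            ∫ s in (0 : ℝ)..1, NR G δ w (ζ z) (lin (NormedSpace.exp ((-Complex.I * s) •
              Ham (Letter.flt G δ (ζ z)) w fun i => a i + b i (ζ z)))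
                (lin (circF G δ w (ζ z) C) (v z))) := rfl
      rw [h1]
      have h2 : l2 (fun z => ((∑ i, |a i + b i (ζ z)|) * 4 ^ (r + 1)) *
            ∫ s in (0 : ℝ)..1, NR G δ w (ζ z) (lin (NormedSpace.exp ((-Complex.I * s) •
              Ham (Letter.flt G δ (ζ z)) w fun i => a i + b i (ζ z)))
                (lin (circF G δ w (ζ z) C) (v z)))) ≤
          (((Gate.ev a b : Gate n p Y).act + (Gate.ev a b : Gate n p Y).dev) * 4 ^ (r + 1)) *
            B := by
        refine l2r_mul (mul_nonneg (add_nonneg hga hgd) (by positivity)) (fun z => ?_) ?_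
        · have h3 : 0 ≤ ∑ i, |a i + b i (ζ z)| := sum_nonneg fun _ _ => abs_nonneg _
          rw [abs_of_nonneg (by positivity)]
          refine mul_le_mul_of_nonneg_right ?_ (by positivity)
          show ∑ i, |a i + b i (ζ z)| ≤ ∑ i, |a i| + ∑ i, ⨆ z, |b i z|
          rw [← sum_add_distrib]
          exact sum_le_sum fun i _ => (abs_add_le _ _).trans
            (add_le_add le_rfl (abs_le_iSup (b i) (ζ z)))
        · refine l2_integral_le (f := fun z (s : ℝ) => NR G δ w (ζ z)
            (lin (NormedSpace.exp ((-Complex.I * s) •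
              Ham (Letter.flt G δ (ζ z)) w fun i => a i + b i (ζ z)))
                (lin (circF G δ w (ζ z) C) (v z)))) (fun z => ?_)
            (fun z s => NR_nonneg _ _ _ _ _) fun s hs => ?_
          · exact (continuous_NR G δ w (ζ z)).comp (continuous_exp _ _)
          · have h6 := sev_act (Y := Y) a b hs.1 hs.2
            have h7 := sev_dev (Y := Y) a b hs.1 hs.2
            have h3 := goodP_circF hg hS hβ ζ hB hZ w hw hr (sev a b s :: C) (fun c hc' => by
              rcases List.mem_cons.1 hc' with h | h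
              · rw [h]; exact trivial
              · exact hC' c h) (by
                show cact (sev a b s :: C) ≤ L
                rw [cact_cons]
                linarith) (by
                show cdev (sev a b s :: C) ≤ d
                rw [cdev_cons]
                linarith) hc hv hn
            have h5 := l2_NR hS hβ.le ζ hB w hw hr (mul_nonneg hΓ hc0) h3
            rw [← hBB] at h5
            simp only [lin_sev] at h5
            exact h5
      refine (l2r_add _ _).trans ((add_le_add ih' h2).trans (le_of_eq ?_))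
      have hq : (Gate.ev a b : Gate n p Y).qry = 0 := rfl
      rw [hq]
      ring

/-- cost of a circuit functional -/
noncomputable def AXc (p r : ℕ) (Γ A N : ℝ) : ℝ :=
  MR p r * (Γ * (2 + A * 4 ^ (r + 1) + 2 * N))

theorem l2_NX {L d Γ N c : ℝ} (hg : Grd ((r * 2 ^ (r + 1)) * (ν + 2 / Real.sqrt (2 ^ k)))
    β L d Γ n r) (hS : Std ε δ ν t r G) (hβ : 0 < β) (ζ : Z → Cube n)
    (hB : ∀ x, ((univ.filter fun z => x ∈ hball δ (ζ z)).card : ℝ) ≤ β ^ 2)
    (hZ : (Fintype.card Z : ℝ) ≤ 2 ^ n)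
    (w : Fin p → List (Letter n m Y)) (hw : ∀ i, ∀ l ∈ w i, l.Ok t r G)
    (hr : ∀ i, (w i).length ≤ r) (C : List (Gate n p Y)) (hC : ∀ c ∈ C, c.Ok t G)
    (hL : cact C ≤ L) (hd : cdev C ≤ d) (hN : cqry C ≤ N) (hc : 1 ≤ c)
    {v : Z → Sp n Y} (hv : GoodP β c v) (hn : ∀ z, ‖v z‖ ≤ 1) :
    l2 (fun z => NX G δ r w (ζ z) C (v z)) ≤ 2 * (β * (AXc p r Γ (L + d) N * c)) := by
  have hMR : 0 ≤ MR p r := zero_le_one.trans (MR_one_le p r)
  have hΓ1 := hg.one_le
  have hΓ : 0 ≤ Γ := zero_le_one.trans hΓ1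
  have hc0 : 0 ≤ c := by linarith
  have h1 := l2_NR hS hβ.le ζ hB w hw hr hc0 hv
  have h2 := l2_ER hg hS hβ ζ hB hZ w hw hr C hC hL hd hc hv hn
  have h3 := l2_NR hS hβ.le ζ hB w hw hr (mul_nonneg hΓ hc0)
    (goodP_circF hg hS hβ ζ hB hZ w hw hr C hC hL hd hc hv hn)
  unfold NX
  refine (l2r_add _ _).trans ((add_le_add h1 ((l2r_add _ _).trans (add_le_add h2 h3))).trans ?_)
  obtain ⟨e, he⟩ : ∃ e, e = 2 * (β * (MR p r * (Γ * c))) := ⟨_, rfl⟩
  have he0 : 0 ≤ e := by rw [he]; positivity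
  have k1 : 2 * (β * (MR p r * c)) ≤ e := by
    rw [he]
    have : c ≤ Γ * c := by nlinarith
    gcongr
  have k2 : ((cact C + cdev C) * 4 ^ (r + 1) + 2 * cqry C) * e ≤
      ((L + d) * 4 ^ (r + 1) + 2 * N) * e := by
    refine mul_le_mul_of_nonneg_right ?_ he0
    gcongr
  rw [← he]
  calc _ ≤ e + (((L + d) * 4 ^ (r + 1) + 2 * N) * e + e) := by linarith
    _ = _ := by rw [he]; unfold AXc; ring

end good

end Pool.Agent.H73.AY
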