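import Pool.Agent.H27.AX.Plus

/-! Products of perturbed contractions, expanded in the number of perturbations. -/

namespace Pool.Agent.H73.AY

open Finset Pool.Agent.H73.AD
open Pool.Agent.H73.AX (GoodP GoodOpP)

set_option linter.unusedSectionVars false

variable {Z : Type} [Fintype Z] {E : Type} [NormedAddCommGroup E] [NormedSpace ℂ E] {β : ℝ}

theorem GoodP.add {c c' : ℝ} {v w : Z → E} (hv : GoodP β c v) (hw : GoodP β c' w) :
    GoodP β (c + c') (fun z => v z + w z) := by
  intro d hd
  have h1 := (hv (c + (d - (c + c')) / 2) (by linarith)).add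
    (hw (c' + (d - (c + c')) / 2) (by linarith))
  have h2 : c + (d - (c + c')) / 2 + (c' + (d - (c + c')) / 2) = d := by ring
  rwa [h2] at h1

theorem GoodP.zero {c : ℝ} (hβ : 0 ≤ β) (hc : 0 ≤ c) : GoodP β c (fun _ : Z => (0 : E)) :=
  fun _ hc' => Good.zero hβ (hc.trans hc'.le)

theorem GoodP.sum_range (hβ : 0 ≤ β) (J : ℕ) {c : ℝ} {v : ℕ → Z → E}
    (h : ∀ j < J, GoodP β c (v j)) : GoodP β (J * c) (fun z => ∑ j ∈ range J, v j z) := by
  induction J with
  | zero =>
    simp only [range_zero, sum_empty, Nat.cast_zero, zero_mul]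
    exact GoodP.zero hβ le_rfl
  | succ J ih =>
    have h1 := GoodP.add (ih fun j hj => h j (by omega)) (h J (by omega))
    simp only [sum_range_succ]
    refine h1.mono (le_of_eq ?_)
    push_cast
    ring

/-- a step: `V` preserves good families, `R` is small -/
structure Step (Z E : Type) [NormedAddCommGroup E] [NormedSpace ℂ E] where
  V : Z → E →ₗ[ℂ] E
  R : Z → E →ₗ[ℂ] E
  d : ℝ
  ρ : ℝ
  ν : ℝ

structure Step.Ok (β : ℝ) (s : Step Z E) : Prop where
  d0 : 0 ≤ s.d
  ρ0 : 0 ≤ s.ρ
  ν0 : 0 ≤ s.ν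
  gV : GoodOpP β (1 + s.d) s.V
  gR : GoodOpP β s.ρ s.R
  nV : ∀ z u, ‖s.V z u‖ ≤ (1 + s.ν) * ‖u‖
  nR : ∀ z u, ‖s.R z u‖ ≤ s.ν * ‖u‖
  nX : ∀ z u, ‖s.V z u + s.R z u‖ ≤ ‖u‖

/-- the product of the steps -/
def run (C : List (Step Z E)) (v : Z → E) : Z → E :=
  C.foldr (fun s u z => s.V z (u z) + s.R z (u z)) v

/-- the terms with `j` perturbations -/
def term (v : Z → E) : List (Step Z E) → ℕ → Z → E
  | [], 0 => v
  | [], _ + 1 => fun _ => 0
  | s :: C, 0 => fun z => s.V z (term v C 0 z)
  | s :: C, j + 1 => fun z => s.V z (term v C (j + 1) z) + s.R z (term v C j z)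

/-- the terms with more than `J` perturbations -/
def rest (v : Z → E) (J : ℕ) : List (Step Z E) → Z → E
  | [] => fun _ => 0
  | s :: C => fun z => (s.V z (rest v J C z) + s.R z (rest v J C z)) + s.R z (term v C J z)

theorem term_zero_nil (v : Z → E) : term v ([] : List (Step Z E)) 0 = v := rfl

theorem run_eq (v : Z → E) (J : ℕ) (C : List (Step Z E)) (z : Z) :
    run C v z = ∑ j ∈ range (J + 1), term v C j z + rest v J C z := by
  induction C with
  | nil =>
    show v z = _ + 0
    have h0 : ∑ j ∈ range J, term v ([] : List (Step Z E)) (j + 1) z = 0 :=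
      sum_eq_zero fun j _ => rfl
    rw [sum_range_succ', h0, zero_add, add_zero]
    rfl
  | cons s C ih =>
    have h1 : run (s :: C) v z = s.V z (run C v z) + s.R z (run C v z) := rfl
    have h2 : ∑ j ∈ range (J + 1), term v (s :: C) j z =
        s.V z (∑ j ∈ range (J + 1), term v C j z) + s.R z (∑ j ∈ range J, term v C j z) := by
      rw [sum_range_succ', sum_range_succ' (fun j => term v C j z), map_add, map_sum, map_sum]
      have h3 : ∀ j, term v (s :: C) (j + 1) z =
          s.V z (term v C (j + 1) z) + s.R z (term v C j z) := fun j => rfl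
      have h4 : term v (s :: C) 0 z = s.V z (term v C 0 z) := rfl
      simp only [h3, h4]
      rw [sum_add_distrib]
      abel
    have h5 : rest v J (s :: C) z =
        (s.V z (rest v J C z) + s.R z (rest v J C z)) + s.R z (term v C J z) := rfl
    have h6 : s.R z (∑ j ∈ range (J + 1), term v C j z) =
        s.R z (∑ j ∈ range J, term v C j z) + s.R z (term v C J z) := by
      rw [sum_range_succ, map_add]
    rw [h1, ih, map_add, map_add, h2, h5, h6]
    abel

/-- sums of the constants -/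
def sd (C : List (Step Z E)) : ℝ := (C.map Step.d).sum
def sρ (C : List (Step Z E)) : ℝ := (C.map Step.ρ).sum
def sν (C : List (Step Z E)) : ℝ := (C.map Step.ν).sum

theorem sd_cons (s : Step Z E) (C : List (Step Z E)) : sd (s :: C) = s.d + sd C := by
  unfold sd; rw [List.map_cons, List.sum_cons]
theorem sρ_cons (s : Step Z E) (C : List (Step Z E)) : sρ (s :: C) = s.ρ + sρ C := by
  unfold sρ; rw [List.map_cons, List.sum_cons]
theorem sν_cons (s : Step Z E) (C : List (Step Z E)) : sν (s :: C) = s.ν + sν C := by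
  unfold sν; rw [List.map_cons, List.sum_cons]

theorem good_term {C : List (Step Z E)} (hβ : 0 ≤ β) (hC : ∀ s ∈ C, s.Ok β) {x c : ℝ}
    (hx : 0 < x) (hc : 0 ≤ c) {v : Z → E} (hv : GoodP β c v) (j : ℕ) :
    GoodP β ((1 / x) ^ j * Real.exp (sd C + x * sρ C) * c) (term v C j) := by
  induction C generalizing j with
  | nil =>
    have h1 : Real.exp (sd ([] : List (Step Z E)) + x * sρ ([] : List (Step Z E))) = 1 := by
      simp [sd, sρ]
    rw [h1]
    cases j with
    | zero =>
      rw [pow_zero, one_mul, one_mul]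
      exact hv
    | succ j => exact GoodP.zero hβ (by positivity)
  | cons s C ih =>
    have hs := hC s (by simp)
    have ih' := ih fun s' hs' => hC s' (by simp [hs'])
    have hd := hs.d0
    have hρ := hs.ρ0
    obtain ⟨P, hP⟩ : ∃ P, P = Real.exp (sd C + x * sρ C) := ⟨_, rfl⟩
    have hP0 : 0 < P := by rw [hP]; exact Real.exp_pos _
    have h1 : (1 + s.d + x * s.ρ) * P ≤ Real.exp (sd (s :: C) + x * sρ (s :: C)) := by
      have h2 : sd (s :: C) + x * sρ (s :: C) = (s.d + x * s.ρ) + (sd C + x * sρ C) := by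
        rw [sd_cons, sρ_cons]; ring
      rw [h2, Real.exp_add, ← hP]
      refine mul_le_mul_of_nonneg_right ?_ hP0.le
      have h3 := Real.add_one_le_exp (s.d + x * s.ρ)
      linarith
    rw [← hP] at ih'
    have hx' : 0 < 1 / x := by positivity
    cases j with
    | zero =>
      have h2 := hs.gV.2 _ _ (by positivity) (ih' 0)
      refine h2.mono ?_
      rw [pow_zero, one_mul, one_mul]
      calc (1 + s.d) * (P * c) ≤ (1 + s.d + x * s.ρ) * P * c := by
            have : 0 ≤ x * s.ρ * (P * c) := by positivity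
            nlinarith
        _ ≤ _ := mul_le_mul_of_nonneg_right h1 hc
    | succ j =>
      have h2 := hs.gV.2 _ _ (by positivity) (ih' (j + 1))
      have h3 := hs.gR.2 _ _ (by positivity) (ih' j)
      have h4 := GoodP.add h2 h3
      refine h4.mono ?_
      have h5 : (1 / x) ^ j = (1 / x) ^ (j + 1) * x := by
        rw [pow_succ, mul_assoc, one_div_mul_cancel hx.ne', mul_one]
      calc (1 + s.d) * ((1 / x) ^ (j + 1) * P * c) + s.ρ * ((1 / x) ^ j * P * c) =
            (1 / x) ^ (j + 1) * ((1 + s.d + x * s.ρ) * P) * c := by rw [h5]; ring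
        _ ≤ _ := by gcongr

theorem norm_term {C : List (Step Z E)} (hC : ∀ s ∈ C, s.Ok β) {y : ℝ}
    (hy : 0 < y) {v : Z → E} (hv : ∀ z, ‖v z‖ ≤ 1) (j : ℕ) (z : Z) :
    ‖term v C j z‖ ≤ (1 / y) ^ j * Real.exp ((1 + y) * sν C) := by
  induction C generalizing j with
  | nil =>
    have h1 : Real.exp ((1 + y) * sν ([] : List (Step Z E))) = 1 := by
      simp [sν]
    rw [h1]
    cases j with
    | zero =>
      rw [pow_zero, one_mul]
      exact hv z
    | succ j =>
      show ‖(0 : E)‖ ≤ _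
      rw [norm_zero]
      positivity
  | cons s C ih =>
    have hs := hC s (by simp)
    have ih' := ih fun s' hs' => hC s' (by simp [hs'])
    have hν := hs.ν0
    obtain ⟨P, hP⟩ : ∃ P, P = Real.exp ((1 + y) * sν C) := ⟨_, rfl⟩
    have hP0 : 0 < P := by rw [hP]; exact Real.exp_pos _
    have h1 : (1 + s.ν + y * s.ν) * P ≤ Real.exp ((1 + y) * sν (s :: C)) := by
      have h2 : (1 + y) * sν (s :: C) = ((1 + y) * s.ν) + (1 + y) * sν C := by
        rw [sν_cons]; ring
      rw [h2, Real.exp_add, ← hP]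
      refine mul_le_mul_of_nonneg_right ?_ hP0.le
      have h3 := Real.add_one_le_exp ((1 + y) * s.ν)
      linarith
    rw [← hP] at ih'
    have hy' : 0 < 1 / y := by positivity
    cases j with
    | zero =>
      show ‖s.V z (term v C 0 z)‖ ≤ _
      refine (hs.nV z _).trans ?_
      have h2 := mul_le_mul_of_nonneg_left (ih' 0) (by linarith : 0 ≤ 1 + s.ν)
      refine h2.trans ?_
      rw [pow_zero, one_mul, one_mul]
      refine le_trans ?_ h1
      have : 0 ≤ y * s.ν * P := by positivity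
      nlinarith
    | succ j =>
      show ‖s.V z (term v C (j + 1) z) + s.R z (term v C j z)‖ ≤ _
      refine (norm_add_le _ _).trans ?_
      have h2 := (hs.nV z (term v C (j + 1) z)).trans
        (mul_le_mul_of_nonneg_left (ih' (j + 1)) (by linarith : 0 ≤ 1 + s.ν))
      have h3 := (hs.nR z (term v C j z)).trans (mul_le_mul_of_nonneg_left (ih' j) hν)
      refine (add_le_add h2 h3).trans ?_
      have h5 : (1 / y) ^ j = (1 / y) ^ (j + 1) * y := by
        rw [pow_succ, mul_assoc, one_div_mul_cancel hy.ne', mul_one]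
      calc (1 + s.ν) * ((1 / y) ^ (j + 1) * P) + s.ν * ((1 / y) ^ j * P) =
            (1 / y) ^ (j + 1) * ((1 + s.ν + y * s.ν) * P) := by rw [h5]; ring
        _ ≤ _ := by gcongr

theorem norm_rest {C : List (Step Z E)} (hC : ∀ s ∈ C, s.Ok β) {y : ℝ}
    (hy : 0 < y) {v : Z → E} (hv : ∀ z, ‖v z‖ ≤ 1) (J : ℕ) (z : Z) :
    ‖rest v J C z‖ ≤ sν C * ((1 / y) ^ J * Real.exp ((1 + y) * sν C)) := by
  induction C with
  | nil =>
    show ‖(0 : E)‖ ≤ _
    simp [sν]
  | cons s C ih =>
    have hs := hC s (by simp)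
    have hC' : ∀ s ∈ C, s.Ok β := fun s' hs' => hC s' (by simp [hs'])
    have ih' := ih hC'
    have hν := hs.ν0
    have hsν : 0 ≤ sν C := by
      unfold sν
      refine List.sum_nonneg fun a ha => ?_
      obtain ⟨s', hs', rfl⟩ := List.mem_map.1 ha
      exact (hC' s' hs').ν0
    have h1 : Real.exp ((1 + y) * sν C) ≤ Real.exp ((1 + y) * sν (s :: C)) := by
      refine Real.exp_le_exp.2 (mul_le_mul_of_nonneg_left ?_ (by linarith))
      rw [sν_cons]
      linarith
    have hy' : 0 < 1 / y := by positivity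
    show ‖(s.V z (rest v J C z) + s.R z (rest v J C z)) + s.R z (term v C J z)‖ ≤ _
    refine (norm_add_le _ _).trans ?_
    have h2 := (hs.nX z (rest v J C z)).trans ih'
    have h3 := (hs.nR z (term v C J z)).trans
      (mul_le_mul_of_nonneg_left (norm_term hC' hy hv J z) hν)
    refine (add_le_add h2 h3).trans ?_
    rw [← add_mul, sν_cons, add_comm (sν C)]
    refine mul_le_mul_of_nonneg_left ?_ (by linarith)
    rw [sν_cons] at h1
    exact mul_le_mul_of_nonneg_left h1 (by positivity)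

/-- products of steps preserve good families -/
theorem good_run {C : List (Step Z E)} (hβ : 0 < β) (hC : ∀ s ∈ C, s.Ok β)
    {x y c D ρ ν : ℝ} (hx : 0 < x) (hx1 : x ≤ 1) (hy : 0 < y) (hc : 0 ≤ c) {v : Z → E}
    (hv : GoodP β c v) (hn : ∀ z, ‖v z‖ ≤ 1) (hD : sd C ≤ D) (hρ : sρ C ≤ ρ) (hν : sν C ≤ ν)
    (J : ℕ) (hJ : ν * ((1 / y) ^ J * Real.exp ((1 + y) * ν)) * Real.sqrt (Fintype.card Z) ≤ β) :
    GoodP β ((J + 1) * ((1 / x) ^ J * Real.exp (D + x * ρ)) * c + 1) (run C v) := by
  have hsν : 0 ≤ sν C := by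
    unfold sν
    refine List.sum_nonneg fun a ha => ?_
    obtain ⟨s', hs', rfl⟩ := List.mem_map.1 ha
    exact (hC s' hs').ν0
  have h1x : 1 ≤ 1 / x := by rw [le_div_iff₀ hx]; linarith
  have h1 : GoodP β ((J + 1 : ℕ) * ((1 / x) ^ J * Real.exp (D + x * ρ) * c))
      (fun z => ∑ j ∈ range (J + 1), term v C j z) := by
    refine GoodP.sum_range hβ.le (J + 1) fun j hj => ?_
    refine (good_term hβ.le hC hx hc hv j).mono ?_
    have h2 : (1 / x) ^ j ≤ (1 / x) ^ J := pow_le_pow_right₀ h1x (by omega)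
    have h3 : Real.exp (sd C + x * sρ C) ≤ Real.exp (D + x * ρ) :=
      Real.exp_le_exp.2 (add_le_add hD (mul_le_mul_of_nonneg_left hρ hx.le))
    gcongr
  have h2 : Good β 1 (rest v J C) := by
    refine good_of_l2 zero_le_one ?_
    rw [mul_one]
    have hν0 : 0 ≤ ν := hsν.trans hν
    have hy' : 0 < 1 / y := by positivity
    have h3 : ∀ z, ‖rest v J C z‖ ≤ ν * ((1 / y) ^ J * Real.exp ((1 + y) * ν)) := by
      intro z
      refine (norm_rest hC hy hn J z).trans ?_
      have h4 : Real.exp ((1 + y) * sν C) ≤ Real.exp ((1 + y) * ν) :=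
        Real.exp_le_exp.2 (mul_le_mul_of_nonneg_left hν (by linarith))
      gcongr
    refine le_trans ?_ hJ
    obtain ⟨b, hb⟩ : ∃ b, b = ν * ((1 / y) ^ J * Real.exp ((1 + y) * ν)) := ⟨_, rfl⟩
    rw [← hb] at h3 ⊢
    have hb0 : 0 ≤ b := by rw [hb]; positivity
    unfold l2
    rw [← Real.sqrt_sq hb0, ← Real.sqrt_mul (sq_nonneg b)]
    refine Real.sqrt_le_sqrt ?_
    calc ∑ z, ‖rest v J C z‖ ^ 2 ≤ ∑ _z : Z, b ^ 2 :=
          sum_le_sum fun z _ => pow_le_pow_left₀ (norm_nonneg _) (h3 z) 2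
      _ = b ^ 2 * Fintype.card Z := by
          rw [sum_const, card_univ, nsmul_eq_mul, mul_comm]
  have h3 := GoodP.add h1 (AX.Good.plus hβ.le h2)
  have h4 : (fun z => (∑ j ∈ range (J + 1), term v C j z) + rest v J C z) = run C v := by
    funext z
    exact (run_eq v J C z).symm
  rw [h4] at h3
  refine h3.mono (le_of_eq ?_)
  push_cast
  ring

end Pool.Agent.H73.AY
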