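import Pool.Agent.H86.AY.NumG
import Pool.Agent.H73.AZ.Num

/-! The numbers of the circuits, with an action that grows with `k`. -/

namespace Pool.Agent.H73.AY

open Finset Matrix Pool.Agent.H73.QA Pool.Agent.H73.AD Pool.Agent.H73.AZ

/-- the numbers for one value of the action -/
theorem grd_core {e L : ℝ} (r : ℕ) (he : 0 < e) (hL : 0 ≤ L) {K : ℝ}
    (hK : K = 1 + 32 * (Real.exp 1 * 16 ^ r) / (e * Real.log 2)) :
    ∃ x y : ℝ, 0 < x ∧ 0 < y ∧ 1 / x ≤ K * (L + 1) ∧ y ≤ 4 * (K * (L + 1)) ^ (8 / e) ∧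
      ∀ n : ℕ, (2 / x + 1) * ((n : ℝ) + 1) ≤ 2 ^ (e / 8 * n) → ∀ θ β d : ℝ, 0 ≤ θ →
      θ ≤ 1 / (8 * (L + 1) * (1 + y)) → 1 ≤ β → 0 ≤ d →
      d ≤ e / 8 * Real.log 2 / (2 * (Real.exp 1 * 16 ^ r)) * n →
      Grd θ β (L * n) d (2 ^ (e * n)) n r := by
  have hl := Real.log_two_gt_d9
  obtain ⟨l, hl2⟩ : ∃ l : ℝ, l = Real.log 2 := ⟨_, rfl⟩
  rw [← hl2] at hl hK
  rw [← hl2]
  have hl0 : 0 < l := by linarith
  obtain ⟨E, hE⟩ : ∃ E : ℝ, E = Real.exp 1 * 16 ^ r := ⟨_, rfl⟩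
  rw [← hE] at hK
  rw [← hE]
  have hE0 : 0 < E := by rw [hE]; positivity
  obtain ⟨x, hx⟩ : ∃ x : ℝ, x = min 1 (e / 8 * l / (4 * E * (L + 1))) := ⟨_, rfl⟩
  have hx0 : 0 < x := by rw [hx]; exact lt_min one_pos (by positivity)
  have hx1 : x ≤ 1 := by rw [hx]; exact min_le_left _ _
  have hxL : x * (4 * E * L) ≤ e / 8 * l := by
    have h1 : x ≤ e / 8 * l / (4 * E * (L + 1)) := by rw [hx]; exact min_le_right _ _
    rw [le_div_iff₀ (by positivity)] at h1
    nlinarith [mul_pos hx0 hE0]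
  have hxK : 1 / x ≤ K * (L + 1) := by
    rw [hK, add_mul, one_mul]
    rcases min_choice (1 : ℝ) (e / 8 * l / (4 * E * (L + 1))) with h | h
    · rw [hx, h]
      have : 0 ≤ 32 * E / (e * l) * (L + 1) := by positivity
      linarith
    · rw [hx, h]
      have h1 : 1 / (e / 8 * l / (4 * E * (L + 1))) = 32 * E / (e * l) * (L + 1) := by
        field_simp
        ring
      rw [h1]
      linarith
  have hlx : 0 ≤ Real.log (1 / x) := Real.log_nonneg ((one_le_div hx0).2 hx1)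
  obtain ⟨Q, hQ1, hQ, hQ2⟩ : ∃ Q : ℕ, 1 ≤ Q ∧ Real.log (1 / x) ≤ Q * (e / 8 * l) ∧
      (Q : ℝ) ≤ Real.log (1 / x) / (e / 8 * l) + 2 := by
    refine ⟨⌈Real.log (1 / x) / (e / 8 * l)⌉₊ + 1, by omega, ?_, ?_⟩
    · have h1 := Nat.le_ceil (Real.log (1 / x) / (e / 8 * l))
      rw [div_le_iff₀ (by positivity)] at h1
      push_cast
      have h2 : 0 < e / 8 * l := by positivity
      linarith
    · have h1 := (Nat.ceil_lt_add_one (a := Real.log (1 / x) / (e / 8 * l)) (by positivity)).le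
      push_cast
      linarith
  obtain ⟨y, hy⟩ : ∃ y : ℝ, y = 2 ^ Q := ⟨_, rfl⟩
  have hy0 : 0 < y := by rw [hy]; positivity
  have hyK : y ≤ 4 * (K * (L + 1)) ^ (8 / e) := by
    have h1 : y = Real.exp (Q * l) := by
      rw [hy, hl2, Real.exp_nat_mul, Real.exp_log two_pos]
    have h2 : (4 : ℝ) = Real.exp (2 * l) := by
      have h3 : (4 : ℝ) = 2 ^ 2 := by norm_num
      rw [h3, hl2]
      have h4 := Real.exp_nat_mul (Real.log 2) 2
      rw [Real.exp_log two_pos] at h4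
      rw [← h4]
      norm_num
    have h3 : (1 / x) ^ (8 / e) ≤ (K * (L + 1)) ^ (8 / e) :=
      Real.rpow_le_rpow (by positivity) hxK (by positivity)
    refine le_trans ?_ (mul_le_mul_of_nonneg_left h3 (by norm_num : (0 : ℝ) ≤ 4))
    rw [h1, Real.rpow_def_of_pos (by positivity)]
    conv_rhs => rw [h2]
    rw [← Real.exp_add]
    refine Real.exp_le_exp.2 ?_
    calc (Q : ℝ) * l ≤ (Real.log (1 / x) / (e / 8 * l) + 2) * l :=
          mul_le_mul_of_nonneg_right hQ2 hl0.le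
      _ = 2 * l + Real.log (1 / x) * (8 / e) := by
          field_simp
          ring
  refine ⟨x, y, hx0, hy0, hxK, hyK, fun n h4n θ β d hθ hθτ hβ hd hdc =>
    ⟨by positivity, hd, x, y, n / Q + 1, hx0, hx1, hy0, ?_, ?_⟩⟩
  · -- the many insertions
    have hn0 : (0 : ℝ) ≤ n := Nat.cast_nonneg n
    have h1 : θ * (L * n) * (1 + y) ≤ n / 8 := by
      rw [le_div_iff₀ (by positivity)] at hθτ
      have h2 : θ * L * (1 + y) ≤ 1 / 8 := by
        have : 0 ≤ θ * (1 + y) := by positivity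
        nlinarith
      calc θ * (L * n) * (1 + y) = θ * L * (1 + y) * n := by ring
        _ ≤ 1 / 8 * n := mul_le_mul_of_nonneg_right h2 hn0
        _ = n / 8 := by ring
    have h2 : θ * (L * n) ≤ n / 8 := by
      have h3 : 0 ≤ θ * (L * n) := by positivity
      nlinarith
    have h3 : (1 / y) ^ (n / Q + 1) ≤ Real.exp (-(n * l)) := by
      have h4 : n ≤ Q * (n / Q + 1) := by
        have := Nat.div_add_mod n Q
        have h5 := Nat.mod_lt n (show 0 < Q by omega)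
        nlinarith
      rw [hy, one_div, ← inv_pow, ← pow_mul]
      calc (2 : ℝ)⁻¹ ^ (Q * (n / Q + 1)) ≤ 2⁻¹ ^ n :=
            pow_le_pow_of_le_one (by norm_num) (by norm_num) h4
        _ = Real.exp (-(n * l)) := by
            rw [hl2, Real.exp_neg, Real.exp_nat_mul, Real.exp_log two_pos, inv_pow]
    have h4 : Real.sqrt (2 ^ n) = Real.exp (n * l / 2) := by
      have h2n : (2 : ℝ) ^ n = Real.exp (n * l) := by
        rw [hl2, Real.exp_nat_mul, Real.exp_log two_pos]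
      rw [h2n, Real.sqrt_eq_rpow, ← Real.exp_mul]
      congr 1
      ring
    have h5 : Real.exp ((1 + y) * (θ * (L * n))) ≤ Real.exp (n / 8) :=
      Real.exp_le_exp.2 (by linarith)
    have h6 : (n : ℝ) / 8 * Real.exp (-(n / 8)) ≤ 1 := by
      have h7 := Real.add_one_le_exp ((n : ℝ) / 8)
      rw [Real.exp_neg, ← div_eq_mul_inv, div_le_one (Real.exp_pos _)]
      linarith
    rw [h4]
    calc θ * (L * n) * ((1 / y) ^ (n / Q + 1) * Real.exp ((1 + y) * (θ * (L * n)))) *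
          Real.exp (n * l / 2) ≤
        n / 8 * (Real.exp (-(n * l)) * Real.exp (n / 8)) * Real.exp (n * l / 2) := by
          refine mul_le_mul_of_nonneg_right ?_ (Real.exp_pos _).le
          exact mul_le_mul h2 (mul_le_mul h3 h5 (Real.exp_pos _).le (Real.exp_pos _).le)
            (by positivity) (by positivity)
      _ = n / 8 * Real.exp (-(n * l) + n / 8 + n * l / 2) := by
          rw [Real.exp_add, Real.exp_add]; ring
      _ ≤ n / 8 * Real.exp (-(n / 8)) := by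
          refine mul_le_mul_of_nonneg_left (Real.exp_le_exp.2 ?_) (by positivity)
          nlinarith
      _ ≤ 1 := h6
      _ ≤ β := hβ
  · -- the few insertions
    have hn0 : (0 : ℝ) ≤ n := Nat.cast_nonneg n
    have h1 : (1 / x) ^ (n / Q + 1) ≤ 1 / x * Real.exp (e / 8 * l * n) := by
      rw [pow_succ']
      refine mul_le_mul_of_nonneg_left ?_ (by positivity)
      have h2 : (1 / x) ^ (n / Q) = Real.exp ((n / Q : ℕ) * Real.log (1 / x)) := by
        rw [Real.exp_nat_mul, Real.exp_log (by positivity)]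
      rw [h2]
      refine Real.exp_le_exp.2 ?_
      have h3 : ((n / Q : ℕ) : ℝ) * Q ≤ n := by exact_mod_cast Nat.div_mul_le_self n Q
      have h4 : 0 < e / 8 * l := by positivity
      calc ((n / Q : ℕ) : ℝ) * Real.log (1 / x) ≤ (n / Q : ℕ) * (Q * (e / 8 * l)) :=
            mul_le_mul_of_nonneg_left hQ (Nat.cast_nonneg _)
        _ = ((n / Q : ℕ) : ℝ) * Q * (e / 8 * l) := by ring
        _ ≤ n * (e / 8 * l) := mul_le_mul_of_nonneg_right h3 h4.le
        _ = e / 8 * l * n := by ring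
    have h2 : Real.exp (2 * Real.exp 1 * 16 ^ r * d +
        x * (4 * Real.exp 1 * 16 ^ r * (L * n))) ≤ Real.exp (e / 4 * l * n) := by
      refine Real.exp_le_exp.2 ?_
      have h3 : 2 * Real.exp 1 * 16 ^ r * d ≤ e / 8 * l * n := by
        have h4 : 2 * Real.exp 1 * 16 ^ r * d = 2 * E * d := by rw [hE]; ring
        rw [h4]
        calc 2 * E * d ≤ 2 * E * (e / 8 * l / (2 * E) * n) :=
              mul_le_mul_of_nonneg_left hdc (by positivity)
          _ = e / 8 * l * n := by field_simp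
      have h5 : x * (4 * Real.exp 1 * 16 ^ r * (L * n)) ≤ e / 8 * l * n := by
        have h4 : x * (4 * Real.exp 1 * 16 ^ r * (L * n)) = x * (4 * E * L) * n := by
          rw [hE]; ring
        rw [h4]
        exact mul_le_mul_of_nonneg_right hxL hn0
      linarith
    have h3 : ((n / Q + 1 : ℕ) : ℝ) + 1 ≤ n + 2 := by
      have : n / Q ≤ n := Nat.div_le_self n Q
      have h4 : ((n / Q : ℕ) : ℝ) ≤ n := by exact_mod_cast this
      push_cast
      linarith
    have h5 : 1 ≤ Real.exp (e * 3 / 8 * l * n) := Real.one_le_exp (by positivity)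
    have h6 : (2 : ℝ) ^ (e / 8 * n) * Real.exp (e * 3 / 8 * l * n) ≤ 2 ^ (e * n) := by
      rw [two_rpow_exp, two_rpow_exp, ← Real.exp_add, ← hl2]
      refine Real.exp_le_exp.2 ?_
      have : 0 ≤ e * l * n := by positivity
      nlinarith
    have h7 : (n + 2) * (1 / x) + 1 ≤ (2 / x + 1) * ((n : ℝ) + 1) := by
      have h8 : 0 < 1 / x := by positivity
      have h9 : (2 / x + 1) * ((n : ℝ) + 1) = (2 * n + 2) * (1 / x) + n + 1 := by ring
      rw [h9]
      nlinarith [mul_nonneg hn0 h8.le]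
    calc _ ≤ (n + 2) * (1 / x * Real.exp (e / 8 * l * n) * Real.exp (e / 4 * l * n)) + 1 := by
          refine add_le_add ?_ le_rfl
          exact mul_le_mul h3 (mul_le_mul h1 h2 (Real.exp_pos _).le (by positivity))
            (by positivity) (by positivity)
      _ = (n + 2) * (1 / x) * Real.exp (e * 3 / 8 * l * n) + 1 := by
          rw [mul_assoc (1 / x), ← Real.exp_add]
          have : e / 8 * l * n + e / 4 * l * n = e * 3 / 8 * l * n := by ring
          rw [this]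
          ring
      _ ≤ ((n + 2) * (1 / x) + 1) * Real.exp (e * 3 / 8 * l * n) := by nlinarith
      _ ≤ (2 : ℝ) ^ (e / 8 * n) * Real.exp (e * 3 / 8 * l * n) :=
          mul_le_mul_of_nonneg_right (h7.trans h4n) (Real.exp_pos _).le
      _ ≤ _ := h6

/-- the numbers for an action that grows with `k` -/
theorem grd_k {e M : ℝ} (r : ℕ) (he : 0 < e) (hM : 0 ≤ M) :
    ∃ (c0 : ℝ) (k₀ n₀ : ℕ), 0 < c0 ∧ c0 ≤ 1 ∧ ∀ k ≥ k₀, ∀ n ≥ n₀, k ≤ n → ∀ L θ β d : ℝ,
      0 ≤ L → L ≤ (k : ℝ) ^ c0 → 0 ≤ θ → θ ≤ M / Real.sqrt k → 1 ≤ β → 0 ≤ d → d ≤ c0 * n →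
      Grd θ β (L * n) d (2 ^ (e * n)) n r := by
  have hl := Real.log_two_gt_d9
  have hl0 : 0 < Real.log 2 := by linarith
  obtain ⟨K, hK⟩ : ∃ K : ℝ, K = 1 + 32 * (Real.exp 1 * 16 ^ r) / (e * Real.log 2) := ⟨_, rfl⟩
  have hK1 : 1 ≤ K := by
    rw [hK]
    have : 0 ≤ 32 * (Real.exp 1 * 16 ^ r) / (e * Real.log 2) := by positivity
    linarith
  obtain ⟨c1, hc1⟩ : ∃ c1 : ℝ, c1 = 1 / 4 / (1 + 8 / e) := ⟨_, rfl⟩
  have hc10 : 0 < c1 := by rw [hc1]; positivity
  have hc11 : c1 ≤ 1 / 4 := by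
    rw [hc1]
    refine div_le_self (by norm_num) ?_
    have : 0 ≤ 8 / e := by positivity
    linarith
  obtain ⟨c0, hc0⟩ : ∃ c0 : ℝ,
    c0 = min c1 (e / 8 * Real.log 2 / (2 * (Real.exp 1 * 16 ^ r))) := ⟨_, rfl⟩
  have hc00 : 0 < c0 := by rw [hc0]; exact lt_min hc10 (by positivity)
  have hc01 : c0 ≤ c1 := by rw [hc0]; exact min_le_left _ _
  have hc02 : c0 ≤ e / 8 * Real.log 2 / (2 * (Real.exp 1 * 16 ^ r)) := by
    rw [hc0]; exact min_le_right _ _
  obtain ⟨B, hB⟩ : ∃ B : ℝ, B = 80 * (2 * K) ^ (8 / e) := ⟨_, rfl⟩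
  have h2K : 1 ≤ (2 * K) ^ (8 / e) := Real.one_le_rpow (by linarith) (by positivity)
  have hB0 : 0 < B := by rw [hB]; positivity
  obtain ⟨k₀, hk₀⟩ := exists_nat_ge ((M * B) ^ 4)
  obtain ⟨n1, hn1⟩ := lin_le_exp (c := e / 16) (by positivity) (A := 4 * K + 1) (by positivity)
  obtain ⟨n2, hn2⟩ := lin_le_exp (c := e / 16) (by positivity) (A := 1) zero_le_one
  refine ⟨c0, max k₀ 1, max n1 n2, hc00, by linarith, fun k hk n hn hkn L θ β d hL0 hL hθ hθM hβ
    hd hdc => ?_⟩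
  have hk1 : 1 ≤ k := (le_max_right _ _).trans hk
  have hkR : (1 : ℝ) ≤ k := by exact_mod_cast hk1
  have hk0 : (0 : ℝ) < k := by linarith
  have hsk : 0 < Real.sqrt k := Real.sqrt_pos.2 hk0
  obtain ⟨x, y, hx0, hy0, hxK, hyK, hgrd⟩ := grd_core r he hL0 hK
  have hkc : (1 : ℝ) ≤ (k : ℝ) ^ c1 := Real.one_le_rpow hkR hc10.le
  have hL1 : L + 1 ≤ 2 * (k : ℝ) ^ c1 := by
    have := hL.trans (Real.rpow_le_rpow_of_exponent_le hkR hc01)
    linarith
  refine hgrd n ?_ θ β d hθ ?_ hβ hd (hdc.trans (mul_le_mul_of_nonneg_right hc02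
    (Nat.cast_nonneg _)))
  · -- `n` is large
    have h1 := hn1 n ((le_max_left _ _).trans hn)
    have h2 := hn2 n ((le_max_right _ _).trans hn)
    rw [one_mul] at h2
    have hn0 : (0 : ℝ) ≤ n := Nat.cast_nonneg n
    have hnk : (k : ℝ) ≤ n := by exact_mod_cast hkn
    have h3 : (k : ℝ) ^ c1 ≤ n := by
      calc (k : ℝ) ^ c1 ≤ (k : ℝ) ^ (1 : ℝ) :=
            Real.rpow_le_rpow_of_exponent_le hkR (by linarith)
        _ = k := Real.rpow_one _
        _ ≤ n := hnk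
    have h4 : 2 / x + 1 ≤ (4 * K + 1) * ((n : ℝ) + 1) := by
      have h5 : 2 / x = 2 * (1 / x) := by ring
      have h6 : K * (L + 1) ≤ K * (2 * n) :=
        mul_le_mul_of_nonneg_left (by linarith) (by linarith)
      rw [h5]
      nlinarith
    have h5 : (2 : ℝ) ^ (e / 8 * n) = 2 ^ (e / 16 * n) * 2 ^ (e / 16 * n) := by
      rw [rpow_add_n]
      congr 2
      ring
    rw [h5]
    calc (2 / x + 1) * ((n : ℝ) + 1) ≤ ((4 * K + 1) * ((n : ℝ) + 1)) * ((n : ℝ) + 1) :=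
          mul_le_mul_of_nonneg_right h4 (by linarith)
      _ ≤ _ := mul_le_mul h1 h2 (by linarith) (by positivity)
  · -- `k` is large
    refine hθM.trans ?_
    rw [div_le_div_iff₀ hsk (by positivity), one_mul]
    have h1 : K * (L + 1) ≤ 2 * K * (k : ℝ) ^ c1 := by nlinarith
    have h2 : y ≤ 4 * ((2 * K) ^ (8 / e) * ((k : ℝ) ^ c1) ^ (8 / e)) := by
      refine hyK.trans ?_
      rw [← Real.mul_rpow (by positivity) (by positivity)]
      refine mul_le_mul_of_nonneg_left ?_ (by norm_num)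
      exact Real.rpow_le_rpow (by positivity) h1 (by positivity)
    have h3 : (1 : ℝ) ≤ ((k : ℝ) ^ c1) ^ (8 / e) := Real.one_le_rpow hkc (by positivity)
    have h4 : 1 + y ≤ 5 * ((2 * K) ^ (8 / e) * ((k : ℝ) ^ c1) ^ (8 / e)) := by
      have h5 : 1 ≤ (2 * K) ^ (8 / e) * ((k : ℝ) ^ c1) ^ (8 / e) :=
        one_le_mul_of_one_le_of_one_le h2K h3
      linarith
    have h5 : 8 * (L + 1) * (1 + y) ≤ B * (k : ℝ) ^ (1 / 4 : ℝ) := by
      have h6 : (k : ℝ) ^ c1 * ((k : ℝ) ^ c1) ^ (8 / e) = (k : ℝ) ^ (1 / 4 : ℝ) := by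
        rw [← Real.rpow_mul hk0.le, ← Real.rpow_add hk0]
        congr 1
        rw [hc1]
        field_simp
      calc 8 * (L + 1) * (1 + y) ≤ 8 * (2 * (k : ℝ) ^ c1) *
            (5 * ((2 * K) ^ (8 / e) * ((k : ℝ) ^ c1) ^ (8 / e))) := by gcongr
        _ = B * ((k : ℝ) ^ c1 * ((k : ℝ) ^ c1) ^ (8 / e)) := by rw [hB]; ring
        _ = _ := by rw [h6]
    have h6 : M * B ≤ (k : ℝ) ^ (1 / 4 : ℝ) := by
      have h7 : (M * B) ^ 4 ≤ (k : ℝ) := by
        refine hk₀.trans ?_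
        exact_mod_cast (le_max_left _ _).trans hk
      have h8 : ((M * B) ^ 4) ^ (1 / 4 : ℝ) = M * B := by
        rw [← Real.rpow_natCast, ← Real.rpow_mul (by positivity)]
        norm_num
      rw [← h8]
      exact Real.rpow_le_rpow (by positivity) h7 (by norm_num)
    have h7 : (k : ℝ) ^ (1 / 4 : ℝ) * (k : ℝ) ^ (1 / 4 : ℝ) = Real.sqrt k := by
      rw [← Real.rpow_add hk0, Real.sqrt_eq_rpow]
      norm_num
    calc M * (8 * (L + 1) * (1 + y)) ≤ M * (B * (k : ℝ) ^ (1 / 4 : ℝ)) :=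
          mul_le_mul_of_nonneg_left h5 hM
      _ = M * B * (k : ℝ) ^ (1 / 4 : ℝ) := by ring
      _ ≤ (k : ℝ) ^ (1 / 4 : ℝ) * (k : ℝ) ^ (1 / 4 : ℝ) :=
          mul_le_mul_of_nonneg_right h6 (by positivity)
      _ = _ := h7

end Pool.Agent.H73.AY
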