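import Pool.Agent.H27.AZ.TypR

/-! Most formulas are typical, with a density that does not depend on the radius of the balls, and
an error for pairs that tends to `0` with `k`. -/

namespace Pool.Agent.H73.AY

open Finset Matrix Pool.Agent.H73.QA Pool.Agent.H73.AD Pool.Agent.H73.AZ

variable {n k : ℕ}

/-- large deviations of the number of common violated clauses are cheap for large `k` -/
theorem pair_small {δ c : ℝ} (r : ℕ) (hδ0 : 0 < δ) (hδ1 : δ < 1) (hc : 0 < c) :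
    ∃ k₁ : ℕ, ∀ k ≥ k₁, 1 ≤ k ∧ r ≤ k ∧
      ((k : ℝ) + 1) ^ r * (1 - δ) ^ (k - r) * Real.exp (2 * c * Real.sqrt k) ≤ c := by
  have hδ : 0 < 1 - δ := by linarith
  have hδ2 : 0 < 1 - δ / 2 := by linarith
  obtain ⟨ℓ, hℓ⟩ : ∃ ℓ : ℝ, ℓ = Real.log ((1 - δ / 2) / (1 - δ)) := ⟨_, rfl⟩
  have hℓ0 : 0 < ℓ := by
    rw [hℓ]
    refine Real.log_pos ?_
    rw [one_lt_div hδ]
    linarith
  have heℓ : Real.exp ℓ = (1 - δ / 2) / (1 - δ) := by
    rw [hℓ, Real.exp_log (div_pos hδ2 hδ)]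
  obtain ⟨η, hη⟩ : ∃ η : ℝ, η = ℓ / (2 * c) := ⟨_, rfl⟩
  have hη0 : 0 < η := by rw [hη]; positivity
  obtain ⟨K, hK⟩ : ∃ K : ℝ, K = Real.exp (2 * c * (1 / (4 * η))) := ⟨_, rfl⟩
  have hK0 : 0 < K := by rw [hK]; exact Real.exp_pos _
  have h1 := tendsto_pow_const_mul_const_pow_of_abs_lt_one r (r := 1 - δ / 2) (by
    rw [abs_of_pos hδ2]
    linarith)
  have h2 := (Filter.tendsto_add_atTop_iff_nat (f := fun n : ℕ => (n : ℝ) ^ r * (1 - δ / 2) ^ n)
    1).2 h1
  have h3 := h2.eventually_lt_const (show (0 : ℝ) < c * (1 - δ) ^ r * (1 - δ / 2) / K by positivity)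
  obtain ⟨k₁, hk₁⟩ := Filter.eventually_atTop.1 h3
  refine ⟨max k₁ (max r 1), fun k hk => ?_⟩
  have hrk : r ≤ k := (le_max_left r 1).trans ((le_max_right _ _).trans hk)
  have h1k : 1 ≤ k := (le_max_right r 1).trans ((le_max_right _ _).trans hk)
  refine ⟨h1k, hrk, ?_⟩
  have h4 := hk₁ k ((le_max_left _ _).trans hk)
  have hk0 : (0 : ℝ) ≤ k := Nat.cast_nonneg k
  have h5 : Real.sqrt k ≤ η * k + 1 / (4 * η) := by
    have h6 : Real.sqrt k ^ 2 = k := Real.sq_sqrt hk0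
    have h7 : 0 ≤ (2 * η * Real.sqrt k - 1) ^ 2 := sq_nonneg _
    have h8 : 4 * η * Real.sqrt k ≤ 4 * η * (η * k + 1 / (4 * η)) := by
      have h9 : 4 * η * (η * k + 1 / (4 * η)) = 4 * η ^ 2 * k + 1 := by field_simp
      rw [h9]
      nlinarith
    exact le_of_mul_le_mul_left h8 (by positivity)
  have h6 : Real.exp (2 * c * Real.sqrt k) ≤ ((1 - δ / 2) / (1 - δ)) ^ k * K := by
    rw [hK, ← heℓ, ← Real.exp_nat_mul, ← Real.exp_add]
    refine Real.exp_le_exp.2 ?_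
    have h7 : 2 * c * Real.sqrt k ≤ 2 * c * (η * k + 1 / (4 * η)) :=
      mul_le_mul_of_nonneg_left h5 (by positivity)
    refine h7.trans (le_of_eq ?_)
    rw [hη]
    field_simp
  have e1 : ∀ P a b : ℝ, 0 < a → 0 < b →
      P * a ^ (k - r) * ((b / a) ^ k * K) = P * b ^ (k + 1) * (K / (a ^ r * b)) := by
    intro P a b ha hb
    have h7 : a ^ k = a ^ (k - r) * a ^ r := by
      rw [← pow_add]
      congr 1
      omega
    rw [div_pow, h7, pow_succ]
    field_simp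
  have e2 : ∀ a b : ℝ, 0 < a → 0 < b → c * a ^ r * b / K * (K / (a ^ r * b)) = c := by
    intro a b ha hb
    field_simp
  calc ((k : ℝ) + 1) ^ r * (1 - δ) ^ (k - r) * Real.exp (2 * c * Real.sqrt k) ≤
        ((k : ℝ) + 1) ^ r * (1 - δ) ^ (k - r) * (((1 - δ / 2) / (1 - δ)) ^ k * K) :=
        mul_le_mul_of_nonneg_left h6 (by positivity)
    _ = ((k : ℝ) + 1) ^ r * (1 - δ / 2) ^ (k + 1) * (K / ((1 - δ) ^ r * (1 - δ / 2))) :=
        e1 _ _ _ hδ hδ2
    _ ≤ c * (1 - δ) ^ r * (1 - δ / 2) / K * (K / ((1 - δ) ^ r * (1 - δ / 2))) := by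
        refine mul_le_mul_of_nonneg_right ?_ (by positivity)
        push_cast at h4
        exact h4.le
    _ = c := e2 _ _ hδ hδ2

/-- most formulas are typical -/
theorem typB_count {ε : ℝ} (r : ℕ) (hε0 : 0 < ε) (hε1 : ε ≤ 1) :
    ∃ C : ℝ, 0 < C ∧ ∀ δ : ℝ, 0 < δ → δ < 1 →
      ∃ k₀ : ℕ, ∀ k ≥ k₀, ∀ n : ℕ, 1 ≤ n → ∀ m : ℕ, C * 2 ^ k * n ≤ m →
      (Nat.card {G : Fin m → Clause n k //
        ¬ (Typ ε δ (1 / Real.sqrt k) G ∧ TypR r δ (1 / Real.sqrt k) G)} : ℝ) ≤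
        Nat.card (Fin m → Clause n k) / 2 ^ n := by
  classical
  obtain ⟨c, hc⟩ : ∃ c : ℝ, c = ε ^ 2 / 4 := ⟨_, rfl⟩
  have hc0 : 0 < c := by rw [hc]; positivity
  have hc1 : c ≤ ε ^ 2 / 4 := hc.le
  refine ⟨4 / c, by positivity, fun δ hδ0 hδ1 => ?_⟩
  have hδ : 0 < 1 - δ := by linarith
  obtain ⟨k₁, hk₁⟩ := pair_small r hδ0 hδ1 hc0
  refine ⟨k₁, fun k hk n hn m hm => ?_⟩
  obtain ⟨h1k, hrk, hδk⟩ := hk₁ k hk
  have hk0 : (0 : ℝ) < k := by exact_mod_cast h1k
  have hsk : 0 < Real.sqrt k := Real.sqrt_pos.2 hk0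
  obtain ⟨ν, hν⟩ : ∃ ν : ℝ, ν = 1 / Real.sqrt k := ⟨_, rfl⟩
  have hν0 : 0 < ν := by rw [hν]; positivity
  rw [← hν]
  obtain ⟨θ, hθ⟩ : ∃ θ : ℝ, θ = 2 * c * Real.sqrt k := ⟨_, rfl⟩
  have hθ0 : 0 < θ := by rw [hθ]; positivity
  have hθν : θ * ν = 2 * c := by rw [hθ, hν]; field_simp
  rw [← hθ] at hδk
  obtain ⟨q, hq⟩ : ∃ q : ℝ, q = m / 2 ^ k := ⟨_, rfl⟩
  have hq0 : 0 ≤ q := by rw [hq]; positivity
  have h2k : (0 : ℝ) < 2 ^ k := by positivity
  have hqn : 4 * (n : ℝ) ≤ c * q := by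
    rw [hq]
    have h1 : 4 / c * 2 ^ k * n * (c / 2 ^ k) ≤ m * (c / 2 ^ k) :=
      mul_le_mul_of_nonneg_right hm (by positivity)
    have h2 : 4 / c * 2 ^ k * n * (c / 2 ^ k) = 4 * (n : ℝ) := by field_simp
    have h3 : (m : ℝ) * (c / 2 ^ k) = c * (m / 2 ^ k) := by ring
    rw [h2, h3] at h1
    exact h1
  obtain ⟨N, hN⟩ : ∃ N : ℝ, N = Fintype.card (Clause n k) := ⟨_, rfl⟩
  have hN0 : 0 ≤ N := by rw [hN]; exact Nat.cast_nonneg _
  have he : Real.exp 1 < 2.72 := by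
    have := Real.exp_one_lt_d9
    linarith
  have he1 : 1 < Real.exp 1 := by
    have := Real.exp_one_gt_d9
    linarith
  -- upper tail
  have hU : ∀ x : Cube n, ((univ.filter fun G : Fin m → Clause n k =>
      ε / 2 * ((1 + ε) * q) ≤ ε / 2 * cnt (fun c => Violates x c) G).card : ℝ) ≤
      N ^ m * Real.exp (-(c * q)) := by
    intro x
    have h1 := chern (fun c : Clause n k => Violates x c) m (ε / 2) (1 / 2 ^ k)
      (ε / 2 * ((1 + ε) * q)) (le_of_eq (by rw [card_viol]))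
    rw [← hN] at h1
    refine h1.trans (mul_le_mul_of_nonneg_left ?_ (by positivity))
    rw [Real.exp_le_exp]
    have h2 : Real.exp (ε / 2) - 1 ≤ ε / 2 + (ε / 2) ^ 2 := by
      have h3 := Real.abs_exp_sub_one_sub_id_le (x := ε / 2) (by
        rw [abs_of_pos (by positivity)]; linarith)
      have h4 := le_abs_self (Real.exp (ε / 2) - 1 - ε / 2)
      linarith
    have h3 : (m : ℝ) * (1 / 2 ^ k * (Real.exp (ε / 2) - 1)) = q * (Real.exp (ε / 2) - 1) := by
      rw [hq]; ring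
    rw [h3]
    have h4 : q * (Real.exp (ε / 2) - 1) ≤ q * (ε / 2 + (ε / 2) ^ 2) :=
      mul_le_mul_of_nonneg_left h2 hq0
    have h5 : c * q ≤ ε ^ 2 / 4 * q := mul_le_mul_of_nonneg_right hc1 hq0
    nlinarith
  -- lower tail
  have hD : ∀ x : Cube n, ((univ.filter fun G : Fin m → Clause n k =>
      -ε * ((1 - ε) * q) ≤ -ε * cnt (fun c => Violates x c) G).card : ℝ) ≤
      N ^ m * Real.exp (-(c * q)) := by
    intro x
    have h1 := chern (fun c : Clause n k => Violates x c) m (-ε) (1 / 2 ^ k)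
      (-ε * ((1 - ε) * q)) (le_of_eq (by rw [card_viol]))
    rw [← hN] at h1
    refine h1.trans (mul_le_mul_of_nonneg_left ?_ (by positivity))
    rw [Real.exp_le_exp]
    have h2 : Real.exp (-ε) - 1 ≤ -ε + ε ^ 2 / 2 := by
      have h1 := Real.quadratic_le_exp_of_nonneg hε0.le
      have h2 : Real.exp (-ε) * Real.exp ε = 1 := by rw [← Real.exp_add]; simp
      have h3 : 0 < Real.exp (-ε) := Real.exp_pos _
      have h4 : Real.exp (-ε) * (1 + ε + ε ^ 2 / 2) ≤ 1 :=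
        (mul_le_mul_of_nonneg_left h1 h3.le).trans h2.le
      have h5 : 1 ≤ (1 - ε + ε ^ 2 / 2) * (1 + ε + ε ^ 2 / 2) := by nlinarith [sq_nonneg (ε ^ 2)]
      have h6 : 0 < 1 + ε + ε ^ 2 / 2 := by positivity
      have h7 : Real.exp (-ε) * (1 + ε + ε ^ 2 / 2) ≤
          (1 - ε + ε ^ 2 / 2) * (1 + ε + ε ^ 2 / 2) := h4.trans h5
      have h8 := le_of_mul_le_mul_right h7 h6
      linarith
    have h3 : (m : ℝ) * (1 / 2 ^ k * (Real.exp (-ε) - 1)) = q * (Real.exp (-ε) - 1) := by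
      rw [hq]; ring
    rw [h3]
    have h4 : q * (Real.exp (-ε) - 1) ≤ q * (-ε + ε ^ 2 / 2) :=
      mul_le_mul_of_nonneg_left h2 hq0
    have h5 : c * q ≤ ε ^ 2 / 4 * q := mul_le_mul_of_nonneg_right hc1 hq0
    nlinarith [mul_nonneg hq0 (sq_nonneg ε)]
  -- few true literals
  have hT : ∀ x : Cube n, ((univ.filter fun G : Fin m → Clause n k =>
      1 * (2 * ((k : ℝ) + 1) ^ r * q) ≤ 1 * cnt (fun c => tl x c ≤ r) G).card : ℝ) ≤
      N ^ m * Real.exp (-(c * q)) := by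
    intro x
    have h1 := chern (fun c : Clause n k => tl x c ≤ r) m 1 (((k : ℝ) + 1) ^ r / 2 ^ k)
      (1 * (2 * ((k : ℝ) + 1) ^ r * q))
      (mul_le_mul_of_nonneg_right (card_tl r x) (by linarith))
    rw [← hN] at h1
    refine h1.trans (mul_le_mul_of_nonneg_left ?_ (by positivity))
    rw [Real.exp_le_exp]
    have h3 : (m : ℝ) * (((k : ℝ) + 1) ^ r / 2 ^ k * (Real.exp 1 - 1)) =
        q * ((k : ℝ) + 1) ^ r * (Real.exp 1 - 1) := by rw [hq]; ring
    rw [h3]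
    have h4 : q ≤ q * ((k : ℝ) + 1) ^ r := by
      have h5 : (1 : ℝ) ≤ ((k : ℝ) + 1) ^ r := one_le_pow₀ (by
        have : (0 : ℝ) ≤ k := Nat.cast_nonneg k
        linarith)
      calc q = q * 1 := (mul_one q).symm
        _ ≤ _ := mul_le_mul_of_nonneg_left h5 hq0
    have h5 : c ≤ 1 / 4 := by
      refine hc1.trans ?_
      have : ε ^ 2 ≤ 1 := pow_le_one₀ hε0.le hε1
      linarith
    have h6 : c * q ≤ 1 / 4 * q := mul_le_mul_of_nonneg_right h5 hq0
    have h7 : 1 / 4 * q ≤ (3 - Real.exp 1) * (q * ((k : ℝ) + 1) ^ r) := by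
      refine mul_le_mul (by linarith) h4 hq0 (by linarith)
    nlinarith
  -- pairs
  have hW : ∀ zx : Cube n × Cube n, zx.2 ∉ hball δ zx.1 →
      ((univ.filter fun G : Fin m → Clause n k =>
      θ * (ν * q) ≤ θ * cnt (fun c => Violates zx.1 c ∧ tl zx.2 c ≤ r) G).card : ℝ) ≤
      N ^ m * Real.exp (-(c * q)) := by
    intro zx hzx
    have he2 : 1 ≤ Real.exp θ := Real.one_le_exp hθ0.le
    have h1 := chern (fun c : Clause n k => Violates zx.1 c ∧ tl zx.2 c ≤ r) m θ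
      (((k : ℝ) + 1) ^ r * (1 - δ) ^ (k - r) / 2 ^ k) (θ * (ν * q))
      (mul_le_mul_of_nonneg_right (card_vtl r hrk hδ0 hδ1 zx.1 zx.2 hzx) (by linarith))
    rw [← hN] at h1
    refine h1.trans (mul_le_mul_of_nonneg_left ?_ (by positivity))
    rw [Real.exp_le_exp]
    have h3 : (m : ℝ) * (((k : ℝ) + 1) ^ r * (1 - δ) ^ (k - r) / 2 ^ k * (Real.exp θ - 1)) =
        q * (((k : ℝ) + 1) ^ r * (1 - δ) ^ (k - r) * (Real.exp θ - 1)) := by rw [hq]; ring
    rw [h3]
    have h4 : ((k : ℝ) + 1) ^ r * (1 - δ) ^ (k - r) * (Real.exp θ - 1) ≤ c :=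
      (mul_le_mul_of_nonneg_left (by linarith) (by positivity)).trans hδk
    have h5 : q * (((k : ℝ) + 1) ^ r * (1 - δ) ^ (k - r) * (Real.exp θ - 1)) ≤ q * c :=
      mul_le_mul_of_nonneg_left h4 hq0
    have h6 : θ * (ν * q) = 2 * c * q := by rw [← mul_assoc, hθν]
    rw [h6]
    linarith
  -- union
  have hsub : (univ.filter fun G : Fin m → Clause n k => ¬ (Typ ε δ ν G ∧ TypR r δ ν G)) ⊆
      (((univ : Finset (Cube n)).biUnion fun x => univ.filter fun G : Fin m → Clause n k =>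
        ε / 2 * ((1 + ε) * q) ≤ ε / 2 * cnt (fun c => Violates x c) G) ∪
      ((univ : Finset (Cube n)).biUnion fun x => univ.filter fun G : Fin m → Clause n k =>
        -ε * ((1 - ε) * q) ≤ -ε * cnt (fun c => Violates x c) G)) ∪
      (((univ : Finset (Cube n)).biUnion fun x => univ.filter fun G : Fin m → Clause n k =>
        1 * (2 * ((k : ℝ) + 1) ^ r * q) ≤ 1 * cnt (fun c => tl x c ≤ r) G) ∪
      ((univ.filter fun zx : Cube n × Cube n => zx.2 ∉ hball δ zx.1).biUnion fun zx =>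
        univ.filter fun G : Fin m → Clause n k =>
        θ * (ν * q) ≤ θ * cnt (fun c => Violates zx.1 c ∧ tl zx.2 c ≤ r) G)) := by
    intro G hG
    rw [mem_filter] at hG
    by_contra hno
    apply hG.2
    simp only [mem_union, mem_biUnion, mem_filter, mem_univ, true_and, not_or, not_exists,
      not_and, not_le] at hno
    obtain ⟨⟨n1, n2⟩, n3, n4⟩ := hno
    have hv : ∀ x, (cnt (fun c : Clause n k => Violates x c) G : ℝ) = viol G x := fun x => rfl
    have t4 : ∀ z x : Cube n, x ∉ hball δ z →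
        ((univ.filter fun j => Violates z (G j) ∧ tl x (G j) ≤ r).card : ℝ) ≤
          ν * (m / 2 ^ k) := by
      intro z x hx
      have a1 := n4 (z, x) hx
      rw [← hq]
      exact (lt_of_mul_lt_mul_left a1 hθ0.le).le
    refine ⟨⟨fun x => ?_, fun z x hx => ?_⟩, ⟨fun x => ?_, t4⟩⟩
    · rw [abs_le, ← hq]
      have a1 := n1 x
      have a2 := n2 x
      rw [hv] at a1 a2
      have a3 : (viol G x : ℝ) < (1 + ε) * q := lt_of_mul_lt_mul_left a1 (by positivity)
      have a4 : (1 - ε) * q < (viol G x : ℝ) := by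
        have a5 : ε * ((1 - ε) * q) < ε * viol G x := by linarith
        exact lt_of_mul_lt_mul_left a5 hε0.le
      constructor <;> linarith
    · refine le_trans ?_ (t4 z x hx)
      unfold Wn
      have a1 : (univ.filter fun j => Violates z (G j) ∧ Violates x (G j)) ⊆
          univ.filter fun j => Violates z (G j) ∧ tl x (G j) ≤ r := by
        intro j hj
        rw [mem_filter] at hj ⊢
        refine ⟨hj.1, hj.2.1, ?_⟩
        have a2 : tl x (G j) = 0 := by
          unfold tl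
          rw [card_eq_zero, filter_eq_empty_iff]
          intro i _
          push Not
          exact hj.2.2 i
        omega
      exact_mod_cast card_le_card a1
    · have a1 := n3 x
      rw [← hq]
      simp only [one_mul] at a1
      exact a1.le
  have hcardC : (Fintype.card (Cube n) : ℝ) = 2 ^ n := by simp
  have hE0 : 0 ≤ N ^ m * Real.exp (-(c * q)) := by positivity
  have hcard : ((univ.filter fun G : Fin m → Clause n k =>
      ¬ (Typ ε δ ν G ∧ TypR r δ ν G)).card : ℝ) ≤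
      (2 ^ n + 2 ^ n + (2 ^ n + 4 ^ n)) * (N ^ m * Real.exp (-(c * q))) := by
    have b2 := card_le_card hsub
    have b3 := b2.trans ((card_union_le _ _).trans (Nat.add_le_add (card_union_le _ _)
      (card_union_le _ _)))
    have b4 := b3.trans (Nat.add_le_add (Nat.add_le_add card_biUnion_le card_biUnion_le)
      (Nat.add_le_add card_biUnion_le card_biUnion_le))
    have b5 : ((univ.filter fun G : Fin m → Clause n k =>
        ¬ (Typ ε δ ν G ∧ TypR r δ ν G)).card : ℝ) ≤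
        (∑ x : Cube n, ((univ.filter fun G : Fin m → Clause n k =>
          ε / 2 * ((1 + ε) * q) ≤ ε / 2 * cnt (fun c => Violates x c) G).card : ℝ) +
        ∑ x : Cube n, ((univ.filter fun G : Fin m → Clause n k =>
          -ε * ((1 - ε) * q) ≤ -ε * cnt (fun c => Violates x c) G).card : ℝ)) +
        (∑ x : Cube n, ((univ.filter fun G : Fin m → Clause n k =>
          1 * (2 * ((k : ℝ) + 1) ^ r * q) ≤ 1 * cnt (fun c => tl x c ≤ r) G).card : ℝ) +
        ∑ zx ∈ univ.filter (fun zx : Cube n × Cube n => zx.2 ∉ hball δ zx.1),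
          ((univ.filter fun G : Fin m → Clause n k =>
          θ * (ν * q) ≤ θ * cnt (fun c => Violates zx.1 c ∧ tl zx.2 c ≤ r) G).card : ℝ)) := by
      exact_mod_cast b4
    refine b5.trans ?_
    have b6 : ((2 : ℝ) ^ n + 2 ^ n + (2 ^ n + 4 ^ n)) * (N ^ m * Real.exp (-(c * q))) =
        (2 ^ n * (N ^ m * Real.exp (-(c * q))) + 2 ^ n * (N ^ m * Real.exp (-(c * q)))) +
        (2 ^ n * (N ^ m * Real.exp (-(c * q))) + 4 ^ n * (N ^ m * Real.exp (-(c * q)))) := by
      ring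
    rw [b6]
    refine add_le_add (add_le_add ?_ ?_) (add_le_add ?_ ?_)
    · refine (sum_le_sum fun x _ => hU x).trans (le_of_eq ?_)
      rw [sum_const, card_univ, nsmul_eq_mul, hcardC]
    · refine (sum_le_sum fun x _ => hD x).trans (le_of_eq ?_)
      rw [sum_const, card_univ, nsmul_eq_mul, hcardC]
    · refine (sum_le_sum fun x _ => hT x).trans (le_of_eq ?_)
      rw [sum_const, card_univ, nsmul_eq_mul, hcardC]
    · refine (sum_le_sum fun x hx => hW x (mem_filter.1 hx).2).trans ?_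
      rw [sum_const, nsmul_eq_mul]
      refine mul_le_mul_of_nonneg_right ?_ hE0
      have b5 : (univ.filter fun zx : Cube n × Cube n => zx.2 ∉ hball δ zx.1).card ≤
          Fintype.card (Cube n × Cube n) := card_filter_le _ _
      have b6 : (Fintype.card (Cube n × Cube n) : ℝ) = 4 ^ n := by
        rw [Fintype.card_prod]
        push_cast
        rw [hcardC, ← mul_pow]
        norm_num
      rw [← b6]
      exact_mod_cast b5
  have hfin : ((2 : ℝ) ^ n + 2 ^ n + (2 ^ n + 4 ^ n)) * (N ^ m * Real.exp (-(c * q))) ≤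
      N ^ m / 2 ^ n := by
    have f1 : Real.exp (-(c * q)) ≤ Real.exp (-(4 * (n : ℝ))) := by
      rw [Real.exp_le_exp]
      linarith
    have f2 : Real.exp (-(4 * (n : ℝ))) ≤ 1 / 24 ^ n := by
      rw [Real.exp_neg, ← one_div]
      refine one_div_le_one_div_of_le (by positivity) ?_
      have f3 : (24 : ℝ) ≤ Real.exp 4 := by
        have f4 := Real.exp_one_gt_d9
        have f5 : Real.exp 4 = Real.exp 1 ^ 4 := by
          rw [← Real.exp_nat_mul]
          norm_num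
        rw [f5]
        have f6 : (2.7 : ℝ) ^ 4 ≤ Real.exp 1 ^ 4 :=
          pow_le_pow_left₀ (by norm_num) (by linarith) 4
        refine le_trans (by norm_num) f6
      calc (24 : ℝ) ^ n ≤ Real.exp 4 ^ n := pow_le_pow_left₀ (by norm_num) f3 n
        _ = Real.exp (4 * n) := by rw [← Real.exp_nat_mul]; ring_nf
    have f4 : (3 : ℝ) ≤ 3 ^ n := by
      calc (3 : ℝ) = 3 ^ 1 := by norm_num
        _ ≤ 3 ^ n := pow_le_pow_right₀ (by norm_num) hn
    have f4' : (2 : ℝ) ≤ 2 ^ n := by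
      calc (2 : ℝ) = 2 ^ 1 := by norm_num
        _ ≤ 2 ^ n := pow_le_pow_right₀ (by norm_num) hn
    have f3 : 2 * (2 : ℝ) ^ n ≤ 4 ^ n := by
      have h4 : (4 : ℝ) ^ n = 2 ^ n * 2 ^ n := by rw [← mul_pow]; norm_num
      rw [h4]
      exact mul_le_mul_of_nonneg_right f4' (by positivity)
    have hM : 0 ≤ N ^ m := by positivity
    have f5 : (2 : ℝ) ^ n + 2 ^ n + (2 ^ n + 4 ^ n) ≤ 3 ^ n * 4 ^ n := by
      have h4 : (0 : ℝ) < 4 ^ n := by positivity
      have h5 : 3 * (4 : ℝ) ^ n ≤ 3 ^ n * 4 ^ n := mul_le_mul_of_nonneg_right f4 h4.le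
      have h6 : (0 : ℝ) < 2 ^ n := by positivity
      linarith
    calc ((2 : ℝ) ^ n + 2 ^ n + (2 ^ n + 4 ^ n)) * (N ^ m * Real.exp (-(c * q)))
        ≤ (3 ^ n * 4 ^ n) * (N ^ m * (1 / 24 ^ n)) := by
          refine mul_le_mul f5 (mul_le_mul_of_nonneg_left (f1.trans f2) hM) (by positivity)
            (by positivity)
      _ = N ^ m / 2 ^ n := by
          rw [← mul_pow]
          have : (24 : ℝ) ^ n = (3 * 4) ^ n * 2 ^ n := by rw [← mul_pow]; norm_num
          rw [this]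
          field_simp
  have e1 : (Nat.card {G : Fin m → Clause n k // ¬ (Typ ε δ ν G ∧ TypR r δ ν G)} : ℝ) =
      ((univ.filter fun G : Fin m → Clause n k => ¬ (Typ ε δ ν G ∧ TypR r δ ν G)).card : ℝ) := by
    rw [Nat.card_eq_fintype_card, Fintype.card_subtype]
  have e2 : (Nat.card (Fin m → Clause n k) : ℝ) = N ^ m := by
    rw [Nat.card_eq_fintype_card, Fintype.card_fun, Fintype.card_fin, hN]
    push_cast
    rfl
  rw [e1, e2]
  exact hcard.trans hfin

end Pool.Agent.H73.AY
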