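import Pool.Agent.H73.AY.Num
import Pool.Agent.H73.AY.TypB
import Pool.Agent.H73.AY.GrdK

/-! The theorem. -/

namespace Pool.Agent.H73.AY

open Finset Matrix Pool.Agent.H73.QA Pool.Agent.H73.AD Pool.Agent.H73.AZ

theorem main (κ Λ t : ℝ) (r : ℕ) (hκ : 0 < κ) (hκ1 : κ ≤ 1) (hΛ : 0 ≤ Λ) (ht : 0 < t) :
    ∃ C : ℝ, 0 < C ∧ ∀ α e : ℝ, 0 ≤ α → 0 < e →
      ∃ c : ℝ, 0 < c ∧ ∃ k₀ n₀ : ℕ, ∀ k ≥ k₀, ∀ n ≥ n₀, ∀ m : ℕ, C * 2 ^ k * n ≤ m →
      (Nat.card {G : Fin m → Clause n k // ¬ ∀ (Y : Type) (_ : Fintype Y) (_ : DecidableEq Y)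
        (p q : ℕ) (w : Fin p → List (Letter n m Y)) (A : Set (Fin p → ℝ))
        (T : Fin q → List (Gate n p Y)) (u v : ℝ), 0 ≤ v →
        (p ≤ c * n ∨ (p ≤ (2 : ℝ) ^ (c * n) ∧ Cov c n A)) → q ≤ (2 : ℝ) ^ (c * n) →
        (∀ i, (w i).length ≤ r ∧ ∀ l ∈ w i, l.Ok t r G) →
        (∀ j, COk t G ((k : ℝ) ^ c * n) (c * n) (2 ^ (v * n)) (T j)) →
        (Nat.card {z : Cube n // ¬ Hard α κ Λ t u A G w T z} : ℝ) ≤
          2 ^ ((α + 2 * u + 2 * v + e) * n)} : ℝ)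
      ≤ Nat.card (Fin m → Clause n k) / 2 ^ n := by
  obtain ⟨M0, hM0⟩ : ∃ M0 : ℝ, M0 = Λ * (r * 2 ^ (r + 1)) := ⟨_, rfl⟩
  have hM00 : 0 ≤ M0 := by rw [hM0]; positivity
  obtain ⟨M1, hM1⟩ : ∃ M1 : ℝ, M1 = r * 2 ^ (r + 1) := ⟨_, rfl⟩
  have hM10 : 0 ≤ M1 := by rw [hM1]; positivity
  obtain ⟨ε, hε⟩ : ∃ ε : ℝ, ε = min (κ / 16 / (M0 + 1)) (min 1 (t / 4)) := ⟨_, rfl⟩
  have hε0 : 0 < ε := by
    rw [hε]; exact lt_min (by positivity) (lt_min one_pos (by linarith))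
  have hε1 : M0 * ε ≤ κ / 16 := by
    have h1 : ε ≤ κ / 16 / (M0 + 1) := by rw [hε]; exact min_le_left _ _
    rw [le_div_iff₀ (by linarith)] at h1
    have h2 : M0 * ε = ε * (M0 + 1) - ε := by ring
    rw [h2]
    linarith
  have hε2 : ε ≤ 1 := by rw [hε]; exact (min_le_right _ _).trans (min_le_left _ _)
  have hε3 : ε ≤ t / 4 := by rw [hε]; exact (min_le_right _ _).trans (min_le_right _ _)
  obtain ⟨C, hC0, hCC⟩ := typB_count (ε := ε) r hε0 hε2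
  refine ⟨C, hC0, fun α e hα he => ?_⟩
  -- half of `e` pays for the oracles
  obtain ⟨e', he'⟩ : ∃ e' : ℝ, e' = e / 2 := ⟨_, rfl⟩
  have he0 : 0 < e' := by linarith
  obtain ⟨Q, σ, K1, hQ1, hσ0, hσ1, hK1, hK2, hK3, hθ⟩ :=
    AZ.params (e1 := e' / 16) (κ := κ) (Λ := Λ) r (by linarith) hκ hΛ
  obtain ⟨δ, hδ0, hδ1, hball⟩ := ball_in (β := e' / 16) (by linarith)
  obtain ⟨k1, hC⟩ := hCC δ hδ0 (by linarith)
  -- the nets
  have h2r : (1 : ℝ) ≤ 2 ^ r := one_le_pow₀ one_le_two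
  obtain ⟨ς, hς⟩ : ∃ ς : ℝ, ς = σ / 2 ^ r := ⟨_, rfl⟩
  have hς0 : 0 < ς := by rw [hς]; positivity
  have hς1 : ς ≤ σ := by rw [hς]; exact div_le_self hσ0.le h2r
  have hρ2 : 4 * 2 ^ r * (ς / 8) ≤ σ / 2 := by
    rw [hς]
    refine le_of_eq ?_
    field_simp
    ring
  have hB0 : 0 ≤ Λ * 2 ^ (r + 1) := by positivity
  obtain ⟨Is, ns, -, hs1, hs2⟩ := exists_net (ζ := ς) (A := -(Λ * 2 ^ (r + 1)))
    (B := Λ * 2 ^ (r + 1)) hς0 (by linarith)
  -- large `k`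
  obtain ⟨τ, hτ⟩ : ∃ τ : ℝ, τ = min (min (σ / 2) (κ / 8) / (M0 + 1)) (t / 4) := ⟨_, rfl⟩
  have hτ0 : 0 < τ := by
    rw [hτ]
    exact lt_min (div_pos (lt_min (by linarith) (by linarith)) (by linarith)) (by linarith)
  have hτM : M0 * τ ≤ min (σ / 2) (κ / 8) := by
    have h1 : τ ≤ min (σ / 2) (κ / 8) / (M0 + 1) := by rw [hτ]; exact min_le_left _ _
    rw [le_div_iff₀ (by linarith)] at h1
    have h2 : M0 * τ = τ * (M0 + 1) - τ := by ring
    rw [h2]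
    linarith
  have hτt : τ ≤ t / 4 := by rw [hτ]; exact min_le_right _ _
  obtain ⟨k2, hk2⟩ := exists_nat_ge ((3 / τ) ^ 2)
  obtain ⟨cg, k3, ng, hcg, hcg1, hgrd⟩ := grd_k (e := e' / 128) (M := 3 * M1) r (by linarith)
    (by linarith)
  obtain ⟨c, hc⟩ : ∃ c : ℝ, c = min (min (e' / 16 / (8 * Λ / ς + 2)) cg)
      (min (e' / 512) (ς / 8)) := ⟨_, rfl⟩
  have hc0 : 0 < c := by
    rw [hc]
    exact lt_min (lt_min (by positivity) hcg) (lt_min (by positivity) (by positivity))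
  have hc1 : c ≤ e' / 16 / (8 * Λ / ς + 2) := by
    rw [hc]; exact (min_le_left _ _).trans (min_le_left _ _)
  have hc4 : c ≤ cg := by
    rw [hc]; exact (min_le_left _ _).trans (min_le_right _ _)
  have hc2 : c ≤ e' / 512 := by
    rw [hc]; exact (min_le_right _ _).trans (min_le_left _ _)
  have hc3 : c ≤ ς / 8 := by
    rw [hc]; exact (min_le_right _ _).trans (min_le_right _ _)
  obtain ⟨n1, hn1⟩ := lin_le_exp (c := e' / 16) (by linarith) (A := 1) zero_le_one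
  obtain ⟨n2, hn2⟩ := lin_le_exp (c := e' / 16) (by linarith)
    (A := 4 * 4 * 4 * 4 * 1 * (Is.card : ℝ) ^ 2 *
      (25 / κ ^ 2 * 16 * K1 ^ 4) * ((1600 * (Λ + 1) * 4 ^ r) / κ) ^ 2)
    (by positivity)
  obtain ⟨n3, hn3⟩ := lin_le_exp (c := e' / 512) (by linarith)
    (A := 6 * (r + 1) * 16 ^ r) (by positivity)
  obtain ⟨n4, hn4⟩ := lin_le_exp (c := e' / 512) (by linarith)
    (A := 2 + (1 + c) * 4 ^ (r + 1)) (by positivity)
  obtain ⟨n5, hn5⟩ := lin_le_exp (c := e') he0 (A := 4) (by norm_num)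
  obtain ⟨n6, hn6⟩ := lin_le_exp (c := e' / 512) (by linarith) (A := 1) zero_le_one
  refine ⟨c, hc0, max 1 (max k1 (max k2 k3)), 1 + n1 + n2 + n3 + n4 + n5 + n6 + ng,
    fun k hk n hn m hm => ?_⟩
  have hkk1 : 1 ≤ k := (le_max_left _ _).trans hk
  have hkk2 : k1 ≤ k := (le_max_left _ _).trans ((le_max_right _ _).trans hk)
  have hkk3 : k2 ≤ k :=
    (le_max_left _ _).trans ((le_max_right _ _).trans ((le_max_right _ _).trans hk))
  have hkk4 : k3 ≤ k :=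
    (le_max_right _ _).trans ((le_max_right _ _).trans ((le_max_right _ _).trans hk))
  have hn0 : 1 ≤ n := by omega
  have hn0' : (1 : ℝ) ≤ n := by exact_mod_cast hn0
  have hm0 : 0 < m := by
    have h1 : 0 < C * 2 ^ k * n := by positivity
    have h2 : (0 : ℝ) < m := h1.trans_le hm
    exact_mod_cast h2
  by_cases hkn : k ≤ n
  swap
  · -- there are no clauses
    have hemp : IsEmpty (Clause n k) := by
      refine ⟨fun cl => hkn ?_⟩
      have h1 := Fintype.card_le_of_injective cl.1 cl.1.injective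
      simpa using h1
    have hempG : IsEmpty (Fin m → Clause n k) := ⟨fun G => hemp.false (G ⟨0, hm0⟩)⟩
    rw [Nat.card_of_isEmpty, Nat.card_of_isEmpty]
    simp
  have h1 := hC k hkk2 n hn0 m hm
  refine le_trans ?_ h1
  have hkR : (1 : ℝ) ≤ k := by exact_mod_cast hkk1
  have hk0 : (0 : ℝ) < k := by linarith
  have hsk : 0 < Real.sqrt k := Real.sqrt_pos.2 hk0
  obtain ⟨ν, hν⟩ : ∃ ν : ℝ, ν = 1 / Real.sqrt k := ⟨_, rfl⟩
  have hν0 : 0 < ν := by rw [hν]; positivity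
  rw [← hν]
  have h2k : 2 / Real.sqrt (2 ^ k) ≤ 2 / Real.sqrt k := by
    refine div_le_div_of_nonneg_left (by norm_num) hsk (Real.sqrt_le_sqrt ?_)
    exact_mod_cast (Nat.lt_two_pow_self (n := k)).le
  have hsum : ν + 2 / Real.sqrt (2 ^ k) ≤ 3 / Real.sqrt k := by
    have h3 : 3 / Real.sqrt k = 1 / Real.sqrt k + 2 / Real.sqrt k := by ring
    rw [h3, hν]
    linarith
  have hkτ : 3 / Real.sqrt k ≤ τ := by
    have h3 : (3 / τ) ^ 2 ≤ k := by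
      refine hk2.trans ?_
      exact_mod_cast hkk3
    have h4 : 3 / τ ≤ Real.sqrt k := Real.le_sqrt_of_sq_le h3
    rw [div_le_iff₀ hsk]
    rw [div_le_iff₀ hτ0] at h4
    linarith
  have hντ : ν ≤ τ := by
    have h3 : 0 ≤ 2 / Real.sqrt (2 ^ k) := by positivity
    linarith
  have hsumM : M0 * (ν + 2 / Real.sqrt (2 ^ k)) ≤ min (σ / 2) (κ / 8) :=
    (mul_le_mul_of_nonneg_left (hsum.trans hkτ) hM00).trans hτM
  have hsum1 : Λ * (r * 2 ^ (r + 1)) * (ν + 2 / Real.sqrt (2 ^ k)) ≤ σ / 2 := by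
    rw [← hM0]
    exact hsumM.trans (min_le_left _ _)
  have hsum2 : Λ * (r * 2 ^ (r + 1)) * (ν + ε + 2 / Real.sqrt (2 ^ k)) ≤ κ / 4 := by
    rw [← hM0]
    have h3 := hsumM.trans (min_le_right _ _)
    have h4 : M0 * (ν + ε + 2 / Real.sqrt (2 ^ k)) =
        M0 * (ν + 2 / Real.sqrt (2 ^ k)) + M0 * ε := by ring
    rw [h4]
    linarith
  have hs8 : Λ * (r * 2 ^ (r + 1)) * ε ≤ κ / 8 := by
    rw [← hM0]
    linarith
  -- the action
  obtain ⟨L, hL⟩ : ∃ L : ℝ, L = (k : ℝ) ^ c := ⟨_, rfl⟩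
  rw [← hL]
  have hL0 : 0 ≤ L := by rw [hL]; positivity
  have hLg : L ≤ (k : ℝ) ^ cg := by
    rw [hL]
    exact Real.rpow_le_rpow_of_exponent_le hkR hc4
  have hLn : L ≤ n := by
    have hnk : (k : ℝ) ≤ n := by exact_mod_cast hkn
    calc L ≤ (k : ℝ) ^ (1 : ℝ) := by
          rw [hL]
          exact Real.rpow_le_rpow_of_exponent_le hkR (hc4.trans hcg1)
      _ = k := Real.rpow_one _
      _ ≤ n := hnk
  have hgr : ∀ β : ℝ, 1 ≤ β → Grd ((r * 2 ^ (r + 1)) * (ν + 2 / Real.sqrt (2 ^ k))) β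
      (L * n) (c * n) (2 ^ (e' / 128 * n)) n r := fun β hβ =>
    hgrd k hkk4 n (by omega) hkn L _ β (c * n) hL0 hLg (by positivity) (by
      rw [← hM1]
      calc M1 * (ν + 2 / Real.sqrt (2 ^ k)) ≤ M1 * (3 / Real.sqrt k) :=
            mul_le_mul_of_nonneg_left hsum hM10
        _ = 3 * M1 / Real.sqrt k := by ring) hβ (by positivity)
      (mul_le_mul_of_nonneg_right hc4 (Nat.cast_nonneg _))
  have hn4' : (2 + (L + c) * 4 ^ (r + 1)) * ((n : ℝ) + 1) ≤ 2 ^ (e' / 256 * n) := by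
    have h3 := hn4 n (by omega)
    have h4 := hn6 n (by omega)
    rw [one_mul] at h4
    have h5 : (2 : ℝ) ^ (e' / 256 * n) = 2 ^ (e' / 512 * n) * 2 ^ (e' / 512 * n) := by
      rw [rpow_add_n]
      congr 2
      ring
    have h6 : 2 + (L + c) * 4 ^ (r + 1) ≤ (2 + (1 + c) * 4 ^ (r + 1)) * ((n : ℝ) + 1) := by
      have h7 : (0 : ℝ) < 4 ^ (r + 1) := by positivity
      have h8 : (L + c) * 4 ^ (r + 1) ≤ (n + c) * 4 ^ (r + 1) :=
        mul_le_mul_of_nonneg_right (by linarith) h7.le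
      have h9 : 0 ≤ c * n * (4 : ℝ) ^ (r + 1) := by positivity
      nlinarith
    rw [h5]
    calc (2 + (L + c) * 4 ^ (r + 1)) * ((n : ℝ) + 1) ≤
          ((2 + (1 + c) * 4 ^ (r + 1)) * ((n : ℝ) + 1)) * ((n : ℝ) + 1) :=
          mul_le_mul_of_nonneg_right h6 (by linarith)
      _ ≤ _ := mul_le_mul h3 h4 (by linarith) (by positivity)
  have h2 : Nat.card {G : Fin m → Clause n k // ¬ ∀ (Y : Type) (_ : Fintype Y) (_ : DecidableEq Y)
        (p q : ℕ) (w : Fin p → List (Letter n m Y)) (A : Set (Fin p → ℝ))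
        (T : Fin q → List (Gate n p Y)) (u v : ℝ), 0 ≤ v →
        (p ≤ c * n ∨ (p ≤ (2 : ℝ) ^ (c * n) ∧ Cov c n A)) → q ≤ (2 : ℝ) ^ (c * n) →
        (∀ i, (w i).length ≤ r ∧ ∀ l ∈ w i, l.Ok t r G) →
        (∀ j, COk t G (L * n) (c * n) (2 ^ (v * n)) (T j)) →
        (Nat.card {z : Cube n // ¬ Hard α κ Λ t u A G w T z} : ℝ) ≤
          2 ^ ((α + 2 * u + 2 * v + e) * n)} ≤
      Nat.card {G : Fin m → Clause n k // ¬ (Typ ε δ ν G ∧ TypR r δ ν G)} := by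
    refine Nat.card_le_card_of_injective (fun G => ⟨G.1, fun hG => G.2 ?_⟩) fun G G' h =>
      Subtype.ext (congrArg (fun x => x.1) h)
    intro Y _ _ p q w A T u v hv hp hq hw hT
    have hS : Std ε δ ν t r G.1 := ⟨hm0, hε0.le, hε2, hν0.le, by linarith, hG.1, hG.2⟩
    have hp' : (p : ℝ) ≤ 2 ^ (c * n) := by
      rcases hp with hp | hp
      · exact hp.trans AZ.le_two_rpow
      · exact hp.1
    obtain ⟨K, _, Ic, cell, bx, hN, hNc⟩ : ∃ (K : Type) (_ : DecidableEq K) (Ic : Finset K)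
        (cell : (Fin p → ℝ) → K) (bx : K → Fin p → ℝ), Nets A Λ (ς / 8) ς r Ic Is cell bx ns ∧
        (Ic.card : ℝ) ≤ 2 * 2 ^ (e' / 16 * n) := by
      rcases hp with hp | hp
      · exact nets_few hΛ hς0 he0.le hc0.le hc1 hp hs1 hs2
      · exact nets_cov hς0 he0.le hc0.le hc3 (by linarith) hp.2 hs1 hs2
    have hN' : Nets A Λ (ς / 8) σ r Ic Is cell bx ns :=
      ⟨hN.c1, hN.c2, hN.b0, hN.b1, hN.s1, fun x y h => (hN.s2 x y h).trans hς1⟩
    have h5 := one_formula (ε := ε) (δ := δ) (ν := ν) (σ := σ) (ρ := ς / 8) (K1 := K1) (Q := Q)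
      hα hκ hκ1 hΛ hL0 he0 hQ1 hσ0 hK1 hK2 hK3 hθ hball (by linarith) (by linarith) hρ2 hs8
      hsum1 hsum2 (hn1 n (by omega)) hc0 hc2
      (hn3 n (by omega)) hn4' hgr hS hN' hNc (by
        have h3 := hn2 n (by omega)
        refine le_trans ?_ h3
        have h4 : (0 : ℝ) ≤ 4 * 4 * 4 * 4 * 1 * (Is.card : ℝ) ^ 2 *
            (25 / κ ^ 2 * 16 * K1 ^ 4) * ((1600 * (Λ + 1) * 4 ^ r) / κ) ^ 2 := by
          positivity
        exact le_mul_of_one_le_right h4 (by linarith)) w T u (N := 2 ^ (v * n)) (by positivity)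
      hp' hq hw hT
    refine h5.trans ?_
    -- the oracles
    have hV : (1 : ℝ) ≤ 2 ^ (v * n) := Real.one_le_rpow one_le_two (by positivity)
    have h6 : (1 + (2 : ℝ) ^ (v * n)) ^ 2 ≤ 4 * 2 ^ (2 * v * n) := by
      have h7 : ((2 : ℝ) ^ (v * n)) ^ 2 = 2 ^ (2 * v * n) := rpow_sq_n v n
      rw [← h7]
      have h9 : (1 + (2 : ℝ) ^ (v * n)) ^ 2 ≤ (2 * 2 ^ (v * n)) ^ 2 :=
        pow_le_pow_left₀ (by positivity) (by linarith) 2
      refine h9.trans (le_of_eq ?_)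
      ring
    have h8 : (4 : ℝ) ≤ 2 ^ (e' * n) := by
      have := hn5 n (by omega)
      linarith
    calc (1 + (2 : ℝ) ^ (v * n)) ^ 2 * 2 ^ ((α + 2 * u + e') * n) ≤
          (2 ^ (e' * n) * 2 ^ (2 * v * n)) * 2 ^ ((α + 2 * u + e') * n) := by
          refine mul_le_mul_of_nonneg_right (h6.trans ?_) (by positivity)
          exact mul_le_mul_of_nonneg_right h8 (by positivity)
      _ = 2 ^ ((α + 2 * u + 2 * v + e) * n) := by
          rw [rpow_add_n, rpow_add_n]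
          congr 2
          rw [he']
          ring
  exact_mod_cast h2

end Pool.Agent.H73.AY
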