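import Pool.Agent.H73.AY.Graded
import Pool.Agent.H73.AY.Circ
import Pool.Agent.H73.AZ.Fun
import Pool.Agent.H73.AY.ExpSub
import Pool.Agent.H73.AY.Bas

/-! Flattened circuits as products of steps. -/

namespace Pool.Agent.H73.AY

open Finset Matrix Pool.Agent.H73.QA Pool.Agent.H73.AD Pool.Agent.H73.AZ
open Pool.Agent.H73.AX (GoodP GoodOpP)

set_option linter.unusedSectionVars false

section abstractrun

variable {Z : Type} [Fintype Z] {E : Type} [NormedAddCommGroup E] [NormedSpace ℂ E] {β : ℝ}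

theorem run_append (l1 l2 : List (Step Z E)) (v : Z → E) :
    run (l1 ++ l2) v = run l1 (run l2 v) := by
  unfold run
  rw [List.foldr_append]

theorem run_replicate (M : ℕ) (s : Step Z E) (v : Z → E) (z : Z) :
    run (List.replicate M s) v z = ((s.V z + s.R z) ^ M) (v z) := by
  induction M with
  | zero => rfl
  | succ M ih =>
    have h1 : run (List.replicate (M + 1) s) v z =
        s.V z (run (List.replicate M s) v z) + s.R z (run (List.replicate M s) v z) := rfl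
    rw [h1, ih, pow_succ']
    rfl

theorem sd_append (l1 l2 : List (Step Z E)) : sd (l1 ++ l2) = sd l1 + sd l2 := by
  unfold sd; rw [List.map_append, List.sum_append]
theorem sρ_append (l1 l2 : List (Step Z E)) : sρ (l1 ++ l2) = sρ l1 + sρ l2 := by
  unfold sρ; rw [List.map_append, List.sum_append]
theorem sν_append (l1 l2 : List (Step Z E)) : sν (l1 ++ l2) = sν l1 + sν l2 := by
  unfold sν; rw [List.map_append, List.sum_append]
theorem sd_replicate (M : ℕ) (s : Step Z E) : sd (List.replicate M s) = M * s.d := by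
  unfold sd; rw [List.map_replicate, List.sum_replicate, nsmul_eq_mul]
theorem sρ_replicate (M : ℕ) (s : Step Z E) : sρ (List.replicate M s) = M * s.ρ := by
  unfold sρ; rw [List.map_replicate, List.sum_replicate, nsmul_eq_mul]
theorem sν_replicate (M : ℕ) (s : Step Z E) : sν (List.replicate M s) = M * s.ν := by
  unfold sν; rw [List.map_replicate, List.sum_replicate, nsmul_eq_mul]

theorem GoodOpP.add {K K' : ℝ} {X X' : Z → E →ₗ[ℂ] E} (h : GoodOpP β K X)
    (h' : GoodOpP β K' X') : GoodOpP β (K + K') (fun z => X z + X' z) := by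
  refine ⟨add_nonneg h.1 h'.1, fun c v hc hv => ?_⟩
  rw [add_mul]
  exact GoodP.add (h.2 c v hc hv) (h'.2 c v hc hv)

/-- a contraction that does not depend on the parameter -/
theorem fixed_step (hβ : 0 ≤ β) (A : E →ₗ[ℂ] E) (hA : ∀ u, ‖A u‖ ≤ ‖u‖) :
    Step.Ok β (⟨fun _ => A, fun _ => 0, 0, 0, 0⟩ : Step Z E) := by
  refine ⟨le_refl (0 : ℝ), le_refl (0 : ℝ), le_refl (0 : ℝ), ?_, ?_, fun z u => ?_,
    fun z u => ?_, fun z u => ?_⟩
  · show GoodOpP β (1 + 0) fun _ : Z => A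
    rw [add_zero]
    exact AX.GoodOp.plus hβ (goodOp_fixed zero_le_one A fun u => by rw [one_mul]; exact hA u)
  · show GoodOpP β 0 fun _ : Z => (0 : E →ₗ[ℂ] E)
    exact AX.GoodOp.plus hβ (goodOp_fixed (le_refl (0 : ℝ)) (0 : E →ₗ[ℂ] E) fun u => by simp)
  · show ‖A u‖ ≤ (1 + 0) * ‖u‖
    rw [add_zero, one_mul]
    exact hA u
  · show ‖(0 : E →ₗ[ℂ] E) u‖ ≤ 0 * ‖u‖
    simp
  · show ‖A u + (0 : E →ₗ[ℂ] E) u‖ ≤ ‖u‖
    rw [LinearMap.zero_apply, add_zero]
    exact hA u

end abstractrun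

variable {n k m p q : ℕ} {Y : Type} [Fintype Y] [DecidableEq Y] {r : ℕ}
variable {G : Fin m → Clause n k} {ε δ ν t β : ℝ}

theorem ham_smul (f : Letter n m Y → Op n Y) (w : Fin p → List (Letter n m Y))
    (a : Fin p → ℝ) (c : ℝ) : (c : ℂ) • Ham f w a = Ham f w fun i => a i * c := by
  unfold Ham
  rw [smul_sum]
  refine sum_congr rfl fun i _ => ?_
  rw [smul_smul]
  congr 1
  push_cast
  ring

theorem ham_sub (f : Letter n m Y → Op n Y) (w : Fin p → List (Letter n m Y))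
    (a b : Fin p → ℝ) : Ham f w a - Ham f w b = Ham f w fun i => a i - b i := by
  unfold Ham
  rw [← sum_sub_distrib]
  refine sum_congr rfl fun i _ => ?_
  rw [← sub_smul]
  congr 1
  push_cast
  ring

section good

variable {Z : Type} [Fintype Z]

theorem goodOp_hamS (hS : Std ε δ ν t r G) (hβ : 0 ≤ β) (ζ : Z → Cube n)
    (hB : ∀ x, ((univ.filter fun z => x ∈ hball δ (ζ z)).card : ℝ) ≤ β ^ 2)
    (w : Fin p → List (Letter n m Y)) (hw : ∀ i, ∀ l ∈ w i, l.Ok t r G)
    (hr : ∀ i, (w i).length ≤ r) (a : Fin p → Cube n → ℝ) (s : Fin p → ℝ)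
    (hs : ∀ i z, |a i z| ≤ s i) {S : ℝ} (hS' : ∑ i, s i ≤ S) :
    GoodOp β (2 * 16 ^ r * S)
      (fun z => lin (Ham (Letter.flt G δ (ζ z)) w fun i => a i (ζ z))) := by
  refine (goodOp_hamX hS hβ ζ hB w hw hr a).mono hβ ?_
  refine mul_le_mul_of_nonneg_left (le_trans (sum_le_sum fun i _ => ?_) hS') (by positivity)
  exact ciSup_le fun z => hs i z

theorem exp_sub_norm {A B : Op n Y} (hA : A.IsHermitian) (hB : B.IsHermitian) {K : ℝ}
    (h : ∀ u : Sp n Y, ‖lin (B - A) u‖ ≤ K * ‖u‖) (v : Sp n Y) :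
    ‖lin (NormedSpace.exp ((-Complex.I) • B)) v - lin (NormedSpace.exp ((-Complex.I) • A)) v‖ ≤
      K * ‖v‖ := by
  refine (exp_diff hA hB v).trans ?_
  have hcont := continuous_exp B v
  have h1 : ∫ s in (0 : ℝ)..1, ‖lin (B - A) (lin (NormedSpace.exp ((-Complex.I * s) • B)) v)‖ ≤
      ∫ _s in (0 : ℝ)..1, K * ‖v‖ := by
    refine intervalIntegral.integral_mono_on zero_le_one ?_ ?_ fun s _ => ?_
    · exact (continuous_norm.comp ((lin (B - A)).continuous_of_finiteDimensional.comp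
        hcont)).intervalIntegrable _ _
    · exact intervalIntegrable_const
    · refine (h _).trans (le_of_eq ?_)
      rw [norm_exp_herm hB]
  refine h1.trans (le_of_eq ?_)
  rw [intervalIntegral.integral_const, sub_zero, one_smul]

/-- a gate is a product of steps -/
theorem gate_steps (hS : Std ε δ ν t r G) (hβ : 0 < β) (ζ : Z → Cube n)
    (hB : ∀ x, ((univ.filter fun z => x ∈ hball δ (ζ z)).card : ℝ) ≤ β ^ 2)
    (w : Fin p → List (Letter n m Y)) (hw : ∀ i, ∀ l ∈ w i, l.Ok t r G)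
    (hr : ∀ i, (w i).length ≤ r) (g : Gate n p Y) (hg : g.Ok t G) :
    ∃ l : List (Step Z (Sp n Y)), (∀ s ∈ l, s.Ok β) ∧
      sd l ≤ 2 * Real.exp 1 * 16 ^ r * g.dev ∧ sρ l ≤ 4 * Real.exp 1 * 16 ^ r * g.act ∧
      sν l ≤ (r * 2 ^ (r + 1)) * (ν + 2 / Real.sqrt (2 ^ k)) * g.act ∧
      ∀ (v : Z → Sp n Y) (z : Z), run l v z = lin (g.opF G δ w (ζ z)) (v z) := by
  cases g with
  | fix D =>
    refine ⟨[⟨fun _ => lin D, fun _ => 0, 0, 0, 0⟩], fun s hs => ?_, ?_, ?_, ?_, fun v z => ?_⟩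
    · rw [List.mem_singleton] at hs
      rw [hs]
      refine fixed_step hβ.le (lin D) fun u => ?_
      have h := norm_lin_of_bdd zero_le_one hg u
      rwa [one_mul] at h
    · show ([(0 : ℝ)]).sum ≤ _ * 0
      simp
    · show ([(0 : ℝ)]).sum ≤ _ * 0
      simp
    · show ([(0 : ℝ)]).sum ≤ _ * 0
      simp
    · show lin D (v z) + (0 : Sp n Y →ₗ[ℂ] Sp n Y) (v z) = lin D (v z)
      rw [LinearMap.zero_apply, add_zero]
  | orc D X =>
    refine ⟨[⟨fun _ => lin D, fun _ => 0, 0, 0, 0⟩], fun s hs => ?_, ?_, ?_, ?_, fun v z => ?_⟩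
    · rw [List.mem_singleton] at hs
      rw [hs]
      refine fixed_step hβ.le (lin D) fun u => ?_
      have h := norm_lin_of_bdd zero_le_one hg.1 u
      rwa [one_mul] at h
    · show ([(0 : ℝ)]).sum ≤ _ * 0
      simp
    · show ([(0 : ℝ)]).sum ≤ _ * 0
      simp
    · show ([(0 : ℝ)]).sum ≤ _ * 0
      simp
    · show lin D (v z) + (0 : Sp n Y →ₗ[ℂ] Sp n Y) (v z) = lin D (v z)
      rw [LinearMap.zero_apply, add_zero]
  | ev a b =>
    obtain ⟨α, hα⟩ : ∃ α, α = ∑ i, |a i| := ⟨_, rfl⟩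
    obtain ⟨σ, hσ⟩ : ∃ σ, σ = ∑ i, ⨆ z, |b i z| := ⟨_, rfl⟩
    have hα0 : 0 ≤ α := by rw [hα]; exact sum_nonneg fun _ _ => abs_nonneg _
    have hσ0 : 0 ≤ σ := by rw [hσ]; exact sum_nonneg fun i _ => iSup_abs_nonneg (b i)
    obtain ⟨M, hM⟩ := exists_nat_ge (2 * 16 ^ r * (α + σ) + 1)
    have hM1 : (1 : ℝ) ≤ M := by
      have : 0 ≤ 2 * (16 : ℝ) ^ r * (α + σ) := by positivity
      linarith
    have hM0 : (0 : ℝ) < M := by linarith
    have hMn : 0 < M := by exact_mod_cast hM0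
    have h16 : (1 : ℝ) ≤ 16 ^ r := one_le_pow₀ (by norm_num)
    -- the operators
    obtain ⟨HA, hHA⟩ : ∃ HA : Z → Op n Y, HA = fun z =>
      Ham (Letter.flt G δ (ζ z)) w fun i => (a i + b i (ζ z)) * (1 / M) := ⟨_, rfl⟩
    obtain ⟨HB, hHB⟩ : ∃ HB : Z → Op n Y, HB = fun z =>
      Ham (Letter.flt G δ (ζ z)) w fun i => a i * (1 / M) := ⟨_, rfl⟩
    obtain ⟨HC, hHC⟩ : ∃ HC : Op n Y, HC = Ham (bas G) w fun i => a i * (1 / M) := ⟨_, rfl⟩
    have hsum : ∑ i, |a i * (1 / M)| = α / M := by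
      rw [hα, sum_div]
      refine sum_congr rfl fun i _ => ?_
      rw [abs_mul, abs_of_pos (by positivity : (0 : ℝ) < 1 / M)]
      ring
    have hsumb : ∑ i, (⨆ z, |b i z|) * (1 / (M : ℝ)) = σ / M := by
      rw [hσ, sum_div]
      exact sum_congr rfl fun i _ => by ring
    have hab : (α + σ) / M ≤ 1 / (2 * 16 ^ r) := by
      rw [div_le_div_iff₀ hM0 (by positivity)]
      linarith
    have gA : GoodOp β 1 fun z => lin (HA z) := by
      have h1 := goodOp_hamS hS hβ.le ζ hB w hw hr (fun i z => (a i + b i z) * (1 / M))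
        (fun i => |a i * (1 / M)| + (⨆ z, |b i z|) * (1 / M)) (fun i z => by
          rw [add_mul]
          refine (abs_add_le _ _).trans (add_le_add le_rfl ?_)
          rw [abs_mul, abs_of_pos (by positivity : (0 : ℝ) < 1 / M)]
          exact mul_le_mul_of_nonneg_right (abs_le_iSup (b i) z) (by positivity))
        (S := (α + σ) / M) (by
          rw [sum_add_distrib, hsum, hsumb, add_div])
      rw [hHA]
      refine h1.mono hβ.le ?_
      have h2 := mul_le_mul_of_nonneg_left hab (by positivity : 0 ≤ 2 * (16 : ℝ) ^ r)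
      refine h2.trans (le_of_eq ?_)
      field_simp
    have gB0 : GoodOp β (2 * 16 ^ r * (α / M)) fun z => lin (HB z) := by
      rw [hHB]
      exact goodOp_hamS hS hβ.le ζ hB w hw hr (fun i _ => a i * (1 / M))
        (fun i => |a i * (1 / M)|) (fun i z => le_rfl) hsum.le
    have hle1 : 2 * 16 ^ r * (α / M) ≤ 1 := by
      have h2 := mul_le_mul_of_nonneg_left hab (by positivity : 0 ≤ 2 * (16 : ℝ) ^ r)
      have h3 : 2 * (16 : ℝ) ^ r * (1 / (2 * 16 ^ r)) = 1 := by field_simp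
      have h4 : α / M ≤ (α + σ) / M := by gcongr; linarith
      have h5 := mul_le_mul_of_nonneg_left h4 (by positivity : 0 ≤ 2 * (16 : ℝ) ^ r)
      linarith
    have gB := gB0.mono hβ.le hle1
    have h2r : (2 : ℝ) ^ (r + 1) ≤ 2 * 16 ^ r := by
      rw [pow_succ, mul_comm]
      exact mul_le_mul_of_nonneg_left (pow_le_pow_left₀ (by norm_num) (by norm_num) r) (by norm_num)
    have h2α : 2 ^ (r + 1) * (α / M) ≤ 2 * 16 ^ r * (α / M) :=
      mul_le_mul_of_nonneg_right h2r (by positivity)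
    have nC : ∀ u, ‖lin HC u‖ ≤ 2 ^ (r + 1) * (α / M) * ‖u‖ := by
      intro u
      rw [hHC]
      refine (norm_ham_bas hS w hw hr _ hsum.le u).trans (le_of_eq ?_)
      ring
    have gC0 : GoodOp β (2 ^ (r + 1) * (α / M)) fun _ : Z => lin HC :=
      goodOp_fixed (by positivity) (lin HC) nC
    have gC : GoodOp β 1 fun _ : Z => lin HC := gC0.mono hβ.le (h2α.trans hle1)
    have gAB : GoodOp β (2 * 16 ^ r * (σ / M)) fun z => lin (HA z) - lin (HB z) := by
      have h1 := goodOp_hamS hS hβ.le ζ hB w hw hr (fun i z => b i z * (1 / M))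
        (fun i => (⨆ z, |b i z|) * (1 / M)) (fun i z => by
          rw [abs_mul, abs_of_pos (by positivity : (0 : ℝ) < 1 / M)]
          exact mul_le_mul_of_nonneg_right (abs_le_iSup (b i) z) (by positivity)) hsumb.le
      have h2 : (fun z => lin (HA z) - lin (HB z)) = fun z =>
          lin (Ham (Letter.flt G δ (ζ z)) w fun i => b i (ζ z) * (1 / M)) := by
        funext z
        rw [← lin_sub, hHA, hHB, ham_sub]
        congr 2
        funext i
        ring
      rw [h2]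
      exact h1
    have gBC : GoodOp β (4 * 16 ^ r * (α / M)) fun z => lin (HB z) - lin HC := by
      have h1 := gC0.smul (a := 1) zero_le_one (fun _ => (-1 : ℂ)) (fun _ => by simp)
      have h2 := gB0.add h1
      have h3 : (fun z => lin (HB z) + (-1 : ℂ) • lin HC) = fun z => lin (HB z) - lin HC := by
        funext z
        rw [neg_one_smul, sub_eq_add_neg]
      rw [h3] at h2
      refine h2.mono hβ.le ?_
      linarith
    have hermA : ∀ z, (HA z).IsHermitian := fun z => by rw [hHA]; exact ham_herm _ _ _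
    have hermB : ∀ z, (HB z).IsHermitian := fun z => by rw [hHB]; exact ham_herm _ _ _
    have hermC : HC.IsHermitian := by rw [hHC]; exact ham_herm _ _ _
    obtain ⟨eA, heA⟩ : ∃ eA : Z → Sp n Y →ₗ[ℂ] Sp n Y, eA = fun z =>
      lin (NormedSpace.exp ((-Complex.I) • HA z)) := ⟨_, rfl⟩
    obtain ⟨eB, heB⟩ : ∃ eB : Z → Sp n Y →ₗ[ℂ] Sp n Y, eB = fun z =>
      lin (NormedSpace.exp ((-Complex.I) • HB z)) := ⟨_, rfl⟩
    obtain ⟨eC, heC⟩ : ∃ eC : Sp n Y →ₗ[ℂ] Sp n Y, eC =
      lin (NormedSpace.exp ((-Complex.I) • HC)) := ⟨_, rfl⟩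
    have iA : ∀ z u, ‖eA z u‖ = ‖u‖ := fun z u => by rw [heA]; exact norm_exp_one (hermA z) u
    have iC : ∀ u, ‖eC u‖ = ‖u‖ := fun u => by rw [heC]; exact norm_exp_one hermC u
    have dAB : GoodOpP β (2 * 16 ^ r * (σ / M) * Real.exp 1) fun z => eA z - eB z := by
      have h1 := goodOpP_exp_sub hβ HA HB gA gB gAB
      rw [heA, heB]
      exact h1
    have dBC : GoodOpP β (4 * 16 ^ r * (α / M) * Real.exp 1) fun z => eB z - eC := by
      have h1 := goodOpP_exp_sub hβ HB (fun _ => HC) gB gC gBC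
      rw [heB, heC]
      exact h1
    have gEC : GoodOpP β 1 fun _ : Z => eC :=
      AX.GoodOp.plus hβ.le (goodOp_fixed zero_le_one eC fun u => by rw [one_mul, iC])
    obtain ⟨θ, hθ⟩ : ∃ θ, θ = (r * 2 ^ (r + 1)) * (ν + 2 / Real.sqrt (2 ^ k)) := ⟨_, rfl⟩
    have hθ0 : 0 ≤ θ := by
      have h1 := hS.ν0
      rw [hθ]
      positivity
    have nR : ∀ z u, ‖(eB z - eC) u‖ ≤ θ * (α / M) * ‖u‖ := by
      intro z u
      rw [LinearMap.sub_apply, norm_sub_rev, heB, heC]
      refine exp_sub_norm (hermB z) hermC (fun u => ?_) u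
      rw [lin_sub, LinearMap.sub_apply, hHB, hHC]
      refine (ham_bas_flt hS (ζ z) w hw hr _ hsum.le u).trans (le_of_eq ?_)
      rw [hθ]
      ring
    refine ⟨List.replicate M ⟨fun z => (eA z - eB z) + eC, fun z => eB z - eC,
      2 * 16 ^ r * (σ / M) * Real.exp 1, 4 * 16 ^ r * (α / M) * Real.exp 1, θ * (α / M)⟩,
      fun s hs => ?_, ?_, ?_, ?_, fun v z => ?_⟩
    · rw [List.eq_of_mem_replicate hs]
      refine ⟨by positivity, by positivity, by positivity, ?_, dBC, fun z u => ?_, nR,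
        fun z u => ?_⟩
      · show GoodOpP β (1 + 2 * 16 ^ r * (σ / M) * Real.exp 1) fun z => (eA z - eB z) + eC
        rw [add_comm 1]
        exact GoodOpP.add dAB gEC
      · show ‖((eA z - eB z) + eC) u‖ ≤ (1 + θ * (α / M)) * ‖u‖
        have h1 : ((eA z - eB z) + eC) u = eA z u - (eB z - eC) u := by
          rw [LinearMap.add_apply, LinearMap.sub_apply, LinearMap.sub_apply]
          abel
        rw [h1]
        refine (norm_sub_le _ _).trans ?_
        rw [iA]
        have h2 := nR z u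
        linarith
      · show ‖((eA z - eB z) + eC) u + (eB z - eC) u‖ ≤ ‖u‖
        have h1 : ((eA z - eB z) + eC) u + (eB z - eC) u = eA z u := by
          rw [LinearMap.add_apply, LinearMap.sub_apply, LinearMap.sub_apply]
          abel
        rw [h1, iA]
    · rw [sd_replicate]
      show (M : ℝ) * (2 * 16 ^ r * (σ / M) * Real.exp 1) ≤ 2 * Real.exp 1 * 16 ^ r * ∑ i, ⨆ z, |b i z|
      rw [← hσ]
      refine le_of_eq ?_
      field_simp
    · rw [sρ_replicate]
      show (M : ℝ) * (4 * 16 ^ r * (α / M) * Real.exp 1) ≤ 4 * Real.exp 1 * 16 ^ r * ∑ i, |a i|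
      rw [← hα]
      refine le_of_eq ?_
      field_simp
    · rw [sν_replicate, ← hθ]
      show (M : ℝ) * (θ * (α / M)) ≤ θ * ∑ i, |a i|
      rw [← hα]
      refine le_of_eq ?_
      field_simp
    · rw [run_replicate]
      show (((eA z - eB z) + eC + (eB z - eC)) ^ M) (v z) =
        lin (NormedSpace.exp ((-Complex.I) • Ham (Letter.flt G δ (ζ z)) w
          fun i => a i + b i (ζ z))) (v z)
      have h1 : (eA z - eB z) + eC + (eB z - eC) = eA z := by abel
      rw [h1, exp_split _ M hMn, ham_smul, heA, hHA]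
      have h2 : ∀ (X : Op n Y) (j : ℕ) (u : Sp n Y), (lin X ^ j) u = lin (X ^ j) u := by
        intro X j
        induction j with
        | zero =>
          intro u
          rw [pow_zero, pow_zero, lin_one]
          rfl
        | succ j ih =>
          intro u
          rw [pow_succ', pow_succ', lin_mul]
          show lin X ((lin X ^ j) u) = lin X (lin (X ^ j) u)
          rw [ih]
      rw [h2]

/-- a circuit is a product of steps -/
theorem circ_steps (hS : Std ε δ ν t r G) (hβ : 0 < β) (ζ : Z → Cube n)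
    (hB : ∀ x, ((univ.filter fun z => x ∈ hball δ (ζ z)).card : ℝ) ≤ β ^ 2)
    (w : Fin p → List (Letter n m Y)) (hw : ∀ i, ∀ l ∈ w i, l.Ok t r G)
    (hr : ∀ i, (w i).length ≤ r) (C : List (Gate n p Y)) (hC : ∀ c ∈ C, c.Ok t G) :
    ∃ l : List (Step Z (Sp n Y)), (∀ s ∈ l, s.Ok β) ∧
      sd l ≤ 2 * Real.exp 1 * 16 ^ r * (C.map Gate.dev).sum ∧
      sρ l ≤ 4 * Real.exp 1 * 16 ^ r * (C.map Gate.act).sum ∧
      sν l ≤ (r * 2 ^ (r + 1)) * (ν + 2 / Real.sqrt (2 ^ k)) * (C.map Gate.act).sum ∧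
      ∀ (v : Z → Sp n Y) (z : Z), run l v z = lin (circF G δ w (ζ z) C) (v z) := by
  induction C with
  | nil =>
    refine ⟨[], fun s hs => absurd hs List.not_mem_nil, ?_, ?_, ?_, fun v z => ?_⟩
    · simp [sd]
    · simp [sρ]
    · simp [sν]
    · rw [lin_circF_nil]
      rfl
  | cons g C ih =>
    obtain ⟨l2, h1, h2, h3, h4, h5⟩ := ih fun c' hc' => hC c' (by simp [hc'])
    obtain ⟨l1, k1, k2, k3, k4, k5⟩ := gate_steps hS hβ ζ hB w hw hr g (hC g (by simp))
    refine ⟨l1 ++ l2, fun s hs => ?_, ?_, ?_, ?_, fun v z => ?_⟩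
    · rcases List.mem_append.1 hs with h | h
      · exact k1 s h
      · exact h1 s h
    · rw [sd_append, List.map_cons, List.sum_cons, mul_add]
      exact add_le_add k2 h2
    · rw [sρ_append, List.map_cons, List.sum_cons, mul_add]
      exact add_le_add k3 h3
    · rw [sν_append, List.map_cons, List.sum_cons, mul_add]
      exact add_le_add k4 h4
    · rw [run_append, k5, h5, lin_circF_cons]

/-- numbers that control the circuits -/
structure Grd (θ β L d Γ : ℝ) (n r : ℕ) : Prop where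
  L0 : 0 ≤ L
  d0 : 0 ≤ d
  ex : ∃ (x y : ℝ) (J : ℕ), 0 < x ∧ x ≤ 1 ∧ 0 < y ∧
    θ * L * ((1 / y) ^ J * Real.exp ((1 + y) * (θ * L))) * Real.sqrt (2 ^ n) ≤ β ∧
    (J + 1) * ((1 / x) ^ J * Real.exp (2 * Real.exp 1 * 16 ^ r * d +
      x * (4 * Real.exp 1 * 16 ^ r * L))) + 1 ≤ Γ

theorem Grd.one_le {θ L d Γ : ℝ} (h : Grd θ β L d Γ n r) : 1 ≤ Γ := by
  obtain ⟨x, y, J, h1, h2, h3, h4, h5⟩ := h.ex
  have : 0 ≤ (J + 1) * ((1 / x) ^ J * Real.exp (2 * Real.exp 1 * 16 ^ r * d +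
      x * (4 * Real.exp 1 * 16 ^ r * L))) := by positivity
  linarith

theorem goodP_circF {L d Γ c : ℝ} (hg : Grd ((r * 2 ^ (r + 1)) * (ν + 2 / Real.sqrt (2 ^ k)))
    β L d Γ n r) (hS : Std ε δ ν t r G) (hβ : 0 < β) (ζ : Z → Cube n)
    (hB : ∀ x, ((univ.filter fun z => x ∈ hball δ (ζ z)).card : ℝ) ≤ β ^ 2)
    (hZ : (Fintype.card Z : ℝ) ≤ 2 ^ n)
    (w : Fin p → List (Letter n m Y)) (hw : ∀ i, ∀ l ∈ w i, l.Ok t r G)
    (hr : ∀ i, (w i).length ≤ r) (C : List (Gate n p Y)) (hC : ∀ c ∈ C, c.Ok t G)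
    (hL : (C.map Gate.act).sum ≤ L) (hd : (C.map Gate.dev).sum ≤ d) (hc : 1 ≤ c)
    {v : Z → Sp n Y} (hv : GoodP β c v) (hn : ∀ z, ‖v z‖ ≤ 1) :
    GoodP β (Γ * c) fun z => lin (circF G δ w (ζ z) C) (v z) := by
  obtain ⟨l, h1, h2, h3, h4, h5⟩ := circ_steps hS hβ ζ hB w hw hr C hC
  obtain ⟨x, y, J, hx, hx1, hy, hJ, hΓ⟩ := hg.ex
  obtain ⟨θ, hθ⟩ : ∃ θ, θ = (r * 2 ^ (r + 1)) * (ν + 2 / Real.sqrt (2 ^ k)) := ⟨_, rfl⟩
  have hθ0 : 0 ≤ θ := by
    have h1 := hS.ν0
    rw [hθ]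
    positivity
  rw [← hθ] at h4 hJ
  have hL0 := hg.L0
  have h6 := good_run hβ h1 hx hx1 hy (by linarith : 0 ≤ c) hv hn
    (h2.trans (mul_le_mul_of_nonneg_left hd (by positivity)))
    (h3.trans (mul_le_mul_of_nonneg_left hL (by positivity)))
    (h4.trans (mul_le_mul_of_nonneg_left hL hθ0)) J (le_trans ?_ hJ)
  · have h7 : run l v = fun z => lin (circF G δ w (ζ z) C) (v z) := by
      funext z
      exact h5 v z
    rw [h7] at h6
    refine AX.GoodP.mono h6 ?_
    have h8 := mul_le_mul_of_nonneg_right hΓ (by linarith : 0 ≤ c)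
    refine le_trans ?_ h8
    rw [add_mul, one_mul]
    linarith
  · refine mul_le_mul_of_nonneg_left (Real.sqrt_le_sqrt ?_) (by positivity)
    exact hZ

end good

end Pool.Agent.H73.AY
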