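import Pool.Agent.H73.AZ.Stmt

/-!
Adiabatic paths and circuits for planted k-CNF formulas: circuits whose evolutions have an
arbitrary linear action, with exponentially many oracles.

`Letter`, `Ham`, `LowE`, `Cov` are the ones of `Pool/Agent/H73/AZ/Stmt.lean`; `Cube n`,
`Clause n k`, `Violates` are the ones of `Pool/Agent/H73/QA/Stmt.lean`; `Op`, `nsq`, `Bdd`, `pviol`,
`Iso` are the ones of `Pool/Agent/H73/AD/Stmt.lean`.
-/

namespace Pool.Agent.H73.AY

open Finset Matrix Pool.Agent.H73.QA Pool.Agent.H73.AD Pool.Agent.H73.AZ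

variable {n k m p q : ℕ} {Y : Type} [Fintype Y] [DecidableEq Y]

/-- The gates of a circuit: a fixed operator, an oracle, or the evolution for unit time under the
Hamiltonian whose `i`-th coefficient is `a i + b i z`. -/
inductive Gate (n p : ℕ) (Y : Type) : Type
  | fix (D : Op n Y)
  | orc (D : Op n Y) (X : Cube n → Op n Y)
  | ev (a : Fin p → ℝ) (b : Fin p → Cube n → ℝ)

/-- Fixed operators are contractions.  The oracle `X z` of `orc D X` is a contraction which differs
from the fixed contraction `D` only on the assignments that violate at most the fraction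
`(1 - t) / 2 ^ k` of the clauses. -/
def Gate.Ok (t : ℝ) (G : Fin m → Clause n k) : Gate n p Y → Prop
  | .fix D => Bdd D 1
  | .orc D X => Bdd D 1 ∧ ∀ z, Bdd (X z) 1 ∧ ∀ x y, X z x y ≠ D x y →
      (pviol G z x.1 : ℝ) ≤ (1 - t) * m / 2 ^ k ∧ (pviol G z y.1 : ℝ) ≤ (1 - t) * m / 2 ^ k
  | .ev _ _ => True

/-- The action of a gate. -/
noncomputable def Gate.act : Gate n p Y → ℝ
  | .fix _ => 0
  | .orc _ _ => 0
  | .ev a _ => ∑ i, |a i|

/-- The dependence of the coefficients of a gate on `z`. -/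
noncomputable def Gate.dev : Gate n p Y → ℝ
  | .fix _ => 0
  | .orc _ _ => 0
  | .ev _ b => ∑ i, ⨆ z, |b i z|

/-- `1` for an oracle and `0` for the other gates. -/
def Gate.qry : Gate n p Y → ℝ
  | .fix _ => 0
  | .orc _ _ => 1
  | .ev _ _ => 0

/-- The operator of a gate: `exp (- i H)` for an evolution, where `H` is the Hamiltonian with
coefficients `a i + b i z`. -/
noncomputable def Gate.op (f : Letter n m Y → Op n Y) (w : Fin p → List (Letter n m Y))
    (z : Cube n) : Gate n p Y → Op n Y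
  | .fix D => D
  | .orc _ X => X z
  | .ev a b => NormedSpace.exp ((-Complex.I) • Ham f w fun i => a i + b i z)

/-- The operator of a circuit. -/
noncomputable def circ (f : Letter n m Y → Op n Y) (w : Fin p → List (Letter n m Y)) (z : Cube n)
    (C : List (Gate n p Y)) : Op n Y :=
  (C.map (Gate.op f w z)).prod

/-- Circuits with action at most `L`, such that the dependence of the coefficients on `z` is at most
`d`, with at most `N` oracles. -/
def COk (t : ℝ) (G : Fin m → Clause n k) (L d N : ℝ) (C : List (Gate n p Y)) : Prop :=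
  (∀ g ∈ C, g.Ok t G) ∧ (C.map Gate.act).sum ≤ L ∧ (C.map Gate.dev).sum ≤ d ∧
    (C.map Gate.qry).sum ≤ N

/-- A schedule consists of `l + 1` continuous paths of Hamiltonians `Ham`, given by coefficient
vectors `a i s ∈ A` of `ℓ¹` norm at most `Λ`; at the beginning only words with the letters `fix` and
`cls` are used.  It follows unit eigenvectors `ψ i s` for eigenvalues `E i s`, which are continuous
along each path, low-lying, and separated by at least `g > 2 ^ (-u n)` from the rest of the
spectrum.  Between two paths one of the circuits `T j` is applied, such that the overlap with the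
next eigenvector exceeds `2 ^ (-u n) / g`.  Then every circuit `T j` maps the last eigenvector to a
vector of norm at most `2 ^ (-u n) / g` on every set `L` of assignments that violate at most the
fraction `(1 - t) / 2 ^ k` of the clauses. -/
def Hard (α κ Λ t u : ℝ) (A : Set (Fin p → ℝ)) (G : Fin m → Clause n k)
    (w : Fin p → List (Letter n m Y)) (T : Fin q → List (Gate n p Y)) (z : Cube n) : Prop :=
  ∀ (g : ℝ) (l : ℕ) (a : ℕ → ℝ → Fin p → ℝ) (E : ℕ → ℝ → ℝ) (ψ : ℕ → ℝ → Cube n × Y → ℂ),
    (2 : ℝ) ^ (-u * n) < g → g ≤ 1 → (∀ i, a 0 0 i ≠ 0 → ∀ l ∈ w i, l.Free) →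
    (∀ i ≤ l, ContinuousOn (a i) (Set.Icc 0 1) ∧ ContinuousOn (E i) (Set.Icc 0 1) ∧
      ∀ s ∈ Set.Icc (0 : ℝ) 1, a i s ∈ A ∧ ∑ j, |a i s j| ≤ Λ ∧
        Iso (Ham (Letter.op G z) w (a i s)) g (E i s) (ψ i s) ∧
        LowE α κ (Ham (Letter.op G z) w (a i s)) (Ham Letter.av w (a i s)) (E i s)) →
    (∀ i < l, ∃ j, (2 : ℝ) ^ (-u * n) / g <
      ‖star (ψ (i + 1) 0) ⬝ᵥ circ (Letter.op G z) w z (T j) *ᵥ ψ i 1‖) →
    ∀ (j : Fin q) (L : Finset (Cube n)),
      (∀ x ∈ L, (pviol G z x : ℝ) ≤ (1 - t) * m / 2 ^ k) →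
      Real.sqrt (∑ x ∈ L, ∑ y, ‖(circ (Letter.op G z) w z (T j) *ᵥ ψ l 1) (x, y)‖ ^ 2) ≤
        (2 : ℝ) ^ (-u * n) / g

end Pool.Agent.H73.AY
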